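import Pool.Agent.H435.SC.GMain

/-!
The degrees of the curves in generic complete intersections.
-/

set_option autoImplicit false

open MvPolynomial FF Pool.Agent.W603.LV Pool.Agent.W603.PV Pool.Agent.TH145.GH
open Pool.Agent.Y735 (lf pm tm pl vol vol_apply po po_le exists_po zp zp_pl zp_smul exists_xi rho
  eval_rho fht fht_fin fht_nonneg sum_two po_finite)
open Pool.Agent.W602.GT Pool.Agent.TH145.GF

namespace Pool.Agent.H435.SC

open Pool.Agent.Y741

section

variable {k L : Type} [Field k] [Field L] [Algebra k L] [IsAlgClosed k] [CharZero k] [IsFF k L]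
  {n : ℕ}

/-- The degree inequality given by a regular form. -/
theorem deg_ineq {x y : Fin (n + 1) → L} {i0 : Fin (n + 1)} (hi0 : x i0 ≠ 0)
    {ik : Fin (n + 1) × Fin (n + 1)} (hik : pl x y ik ≠ 0) {h r : ℤ}
    {Φ : (Fin 1 → Derivation k L L) → L}
    (hlin : ∀ (M : Matrix (Fin 1) (Fin 1) L) (D1 D2 : Fin 1 → Derivation k L L),
        (∀ i f, D1 i f = ∑ j, M i j * D2 j f) → Φ D1 = M.det * Φ D2)
    {E : Fin 1 → Derivation k L L} (hΦE : Φ E ≠ 0)
    (hΦ : ∀ Q : Place k L, ∀ Dd : Fin 1 → Derivation k L L, (∀ i, DerReg Q (Dd i)) →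
      Ge Q (-(h * pord Q (nx x i0)) - r * po Q (np x y ik)) (Φ Dd)) :
    h * pht k x + r * fht k (pl x y) ≤ canDeg k L := by
  classical
  have hx0 : x ≠ 0 := by
    rintro rfl
    exact hi0 rfl
  have hp0 : pl x y ≠ 0 := fun h0 => hik (by rw [h0]; rfl)
  obtain ⟨δ, hδ⟩ : ∃ δ, δ = E 0 := ⟨_, rfl⟩
  have hsc : ∀ (c : L), Φ (fun _ => c • δ) = c * Φ E := by
    intro c
    have h1 := hlin (Matrix.of fun _ _ => c) (fun _ => c • δ) E (fun i f => by
      rw [Fin.sum_univ_one, Matrix.of_apply, hδ]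
      rfl)
    rw [h1, Matrix.det_unique, Matrix.of_apply]
  have hδ0 : δ ≠ 0 := by
    intro h1
    apply hΦE
    have h2 := hsc 0
    have h3 : (fun _ : Fin 1 => (0 : L) • δ) = E := by
      funext i
      rw [zero_smul, Subsingleton.elim i 0, ← hδ, h1]
    rwa [h3, zero_mul] at h2
  have hloc : ∀ P : Place k L, (-h) * pord P x + (-r) * po P (pl x y) +
      1 * P.ord (x i0 ^ h * pl x y ik ^ r) - (-vo P δ) ≤ P.ord (Φ E) := by
    intro P
    have hπ := ord_unif P
    have hδπ := der_pi_ne_zero hδ0 P hπ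
    have h1 := hΦ P (fun _ => (δ (unif P))⁻¹ • δ) fun i f hf =>
      (der_reg P hπ ((δ (unif P))⁻¹ • δ) (by simp [hδπ]) hf)
    rw [hsc] at h1
    have h2 : (δ (unif P))⁻¹ * Φ E ≠ 0 := mul_ne_zero (inv_ne_zero hδπ) hΦE
    have h3 := h1.resolve_left h2
    rw [P.ord_mul (inv_ne_zero hδπ) hΦE, P.ord_inv] at h3
    have h4 : pord P (nx x i0) = pord P x - P.ord (x i0) := by
      have h4 : nx x i0 = fun j => (x i0)⁻¹ * x j := by
        funext j
        rw [nx, div_eq_mul_inv, mul_comm]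
      rw [h4, pord_scale P ⟨i0, hi0⟩ (inv_ne_zero hi0), P.ord_inv]
      ring
    have h5 : po P (np x y ik) = po P (pl x y) - P.ord (pl x y ik) := by
      have h4 : np x y ik = fun j => (pl x y ik)⁻¹ * pl x y j := by
        funext j
        rw [np, div_eq_mul_inv, mul_comm]
      rw [h4, po_scale P (fun h => hik (congrFun h ik)) (inv_ne_zero hik), P.ord_inv]
      ring
    have h6 : P.ord (x i0 ^ h * pl x y ik ^ r) = h * P.ord (x i0) + r * P.ord (pl x y ik) := by
      rw [P.ord_mul (zpow_ne_zero _ hi0) (zpow_ne_zero _ hik), P.ord_zpow, P.ord_zpow]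
    rw [h4, h5] at h3
    rw [h6]
    unfold vo
    linarith
  have h1 := sum_two (k := k) hx0 hp0 (C := fun P => -vo P δ) (by
    refine (vo_finite (k := k) hδ0).subset fun P hP => ?_
    intro h0
    apply hP
    rw [h0, neg_zero]) hloc
  have h2 : ∑ᶠ P : Place k L, -vo P δ = canDeg k L := by
    rw [canDeg_eq hδ0, finsum_neg_distrib]
  rw [h2] at h1
  linarith

end

section

variable {k0 k L : Type} [Field k0] [Field k] [Field L] [Algebra k0 k] [Algebra k L]
  [IsAlgClosed k] [CharZero k] [IsFF k L] {n : ℕ} {A : Type} [Fintype A] [DecidableEq A]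
  {dg : A → ℕ}

/-- The degree of a curve that is not covered by lines, at a normalised point. -/
theorem deg_or_line1 (hn : 1 ≤ n) (hpos : ∀ a, 0 < dg a) {G : A → MvPolynomial (Fin (n + 1)) k}
    (hG : ∀ a, (G a).IsHomogeneous (dg a))
    (hind : AlgebraicIndependent k0 fun p : (a : A) × {I : Fin (n + 1) →₀ ℕ // I.degree = dg a} =>
      (G p.1).coeff p.2.1) (hd : 3 * n + 2 ≤ 2 * ∑ a, dg a + Fintype.card A)
    {x : Fin (n + 1) → L} {j0 : Fin (n + 1)} (hx1 : x j0 = 1)
    (hgen : Algebra.IsAlgebraic (coords k x) L)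
    (hxC : ∀ c, aeval x (G c) = 0) {e : ℕ} (he : ∀ a, dg a ≤ e) :
    pht k x ≤ e * canDeg k L ∨ LineK (fun a => map (algebraMap k L) (G a)) x := by
  classical
  have hLz : CharZero L := charZero_of_injective_algebraMap (algebraMap k L).injective
  have hFF : IsFF k L := inferInstance
  have htr : Algebra.trdeg k L = (1 : ℕ) := by rw [hFF.trdeg, Nat.cast_one]
  obtain ⟨F, hFG⟩ : ∃ F : Fam L n A, ∀ a, F a = map (algebraMap k L) (G a) := ⟨_, fun _ => rfl⟩
  have hFeq : (fun a => map (algebraMap k L) (G a)) = F := (funext hFG).symm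
  have hF : ∀ a, (F a).IsHomogeneous (dg a) := fun a => by
    rw [hFG]
    exact (hG a).map _
  have hev : ∀ a, aeval x (G a) = eval x (F a) := fun a => by
    rw [hFG, eval_map]
    rfl
  simp only [hev] at hxC ⊢
  rw [hFeq]
  obtain ⟨l, hl⟩ := exists_coord_basis htr hgen
  choose E hE using fun i : Fin 1 => exists_der (fun i => x (l i)) hl
    fun j => if i = j then (1 : L) else 0
  obtain ⟨D, hD, hS, hcm⟩ := exists_duals_L hl G hind
  rw [hFeq] at hD
  have hFk : ∀ a u, ∃ c : k, (F a).coeff u = algebraMap k L c := fun a u => by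
    rw [hFG, coeff_map]
    exact ⟨_, rfl⟩
  have hFK : ∀ ξ a u, vE E ξ ((F a).coeff u) = 0 := fun ξ a u => by
    obtain ⟨c, hc⟩ := hFk a u
    rw [hc]
    exact (E ξ).map_algebraMap c
  have hx0 : x ≠ 0 := by
    rintro h
    rw [h] at hx1
    exact zero_ne_one hx1
  have hind' := rank_Ve hx1 hE
  have hxC' : ∀ c ∈ (Finset.univ : Finset A), eval x (F c) = 0 := fun c _ => hxC c
  have hxb : ∀ b, b ∉ (Finset.univ : Finset A) → eval x (F b) ≠ 0 := fun b hb =>
    absurd (Finset.mem_univ b) hb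
  have hp0 : 0 ≤ pht k x := pht_nonneg hx0
  have hcoef : ∀ (P : Place k L) a u, Ge P (-(0 : ℤ)) ((F a).coeff u) := fun P a u => by
    obtain ⟨c, hc⟩ := hFk a u
    rw [hc, neg_zero]
    exact Ge.const _
  have hfin0 : {P : Place k L | (fun _ : Place k L => (0 : ℤ)) P ≠ 0}.Finite := by
    simp
  rcases tricho_EB hpos hF hD hFK hcm hn (by rw [Fintype.card_fin]; exact one_pos) hd hxC hx0
    hind' with ⟨y, ik, hik, hOn⟩ | ⟨w', b, u, t, rn, y, i0, ik, hi0, hik, hrn, hnum⟩
  · exact Or.inr ⟨y, ik, hik, hOn⟩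
  have hpl0 : pl x y ≠ 0 := fun h0 => hik (by rw [h0]; rfl)
  have hf0 : 0 ≤ fht k (pl x y) := fht_nonneg hpl0
  have key : ∀ (h r : ℤ) (Φ : (Fin 1 → Derivation k L L) → L),
      (∀ (M : Matrix (Fin 1) (Fin 1) L) (D1 D2 : Fin 1 → Derivation k L L),
        (∀ i f, D1 i f = ∑ j, M i j * D2 j f) → Φ D1 = M.det * Φ D2) → Φ E ≠ 0 →
      (∀ Q : Place k L, Divisorial 1 Q → ∀ Dd : Fin 1 → Derivation k L L,
        (((∀ i, DerReg Q (Dd i)) ∧ ∀ b, b ∉ (Finset.univ : Finset A) →
            Q.ord (eval x (F b)) ≤ dg b * pord Q x) ∨ ∀ i, DerLog Q (Dd i)) →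
        Ge Q (-(h * pord Q (nx x i0)) - r * po Q (np x y ik)) (Φ Dd)) →
      h * pht k x + r * fht k (pl x y) ≤ canDeg k L := by
    intro h r Φ hlin hΦE hΦ
    exact deg_ineq hi0 hik hlin hΦE fun Q Dd hDd =>
      hΦ Q (div_one Q) Dd (Or.inl ⟨hDd, fun b hb => absurd (Finset.mem_univ b) hb⟩)
  rw [← or_assoc] at hnum
  rcases hnum with hnum | ⟨c1, c, hc1, hc2, htot⟩
  swap
  · -- the line meets a hypersurface in one point only
    left
    obtain ⟨r, hr⟩ : ∃ r, r = t - u := ⟨_, rfl⟩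
    obtain ⟨Φ, hlin, hΦE, hΦ⟩ := exists_phi_neg hpos hF hD one_pos htr hS hl hE hFk hxC' hxb hi0
      hik rn hrn (h := c1) (r := r) (by simp only [Fintype.card_fin]; omega)
      (by simp only [Fintype.card_fin]; omega)
    have h1 := key (-c1) r Φ hlin hΦE fun Q hQ Dd hDd => (hΦ Q hQ Dd hDd).mono (by linarith)
    obtain ⟨ht1, a, b', hab⟩ := htot
    obtain ⟨ξ, hξ⟩ := exists_xi (k := k) hik hab
    have h2 := sum_two (k := k) hx0 hpl0 hfin0
      (fun P => line_local_d (hpos c) (hF c) ht1 hik hξ P (hcoef P c))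
    rw [finsum_zero] at h2
    have hd1 : (1 : ℤ) ≤ dg c := by exact_mod_cast hpos c
    have h3 : pht k x ≤ fht k (pl x y) := by nlinarith
    have hr1 : (c1 : ℤ) + 1 ≤ r := by
      have : c1 + 1 ≤ r := by omega
      exact_mod_cast this
    have hc0 : (0 : ℤ) ≤ c1 := by positivity
    have h4 : fht k (pl x y) ≤ canDeg k L := by nlinarith
    have hcd : 0 ≤ canDeg k L := hf0.trans h4
    have he1 : (1 : ℤ) ≤ e := by
      have := he c
      have := hpos c
      omega
    nlinarith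
  obtain ⟨h, hh⟩ : ∃ h, h = ∑ a, dg a - (n + 1 + b + t) := ⟨_, rfl⟩
  obtain ⟨r, hr⟩ : ∃ r, r = t - u := ⟨_, rfl⟩
  obtain ⟨Φ, hlin, hΦE, hΦ⟩ := exists_phi hpos hF hD one_pos htr hS hl hE hFk hxC' hxb hi0 hik rn
    hrn (h := h) (r := r) (by simp only [Fintype.card_fin]; omega)
    (by simp only [Fintype.card_fin]; omega)
  have h1 := key h r Φ hlin hΦE hΦ
  have hr0 : (0 : ℤ) ≤ r := by positivity
  have hh0 : (0 : ℤ) ≤ h := by positivity
  have he1 : (1 : ℤ) ≤ e := by
    obtain ⟨c⟩ : Nonempty A := by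
      by_contra hcon
      rw [not_nonempty_iff] at hcon
      have h2 : ∑ a, dg a = 0 := Finset.sum_eq_zero fun a _ => (hcon.false a).elim
      have h3 : Fintype.card A = 0 := Fintype.card_eq_zero
      omega
    have := he c
    have := hpos c
    omega
  rcases hnum with ⟨h2, h3⟩ | ⟨h2, h3⟩
  · left
    have e1 : (1 : ℤ) ≤ h := by exact_mod_cast (by omega : 1 ≤ h)
    have e2 : pht k x ≤ canDeg k L := by nlinarith
    nlinarith
  · have e1 : (1 : ℤ) ≤ r := by exact_mod_cast (by omega : 1 ≤ r)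
    have e2 : fht k (pl x y) ≤ canDeg k L := by nlinarith
    by_cases hz : OnL F Finset.univ x y
    · exact Or.inr ⟨y, ik, hik, hz⟩
    · left
      unfold OnL at hz
      push Not at hz
      obtain ⟨c, hc, a, b', hab⟩ := hz
      obtain ⟨ξ, hξ⟩ := exists_xi (k := k) hik hab
      have h4 := sum_two (k := k) hx0 hpl0 hfin0
        (fun P => line_local (hF c) (hxC c) hik hξ P (hcoef P c))
      rw [finsum_zero] at h4
      have h5 : (dg c : ℤ) ≤ e := by exact_mod_cast he c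
      nlinarith

end

end Pool.Agent.H435.SC
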