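import Pool.Agent.H435.SC.Pts

/-!
Generic complete intersections: assembly.
-/

set_option autoImplicit false

open MvPolynomial FF Pool.Agent.W603.LV Pool.Agent.W603.PV Pool.Agent.TH145.GH
open Pool.Agent.Y735 (pl rho eval_rho)
open Pool.Agent.TH145.GC (Cf Rt)
open Pool.Agent.W602.GT Pool.Agent.TH145.MG Pool.Agent.TH145.GF
open LinearAlgebra.Projectivization

namespace Pool.Agent.H435.SC

open Pool.Agent.Y741

/-- The numerical condition holds if the maximal degree is attained twice. -/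
theorem planeNum_of_two {n : ℕ} {A : Type} [Fintype A] {d : A → ℕ}
    (h : ∃ a b, a ≠ b ∧ ∀ c, d c ≤ d a ∧ d c ≤ d b) (e : ℕ) (he : 3 ≤ e) (hex : ∃ a, e ≤ d a) :
    e * e + 3 * e ≤ 14 + ∑ a,
      (if e ≤ d a then (e - 2) * (2 * d a - e + 1) else d a * (d a - 1)) := by
  classical
  obtain ⟨a, b, hab, hc⟩ := h
  obtain ⟨c, hce⟩ := hex
  have ha : e ≤ d a := hce.trans (hc c).1
  have hb : e ≤ d b := hce.trans (hc c).2
  have h1 : ∑ x ∈ ({a, b} : Finset A),
      (if e ≤ d x then (e - 2) * (2 * d x - e + 1) else d x * (d x - 1)) ≤ ∑ x,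
      (if e ≤ d x then (e - 2) * (2 * d x - e + 1) else d x * (d x - 1)) :=
    Finset.sum_le_sum_of_subset (Finset.subset_univ _)
  rw [Finset.sum_pair hab, if_pos ha, if_pos hb] at h1
  obtain ⟨f, rfl⟩ : ∃ f, e = f + 3 := ⟨e - 3, by omega⟩
  have h2 : (f + 1) * (f + 4) ≤ (f + 3 - 2) * (2 * d a - (f + 3) + 1) :=
    Nat.mul_le_mul (by omega) (by omega)
  have h3 : (f + 1) * (f + 4) ≤ (f + 3 - 2) * (2 * d b - (f + 3) + 1) :=
    Nat.mul_le_mul (by omega) (by omega)
  nlinarith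

section

variable {k K : Type} [Field k] [Field K] [IsAlgClosed K] [CharZero K] [Algebra k K] {n : ℕ}
  {A : Type} [Fintype A] [DecidableEq A] {d : A → ℕ}

omit [IsAlgClosed K] [CharZero K] in
theorem flat_data {F : A → MvPolynomial (Fin (n + 1)) K}
    (hgen : AlgebraicIndependent k fun p : Cf n d => (F p.1).coeff p.2.1) :
    ∃ I0 : A → Fin (n + 1) →₀ ℕ, (∀ a, (I0 a).degree = d a) ∧ (∀ a, (F a).coeff (I0 a) ≠ 0) ∧
      AlgebraicIndependent k fun p : Rt d I0 =>
        (F p.1).coeff p.2.1 / (F p.1).coeff (I0 p.1) := by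
  obtain ⟨I0, hI0⟩ : ∃ I0 : A → Fin (n + 1) →₀ ℕ, ∀ a, (I0 a).degree = d a :=
    ⟨fun a => Finsupp.single 0 (d a), fun a => Finsupp.degree_single _ _⟩
  exact ⟨I0, hI0, fun a => hgen.ne_zero ⟨a, ⟨I0 a, hI0 a⟩⟩, ratio_indep_fam hgen I0 hI0⟩

/-- There are no lines in large degree. -/
theorem no_lineIn (hd : 2 * n - 1 ≤ ∑ a, (d a + 1)) {F : A → MvPolynomial (Fin (n + 1)) K}
    (hF : ∀ a, (F a).IsHomogeneous (d a))
    (hgen : AlgebraicIndependent k fun p : Cf n d => (F p.1).coeff p.2.1)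
    (W : Submodule K (Fin (n + 1) → K)) (hW : LineIn F W) : False := by
  have h1 : ∑ a, (d a + 1) = ∑ a, d a + Fintype.card A := by
    rw [Finset.sum_add_distrib, Finset.sum_const, Finset.card_univ, smul_eq_mul, mul_one]
  obtain ⟨I0, hI0, h0, hind⟩ := flat_data hgen
  obtain ⟨x, hx, hx0⟩ : ∃ x ∈ W, x ≠ 0 := by
    have h1 : W ≠ ⊥ := by
      rintro rfl
      have := hW.1
      rw [finrank_bot] at this
      omega
    exact Submodule.exists_mem_ne_zero_of_ne_bot h1
  obtain ⟨y, ik, hik, h2, -⟩ := exc_of_lineIn d hW hx hx0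
  exact no_line_K (k := k) (by omega) F hF _ h0 hind (li_of_pl hik)
    fun c a b => h2 c (Finset.mem_univ c) a b

omit [CharZero K] in
/-- Forms that vanish on a line. -/
theorem van_zero {F : A → MvPolynomial (Fin (n + 1)) K} {H : MvPolynomial (Fin (n + 1)) K} {m : ℕ}
    (hH : H.IsHomogeneous m) (h : ∀ W, LineIn F W → ∀ v ∈ W, v ≠ 0 → eval v H = 0)
    (W : Submodule K (Fin (n + 1) → K)) (hW : LineIn F W) (v : Fin (n + 1) → K) (hv : v ∈ W) :
    eval v H = 0 := by
  by_cases hv0 : v = 0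
  · obtain ⟨x, hx, hx0⟩ : ∃ x ∈ W, x ≠ 0 := by
      have h1 : W ≠ ⊥ := by
        rintro rfl
        have := hW.1
        rw [finrank_bot] at this
        omega
      exact Submodule.exists_mem_ne_zero_of_ne_bot h1
    have h1 := h W hW x hx hx0
    rw [hv0, show (0 : Fin (n + 1) → K) = (0 : K) • x from (zero_smul K x).symm,
      eval_smul_hom hH, h1, mul_zero]
  · exact h W hW v hv hv0

/-- The lines are contained in a proper closed subset. -/
theorem exists_form (hA : Fintype.card A < n) (hd0 : ∀ a, 0 < d a)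
    (hd : 3 * n + 2 ≤ 2 * ∑ a, d a + Fintype.card A)
    (F : A → MvPolynomial (Fin (n + 1)) K) (hF : ∀ a, (F a).IsHomogeneous (d a))
    (hgen : AlgebraicIndependent k fun p : Cf n d => (F p.1).coeff p.2.1) :
    ∃ (H : MvPolynomial (Fin (n + 1)) K) (e : ℕ), H.IsHomogeneous e ∧
      (∃ v, (∀ a, eval v (F a) = 0) ∧ eval v H ≠ 0) ∧
      ∀ W, LineIn F W → ∀ v ∈ W, v ≠ 0 → eval v H = 0 := by
  classical
  obtain ⟨I0, hI0, h0, hind⟩ := flat_data hgen
  have hcu : (Finset.univ : Finset A).card = Fintype.card A := Finset.card_univ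
  have hS : n + 2 ≤ ∑ a, d a := by omega
  obtain ⟨H, e, hH0, hHe, hH⟩ := exists_H_exc (k := k) Finset.univ hS F hF _ h0 hind
  obtain ⟨v, hv1, hv2, hv3⟩ := exists_good hd0 Finset.univ (by rw [hcu]; omega) F hF _ h0 hind hH0
  refine ⟨rename (Fin.castLE (Nat.sub_le _ _)) H, e, hHe.rename_isHomogeneous,
    ⟨v, fun a => hv1 a (Finset.mem_univ a), by rw [eval_rename]; exact hv3⟩,
    fun W hW v hv hv0 => ?_⟩
  rw [eval_rename]
  obtain ⟨p, hp⟩ : ∃ p, p = Projectivization.mk K v hv0 := ⟨_, rfl⟩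
  obtain ⟨u, hu⟩ := Projectivization.exists_smul_eq_mk_rep K v hv0
  rw [← hp] at hu
  have hu0 : (u : K) ≠ 0 := u.ne_zero
  have hu' : p.rep = (u : K) • v := hu.symm
  have hbd : Bd F Finset.univ = ∅ := by
    ext q
    refine ⟨?_, fun h => h.elim⟩
    rintro ⟨b, hb, -⟩
    exact hb (Finset.mem_univ b)
  have h6 := hH W ⟨hW.1, fun c _ => hW.2 c⟩ (by
    rw [hbd, Set.inter_empty, Set.encard_empty]
    exact zero_le) p (by
    change p.rep ∈ W
    rw [hu']
    exact W.smul_mem _ hv) (by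
    rw [hbd]
    exact fun h => h.elim)
  have h7 : (fun l => p.rep (Fin.castLE (Nat.sub_le _ _) l)) = (u : K) •
      (fun l : Fin (n + 1 - (Finset.univ : Finset A).card) =>
        v (Fin.castLE (Nat.sub_le _ _) l)) := by
    funext l
    rw [hu']
    rfl
  rw [h7, eval_smul_fin hHe] at h6
  exact (mul_eq_zero.1 h6).resolve_left (pow_ne_zero _ hu0)

end

end Pool.Agent.H435.SC
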