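import Pool.Agent.H435.SC.Alg

/-!
Points in planes.
-/

set_option autoImplicit false

open MvPolynomial

namespace Pool.Agent.H435.SC

open Pool.Agent.Y735 (pl)

/-- There are no plane curves of degree at least two on the complete intersection. -/
def NoPC {k A : Type} [Field k] {n : ℕ} (F : A → MvPolynomial (Fin (n + 1)) k) : Prop :=
  ∀ (i : Fin 3 → Fin (n + 1)) (ψ : Fin (n + 1) → Fin 3 → k),
    (∀ s t, ψ (i s) t = if s = t then 1 else 0) →
    ∀ (e : ℕ) (Y : MvPolynomial (Fin 3) k), Y.IsHomogeneous e → 2 ≤ e → Y ≠ 0 →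
      (∀ a, Y ∣ rs ψ (F a)) → ∀ a, rs ψ (F a) = 0

variable {k K A : Type} [Field k] [Field K] [Algebra k K] {n : ℕ}

theorem aeval_rs (ψ : Fin (n + 1) → Fin 3 → k) (p : MvPolynomial (Fin (n + 1)) k)
    (ζ : Fin 3 → K) : eval (fun l => ∑ s, algebraMap k K (ψ l s) * ζ s)
      (map (algebraMap k K) p) = aeval ζ (rs ψ p) := by
  have h1 := DFunLike.congr_fun (comp_aeval (fun l => ∑ s, C (ψ l s) * X s)
    (aeval (R := k) ζ)) p
  rw [AlgHom.comp_apply] at h1
  unfold rs
  rw [h1, eval_map, ← aeval_def]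
  have h2 : (fun l => ∑ s, algebraMap k K (ψ l s) * ζ s) =
      fun l => aeval ζ (∑ s, C (ψ l s) * X s : MvPolynomial (Fin 3) k) := by
    funext l
    rw [map_sum]
    refine Finset.sum_congr rfl fun s _ => ?_
    rw [map_mul, aeval_C, aeval_X]
  rw [h2]

theorem inj_of_delta {i : Fin 3 → Fin (n + 1)} {ψ : Fin (n + 1) → Fin 3 → k}
    (hψ : ∀ s t, ψ (i s) t = if s = t then 1 else 0) : Function.Injective i := by
  intro s t h
  by_contra hne
  have h1 := hψ s s
  have h2 := hψ t s
  rw [h, h2, if_pos rfl, if_neg (Ne.symm hne)] at h1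
  exact zero_ne_one h1

/-- The line in a plane. -/
theorem line_of {F : A → MvPolynomial (Fin (n + 1)) k} {x : Fin (n + 1) → K}
    {i : Fin 3 → Fin (n + 1)} {ψ : Fin (n + 1) → Fin 3 → k}
    (hψ : ∀ s t, ψ (i s) t = if s = t then 1 else 0)
    (hxψ : ∀ l, x l = ∑ s, algebraMap k K (ψ l s) * x (i s)) {η : Fin 3 → K} {s0 t0 : Fin 3}
    (hne : x (i s0) * η t0 - x (i t0) * η s0 ≠ 0)
    (h : ∀ a, ∀ s t : K, aeval (s • (fun r => x (i r)) + t • η) (rs ψ (F a)) = 0) :
    ∃ (y : Fin (n + 1) → K) (ik : Fin (n + 1) × Fin (n + 1)), pl x y ik ≠ 0 ∧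
      ∀ a, ∀ s t : K, eval (s • x + t • y) (map (algebraMap k K) (F a)) = 0 := by
  obtain ⟨y, hy⟩ : ∃ y : Fin (n + 1) → K, y = fun l => ∑ s, algebraMap k K (ψ l s) * η s :=
    ⟨_, rfl⟩
  have hyi : ∀ s, y (i s) = η s := by
    intro s
    rw [hy]
    dsimp only
    rw [Finset.sum_eq_single s]
    · rw [hψ, if_pos rfl, map_one, one_mul]
    · intro t _ ht
      rw [hψ, if_neg (Ne.symm ht), map_zero, zero_mul]
    · intro h1
      exact absurd (Finset.mem_univ s) h1
  refine ⟨y, (i s0, i t0), ?_, fun a s t => ?_⟩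
  · unfold pl
    dsimp only
    rw [hyi, hyi]
    exact hne
  · rw [← h a s t, ← aeval_rs]
    congr 1
    have h1 : s • x + t • y = fun l => ∑ r, algebraMap k K (ψ l r) *
        (s • (fun r => x (i r)) + t • η) r := by
      funext l
      simp only [Pi.add_apply, Pi.smul_apply, smul_eq_mul]
      rw [hxψ l, hy]
      dsimp only
      rw [Finset.mul_sum, Finset.mul_sum, ← Finset.sum_add_distrib]
      refine Finset.sum_congr rfl fun r _ => ?_
      ring
    rw [h1]

/-- The factor that vanishes at the point. -/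
theorem exists_irr [IsAlgClosed k] {ξ : Fin 3 → K} {G : MvPolynomial (Fin 3) k} (hG : G ≠ 0)
    (h : ev ξ G = 0) : ∃ Y : MvPolynomial (Fin 3) k, Irreducible Y ∧ ev ξ Y = 0 ∧ Y ∣ G := by
  obtain ⟨f, hf, hfG⟩ := UniqueFactorizationMonoid.exists_prime_factors G hG
  have h1 : ev ξ f.prod = 0 := by
    obtain ⟨u, hu⟩ := hfG
    have h2 := congrArg (ev ξ) hu
    rw [map_mul, h] at h2
    refine (mul_eq_zero.1 h2).resolve_right ?_
    exact ((u.isUnit).map (ev ξ)).ne_zero
  rw [map_multiset_prod, Multiset.prod_eq_zero_iff, Multiset.mem_map] at h1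
  obtain ⟨Y, hY, hY0⟩ := h1
  exact ⟨Y, (hf Y hY).irreducible, hY0, (Multiset.dvd_prod hY).trans hfG.dvd⟩

/-- The case of two independent coordinates. -/
theorem alg_ind [IsAlgClosed k] {F : A → MvPolynomial (Fin (n + 1)) k} {dg : A → ℕ}
    (hF : ∀ a, (F a).IsHomogeneous (dg a)) (hno : NoPC F) {x : Fin (n + 1) → K}
    (hxF : ∀ a, eval x (map (algebraMap k K) (F a)) = 0)
    {i : Fin 3 → Fin (n + 1)} {ψ : Fin (n + 1) → Fin 3 → k}
    (hψ : ∀ s t, ψ (i s) t = if s = t then 1 else 0)
    (hxψ : ∀ l, x l = ∑ s, algebraMap k K (ψ l s) * x (i s))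
    (hli : ∀ a b : k, algebraMap k K a * x (i 1) + algebraMap k K b * x (i 2) = 0 →
      a = 0 ∧ b = 0) :
    ∃ (y : Fin (n + 1) → K) (ik : Fin (n + 1) × Fin (n + 1)), pl x y ik ≠ 0 ∧
      ∀ a, ∀ s t : K, eval (s • x + t • y) (map (algebraMap k K) (F a)) = 0 := by
  classical
  obtain ⟨ξ, hξ⟩ : ∃ ξ : Fin 3 → K, ξ = fun s => x (i s) := ⟨_, rfl⟩
  have hξs : ∀ s, x (i s) = ξ s := fun s => by rw [hξ]
  have hev : ∀ a, ev ξ (rs ψ (F a)) = 0 := by
    intro a
    rw [ev_hom ξ (rs_hom ψ (hF a)), ← aeval_rs]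
    have h1 : (fun l => ∑ s, algebraMap k K (ψ l s) * ξ s) = x := by
      funext l
      rw [hxψ l]
      exact Finset.sum_congr rfl fun s _ => by rw [hξs]
    rw [h1, hxF, map_zero, zero_mul]
  have h1ne : ξ 1 ≠ 0 := by
    intro h1
    have := (hli 1 0 (by rw [hξs, hξs, h1, map_zero, map_one]; ring)).1
    exact one_ne_zero this
  have h2ne : ξ 2 ≠ 0 := by
    intro h1
    have := (hli 0 1 (by rw [hξs, hξs, h1, map_zero, map_one]; ring)).2
    exact one_ne_zero this
  by_cases hall : ∀ a, rs ψ (F a) = 0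
  · refine line_of hψ hxψ (η := Pi.single 1 1) (s0 := 2) (t0 := 1) ?_ fun a s t => ?_
    · rw [Pi.single_eq_same, Pi.single_eq_of_ne (by decide), hξs, mul_one, mul_zero, sub_zero]
      exact h2ne
    · rw [hall, map_zero]
  · push Not at hall
    obtain ⟨a0, ha0⟩ := hall
    obtain ⟨Y, hYi, hY0, hYd⟩ := exists_irr ha0 (hev a0)
    have hdvd : ∀ a, Y ∣ rs ψ (F a) := fun a =>
      dvd_of_ev (by rw [← hξs, ← hξs]; exact hli) hYi hY0 (hev a)
    obtain ⟨R, hR⟩ := hYd
    obtain ⟨e, he⟩ := hom_factor (A := Y) (B := R) (d := dg a0) (by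
      rw [← hR]; exact rs_hom ψ (hF a0)) (by rw [← hR]; exact ha0)
    by_cases he2 : 2 ≤ e
    · exact absurd (hno i ψ hψ e Y he he2 hYi.ne_zero hdvd a0) ha0
    · have he0 : e ≠ 0 := by
        rintro rfl
        rw [← totalDegree_zero_iff_isHomogeneous, totalDegree_eq_zero_iff_eq_C] at he
        have h3 : Y.coeff 0 ≠ 0 := by
          intro h4
          rw [h4, map_zero] at he
          exact hYi.ne_zero he
        apply hYi.not_isUnit
        rw [he]
        exact (Ne.isUnit h3).map C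
      have he1 : e = 1 := by omega
      subst he1
      -- a line
      obtain ⟨ν, hν⟩ : ∃ ν : Fin 3 → k, Y = ∑ s, C (ν s) * X s := by
        have h3 : Y ∈ Submodule.span k (Set.range (X : Fin 3 → MvPolynomial (Fin 3) k)) := by
          rw [← homogeneousSubmodule_one_eq_span_X]
          exact (mem_homogeneousSubmodule _ _).2 he
        rw [Submodule.mem_span_range_iff_exists_fun] at h3
        obtain ⟨ν, hν⟩ := h3
        refine ⟨ν, ?_⟩
        rw [← hν]
        exact Finset.sum_congr rfl fun s _ => smul_eq_C_mul _ _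
      have hYv : ∀ ζ : Fin 3 → K, aeval ζ Y = ∑ s, algebraMap k K (ν s) * ζ s := by
        intro ζ
        rw [hν, map_sum]
        exact Finset.sum_congr rfl fun s _ => by rw [map_mul, aeval_C, aeval_X]
      have hYξ : ∑ s, algebraMap k K (ν s) * ξ s = 0 := by
        rw [← hYv]
        have h3 := hY0
        rw [ev_hom ξ he, mul_eq_zero] at h3
        exact Polynomial.C_eq_zero.1 (h3.resolve_right (pow_ne_zero _ Polynomial.X_ne_zero))
      have hν0 : ν 0 ≠ 0 := by
        intro h3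
        rw [Fin.sum_univ_three, h3, map_zero, zero_mul, zero_add] at hYξ
        have h4 := hli (ν 1) (ν 2) (by rw [hξs, hξs]; exact hYξ)
        apply hYi.ne_zero
        rw [hν, Fin.sum_univ_three, h3, h4.1, h4.2]
        simp
      have hν0' : algebraMap k K (ν 0) ≠ 0 := by
        rw [Ne, map_eq_zero]
        exact hν0
      obtain ⟨η, hη⟩ : ∃ η : Fin 3 → K, η = ![-(algebraMap k K (ν 1)), algebraMap k K (ν 0), 0] :=
        ⟨_, rfl⟩
      refine line_of hψ hxψ (η := η) (s0 := 2) (t0 := 1) ?_ fun a s t => ?_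
      · rw [hξs, hξs, hη]
        simp only [Matrix.cons_val]
        rw [mul_zero, sub_zero]
        exact mul_ne_zero h2ne hν0'
      · obtain ⟨R', hR'⟩ := hdvd a
        rw [hR', map_mul, hYv]
        have h3 : ∑ r, algebraMap k K (ν r) * (s • (fun r => x (i r)) + t • η) r = 0 := by
          have h4 : ∑ r, algebraMap k K (ν r) * (s • (fun r => x (i r)) + t • η) r =
              s * (∑ r, algebraMap k K (ν r) * ξ r) + t * ∑ r, algebraMap k K (ν r) * η r := by
            rw [Finset.mul_sum, Finset.mul_sum, ← Finset.sum_add_distrib]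
            refine Finset.sum_congr rfl fun r _ => ?_
            simp only [Pi.add_apply, Pi.smul_apply, smul_eq_mul]
            rw [hξs]
            ring
          rw [h4, hYξ, hη, Fin.sum_univ_three]
          simp only [Matrix.cons_val]
          ring
        rw [h3, zero_mul]

/-- Points in planes over the smaller field. -/
theorem alg_main [IsAlgClosed k] {F : A → MvPolynomial (Fin (n + 1)) k} {dg : A → ℕ}
    (hF : ∀ a, (F a).IsHomogeneous (dg a)) (hno : NoPC F) {x : Fin (n + 1) → K}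
    {l0 : Fin (n + 1)} (hx : x l0 = 1)
    (hxF : ∀ a, eval x (map (algebraMap k K) (F a)) = 0)
    {i : Fin 3 → Fin (n + 1)} {ψ : Fin (n + 1) → Fin 3 → k}
    (hψ : ∀ s t, ψ (i s) t = if s = t then 1 else 0)
    (hxψ : ∀ l, x l = ∑ s, algebraMap k K (ψ l s) * x (i s)) :
    (∃ (y : Fin (n + 1) → K) (ik : Fin (n + 1) × Fin (n + 1)), pl x y ik ≠ 0 ∧
      ∀ a, ∀ s t : K, eval (s • x + t • y) (map (algebraMap k K) (F a)) = 0) ∨
    ∀ l, ∃ c : k, algebraMap k K c = x l := by
  classical
  by_cases hli : ∃ s t : Fin 3, s ≠ t ∧ ∀ a b : k,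
      algebraMap k K a * x (i s) + algebraMap k K b * x (i t) = 0 → a = 0 ∧ b = 0
  · obtain ⟨s, t, hst, hab⟩ := hli
    left
    obtain ⟨π, hπ1, hπ2⟩ : ∃ π : Equiv.Perm (Fin 3), π 1 = s ∧ π 2 = t := by
      have : ∀ s t : Fin 3, s ≠ t → ∃ π : Equiv.Perm (Fin 3), π 1 = s ∧ π 2 = t := by decide
      exact this s t hst
    refine alg_ind hF hno hxF (i := fun r => i (π r)) (ψ := fun l r => ψ l (π r)) (fun r r' => ?_)
      (fun l => ?_) (by
        rw [hπ1, hπ2]
        exact hab)
    · rw [hψ]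
      simp only [EmbeddingLike.apply_eq_iff_eq]
    · rw [hxψ l]
      exact (Equiv.sum_comp π fun r => algebraMap k K (ψ l r) * x (i r)).symm
  · right
    push Not at hli
    obtain ⟨s0, hs0⟩ : ∃ s0, x (i s0) ≠ 0 := by
      by_contra hcon
      push Not at hcon
      have h1 := hxψ l0
      rw [hx, Finset.sum_eq_zero fun s _ => by rw [hcon, mul_zero]] at h1
      exact one_ne_zero h1
    have hc : ∀ t, ∃ c : k, x (i t) = algebraMap k K c * x (i s0) := by
      intro t
      by_cases ht : s0 = t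
      · exact ⟨1, by rw [ht, map_one, one_mul]⟩
      · obtain ⟨a, b, hab, hne⟩ := hli s0 t ht
        have hb : b ≠ 0 := by
          rintro rfl
          rw [map_zero, zero_mul, add_zero, mul_eq_zero] at hab
          have h1 := hab.resolve_right hs0
          rw [map_eq_zero] at h1
          exact hne h1 rfl
        refine ⟨-a / b, ?_⟩
        have hb' : algebraMap k K b ≠ 0 := by
          rw [Ne, map_eq_zero]
          exact hb
        rw [map_div₀, map_neg]
        field_simp
        linear_combination hab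
    choose c hc using hc
    have h1 : ∀ l, x l = algebraMap k K (∑ s, ψ l s * c s) * x (i s0) := by
      intro l
      rw [hxψ l, map_sum, Finset.sum_mul]
      refine Finset.sum_congr rfl fun s _ => ?_
      rw [hc s, map_mul]
      ring
    have h2 : x (i s0) = algebraMap k K (∑ s, ψ l0 s * c s)⁻¹ := by
      have h3 := h1 l0
      rw [hx] at h3
      rw [map_inv₀]
      exact (inv_eq_of_mul_eq_one_right h3.symm).symm
    intro l
    refine ⟨(∑ s, ψ l s * c s) * (∑ s, ψ l0 s * c s)⁻¹, ?_⟩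
    rw [map_mul, ← h2]
    exact (h1 l).symm

end Pool.Agent.H435.SC
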