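import Pool.Agent.H435.SC.CombP
import Pool.Agent.H435.SC.AlgB
import Pool.Graph.R_seed8.Y735.R2.Bh
import Pool.Graph.R_seed8.Y741.KFin

/-!
The heights of the points in planes of bounded height.
-/

set_option autoImplicit false

open MvPolynomial FF Pool.Agent.W603.LV Pool.Agent.W603.PV Pool.Agent.W602.RG Pool.Agent.TH145.GH

namespace Pool.Agent.H435.SC

open Pool.Agent.Y741
open Pool.Agent.Y735 (pl)
open Pool.Agent.TH145.MF (mkHom mkHom_apply)
open Pool.Agent.Y735.R2 (BH mem_BH cst_mem_BH alg_BH root_hgt exists_KK)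

theorem ev_const {ι : Type} [Finite ι] (f : ℕ → ι) :
    ∃ c, ∀ᶠ m in (Filter.hyperfilter ℕ : Filter ℕ), f m = c := by
  by_contra hcon
  rw [not_exists] at hcon
  have h1 : ∀ c, ∀ᶠ m in (Filter.hyperfilter ℕ : Filter ℕ), ¬ f m = c := fun c =>
    Ultrafilter.eventually_not.2 (hcon c)
  obtain ⟨m, hm⟩ := (Filter.eventually_all.2 h1).exists
  exact hm (f m) rfl

/-- The heights of the points in planes of bounded height. -/
theorem boundedP {κ L Ω : Type} [Field κ] [Field L] [Field Ω] [IsAlgClosed κ] [CharZero κ]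
    [Algebra κ L] [IsFF κ L] [Algebra L Ω] [IsAlgClosed Ω] [CharZero Ω] {n : ℕ} {A : Type}
    [Fintype A] [DecidableEq A] {dg : A → ℕ} (E : Subfield Ω)
    {F : A → MvPolynomial (Fin (n + 1)) E} (hF : ∀ a, (F a).IsHomogeneous (dg a))
    (hno : ∀ (M : Type) [Field M] [CharZero M] (φ : E →+* M), NoPC fun a => map φ (F a))
    (φ : E →+* L) (hφ : ∀ a : E, algebraMap L Ω (φ a) = a) (H : ℤ) (l0 : Fin (n + 1)) :
    ∃ B : ℤ, ∀ x : Fin (n + 1) → L, x l0 = 1 → (∀ a, eval x (map φ (F a)) = 0) →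
      Rest κ H x → ¬ Exc 1 (fun a => map E.subtype (F a)) Finset.univ
        (fun j => algebraMap L Ω (x j)) → ∀ l, hgt κ (x l) ≤ B := by
  classical
  by_contra hcon
  push Not at hcon
  choose x hx hxF hR hX l hl using fun m : ℕ => hcon (m : ℤ)
  choose i ψ hψ hxψ hψH using hR
  obtain ⟨i0, hi0⟩ := ev_const i
  have hczOm : CharZero (Om Ω) := charZero_of_injective_algebraMap
    (algebraMap Ω (Om Ω)).injective
  have hacOm : IsAlgClosed (Om Ω) := Pool.Agent.W917.RG.GAC.main Ω
  obtain ⟨𝕂, hac, hBK, hKB⟩ := exists_KK κ L Ω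
  have hcz : CharZero 𝕂 := by
    constructor
    intro a b hab
    have h1 := congrArg (fun z : 𝕂 => (z : Om Ω)) hab
    simpa using h1
  obtain ⟨Ψ, hΨ⟩ : ∃ Ψ : Fin (n + 1) → Fin 3 → 𝕂, ∀ l s, (Ψ l s : Om Ω) =
      Om.mk fun m => algebraMap L Ω (ψ m l s) :=
    ⟨fun l s => ⟨_, hBK (mem_BH fun m => hψH m l s)⟩, fun _ _ => rfl⟩
  obtain ⟨z, hz⟩ : ∃ z : Fin (n + 1) → Om Ω, z = fun l => Om.mk fun m => algebraMap L Ω (x m l) :=
    ⟨_, rfl⟩
  have hcstE : ∀ a : E, cst Ω (a : Ω) ∈ 𝕂 := by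
    intro a
    have h1 := cst_mem_BH (κ := κ) (F := L) (Ω := Ω) (φ a)
    rw [hφ] at h1
    exact hBK h1
  let φ0 : E →+* 𝕂 :=
    { toFun := fun a => ⟨cst Ω a, hcstE a⟩
      map_one' := Subtype.ext (map_one (cst Ω))
      map_mul' := fun a b => Subtype.ext (map_mul (cst Ω) (a : Ω) b)
      map_zero' := Subtype.ext (map_zero (cst Ω))
      map_add' := fun a b => Subtype.ext (map_add (cst Ω) (a : Ω) b) }
  have hFF : ∀ a, map (algebraMap 𝕂 (Om Ω)) (map φ0 (F a)) = FOm F a := by
    intro a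
    rw [map_map]
    rfl
  have hzF : ∀ a, eval z (map (algebraMap 𝕂 (Om Ω)) (map φ0 (F a))) = 0 := by
    intro a
    rw [hFF, hz]
    have h1 := eval_mk (F a) (fun m l => algebraMap L Ω (x m l))
    have h2 : ∀ m, eval (fun l => algebraMap L Ω (x m l)) (map E.subtype (F a)) = 0 := by
      intro m
      have h3 := congrArg (algebraMap L Ω) (hxF m a)
      rw [map_zero, eval_map] at h3
      rw [← h3, eval_map, hom_eval₂]
      congr 1
      ext a
      exact (hφ a).symm
    have h3 : (fun m => eval (fun l => algebraMap L Ω (x m l)) (map E.subtype (F a))) =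
        fun _ => 0 := funext h2
    rw [h3] at h1
    exact h1
  have hzl0 : z l0 = 1 := by
    rw [hz]
    simp only [hx, map_one]
    rfl
  have hΨδ : ∀ s t, Ψ (i0 s) t = if s = t then 1 else 0 := by
    intro s t
    apply Subtype.ext
    rw [hΨ]
    have h1 : Om.mk (fun m => algebraMap L Ω (ψ m (i0 s) t)) =
        Om.mk fun _ => (if s = t then 1 else 0 : Ω) := by
      rw [Om.mk_eq]
      filter_upwards [hi0] with m hm
      rw [← hm, hψ]
      split_ifs
      · exact map_one _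
      · exact map_zero _
    rw [h1]
    split_ifs
    · rfl
    · rfl
  have hzΨ : ∀ l, z l = ∑ s, algebraMap 𝕂 (Om Ω) (Ψ l s) * z (i0 s) := by
    intro l
    have h1 : ∀ s, algebraMap 𝕂 (Om Ω) (Ψ l s) * z (i0 s) =
        mkHom Ω fun m => algebraMap L Ω (ψ m l s * x m (i0 s)) := by
      intro s
      have h2 : algebraMap 𝕂 (Om Ω) (Ψ l s) = (Ψ l s : Om Ω) := rfl
      rw [h2, hΨ, hz, Om.mk_mul, mkHom_apply]
      congr 1
      funext m
      rw [map_mul]
    rw [Finset.sum_congr rfl fun s _ => h1 s, ← map_sum, mkHom_apply, hz]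
    dsimp only
    rw [Om.mk_eq]
    filter_upwards [hi0] with m hm
    rw [Finset.sum_apply, hxψ m l, map_sum, hm]
  rcases alg_main (fun a => (hF a).map φ0) (hno 𝕂 φ0) hzl0 hzF hΨδ hzΨ with
    ⟨y, ik, hik, h1⟩ | h1
  · obtain ⟨m, hm⟩ := exc_mk (r := 1) (C := Finset.univ) le_rfl hF
      (fun m l => algebraMap L Ω (x m l)) (fun m c _ => by
        have h3 := congrArg (algebraMap L Ω) (hxF m c)
        rw [map_zero, eval_map] at h3
        rw [← h3, eval_map, hom_eval₂]
        congr 1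
        ext a
        exact (hφ a).symm) (y := y) (ik := ik) (by rw [← hz]; exact hik)
      (fun c _ s t => by rw [← hz, ← hFF]; exact h1 c s t)
      ⟨0, fun b hb => absurd (Finset.mem_univ b) hb⟩
    exact hX m hm
  · -- the heights are bounded
    have h2 : ∀ l, ∃ C : ℤ, ∀ᶠ m in (Filter.hyperfilter ℕ : Filter ℕ), hgt κ (x m l) ≤ C := by
      intro l
      obtain ⟨c, hc⟩ := h1 l
      have h3 := hKB (c : Om Ω) c.2
      have h4 : (c : Om Ω) = Om.mk fun m => algebraMap L Ω (x m l) := by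
        rw [hz] at hc
        exact hc
      rw [h4] at h3
      obtain ⟨N, w, C, hw, hev⟩ := alg_BH h3
      refine ⟨∑ i ∈ Finset.range N, C, ?_⟩
      filter_upwards [hev] with m hm
      have h5 : x m l ^ N + ∑ i ∈ Finset.range N, w i m * x m l ^ i = 0 := by
        apply (algebraMap L Ω).injective
        rw [map_zero, ← hm, map_add, map_pow, map_sum]
        congr 1
        exact Finset.sum_congr rfl fun i _ => by rw [map_mul, map_pow]
      exact (root_hgt h5).trans (Finset.sum_le_sum fun i hi => hw i hi m)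
    choose C hC using h2
    obtain ⟨C0, hC0⟩ : ∃ C0 : ℕ, ∀ l, C l ≤ C0 := by
      refine ⟨∑ l, (C l).toNat, fun l => ?_⟩
      have h3 := Finset.single_le_sum (f := fun l => (C l).toNat) (fun _ _ => Nat.zero_le _)
        (Finset.mem_univ l)
      have h4 := Int.self_le_toNat (C l)
      have h5 : (((C l).toNat : ℕ) : ℤ) ≤ ((∑ l, (C l).toNat : ℕ) : ℤ) := by exact_mod_cast h3
      exact h4.trans h5
    have h3 : ∀ᶠ m in (Filter.hyperfilter ℕ : Filter ℕ), C0 ≤ m := by
      have h4 : ∀ᶠ m in (Filter.cofinite : Filter ℕ), C0 ≤ m := by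
        rw [Nat.cofinite_eq_atTop]
        exact Filter.eventually_ge_atTop C0
      exact Filter.hyperfilter_le_cofinite h4
    obtain ⟨m, h4, h5⟩ := ((Filter.eventually_all.2 hC).and h3).exists
    have h6 := hl m
    have h7 := h4 (l m)
    have h8 := hC0 (l m)
    have h9 : (C0 : ℤ) ≤ m := by exact_mod_cast h5
    linarith

end Pool.Agent.H435.SC
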