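import Pool.Agent.H435.SC.Gen
import Pool.Graph.R_seed8.Y735.S.Concl

/-!
Points on plane curves: two forms in three variables.
-/

set_option autoImplicit false

open MvPolynomial

namespace Pool.Agent.H435.SC

section graded

variable {k S σ : Type} [CommRing k] [CommRing S] [Algebra k S]

/-- The graded evaluation. -/
noncomputable def ev (ξ : σ → S) : MvPolynomial σ k →ₐ[k] Polynomial S :=
  aeval fun s => Polynomial.C (ξ s) * Polynomial.X

theorem ev_monomial (ξ : σ → S) (u : σ →₀ ℕ) (a : k) :
    ev ξ (monomial u a) = Polynomial.C (aeval ξ (monomial u a)) * Polynomial.X ^ u.degree := by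
  unfold ev
  rw [aeval_monomial, aeval_monomial, Finsupp.prod, Finsupp.prod, map_mul, map_prod]
  have h1 : ∏ s ∈ u.support, (Polynomial.C (ξ s) * Polynomial.X) ^ u s =
      (∏ s ∈ u.support, Polynomial.C (ξ s ^ u s)) * Polynomial.X ^ u.degree := by
    have h2 : u.degree = ∑ s ∈ u.support, u s := rfl
    rw [h2, ← Finset.prod_pow_eq_pow_sum, ← Finset.prod_mul_distrib]
    refine Finset.prod_congr rfl fun s _ => ?_
    rw [mul_pow, Polynomial.C_pow]
  rw [h1, Polynomial.algebraMap_apply]
  simp only [map_pow]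
  ring

theorem coeff_ev (ξ : σ → S) (p : MvPolynomial σ k) (d : ℕ) :
    (ev ξ p).coeff d = aeval ξ (homogeneousComponent d p) := by
  classical
  induction p using MvPolynomial.induction_on' with
  | monomial u a =>
    rw [ev_monomial, Polynomial.coeff_C_mul, Polynomial.coeff_X_pow]
    by_cases h : u.degree = d
    · rw [homogeneousComponent_of_mem ((mem_homogeneousSubmodule _ _).2
        (isHomogeneous_monomial a h)), if_pos rfl, if_pos h.symm, mul_one]
    · rw [homogeneousComponent_of_mem ((mem_homogeneousSubmodule _ _).2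
        (isHomogeneous_monomial a rfl)), if_neg (Ne.symm h), if_neg (Ne.symm h), mul_zero, map_zero]
  | add p q hp hq => rw [map_add, Polynomial.coeff_add, hp, hq, map_add, map_add]

theorem ev_hom (ξ : σ → S) {p : MvPolynomial σ k} {d : ℕ} (hp : p.IsHomogeneous d) :
    ev ξ p = Polynomial.C (aeval ξ p) * Polynomial.X ^ d := by
  ext j
  rw [coeff_ev, homogeneousComponent_of_mem ((mem_homogeneousSubmodule _ _).2 hp),
    Polynomial.coeff_C_mul, Polynomial.coeff_X_pow]
  split_ifs
  · rw [mul_one]
  · rw [map_zero, mul_zero]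

end graded

/-- A factor of a form is a form. -/
theorem hom_factor {k σ : Type} [Field k] {A B : MvPolynomial σ k} {d : ℕ}
    (h : (A * B).IsHomogeneous d) (h0 : A * B ≠ 0) : ∃ e, A.IsHomogeneous e := by
  classical
  have hc : ∀ (p : MvPolynomial σ k) j, (ev (X : σ → MvPolynomial σ k) p).coeff j =
      homogeneousComponent j p := by
    intro p j
    rw [coeff_ev, aeval_X_left_apply]
  have hne : ∀ p : MvPolynomial σ k, p ≠ 0 → ev (X : σ → MvPolynomial σ k) p ≠ 0 := by
    intro p hp h1
    apply hp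
    rw [← p.sum_homogeneousComponent]
    refine Finset.sum_eq_zero fun j _ => ?_
    rw [← hc, h1, Polynomial.coeff_zero]
  have hA := hne A (left_ne_zero_of_mul h0)
  have hB := hne B (right_ne_zero_of_mul h0)
  obtain ⟨a, ha⟩ : ∃ a, a = ev (X : σ → MvPolynomial σ k) A := ⟨_, rfl⟩
  obtain ⟨b, hb⟩ : ∃ b, b = ev (X : σ → MvPolynomial σ k) B := ⟨_, rfl⟩
  have hab : a * b = Polynomial.C (A * B) * Polynomial.X ^ d := by
    rw [ha, hb, ← map_mul, ev_hom _ h, aeval_X_left_apply]
  rw [← ha] at hA
  rw [← hb] at hB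
  have h1 : a.natDegree + b.natDegree = d := by
    rw [← Polynomial.natDegree_mul hA hB, hab, Polynomial.natDegree_C_mul_X_pow _ _ h0]
  have h2 : a.natTrailingDegree + b.natTrailingDegree = d := by
    rw [← Polynomial.natTrailingDegree_mul hA hB, hab, Polynomial.C_mul_X_pow_eq_monomial,
      Polynomial.natTrailingDegree_monomial h0]
  have h3 := a.natTrailingDegree_le_natDegree
  have h4 := b.natTrailingDegree_le_natDegree
  have h5 : ∀ j, j ≠ a.natDegree → homogeneousComponent j A = 0 := by
    intro j hj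
    rw [← hc, ← ha]
    rcases lt_or_gt_of_ne hj with h6 | h6
    · exact Polynomial.coeff_eq_zero_of_lt_natTrailingDegree (by omega)
    · exact Polynomial.coeff_eq_zero_of_natDegree_lt h6
  refine ⟨a.natDegree, ?_⟩
  have h6 : A = homogeneousComponent a.natDegree A := by
    conv_lhs => rw [← A.sum_homogeneousComponent]
    by_cases hm : a.natDegree ∈ Finset.range (A.totalDegree + 1)
    · exact Finset.sum_eq_single_of_mem _ hm fun j _ hj => h5 j hj
    · rw [homogeneousComponent_eq_zero _ _ (by rw [Finset.mem_range] at hm; omega)]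
      refine Finset.sum_eq_zero fun j hj => h5 j fun h7 => hm (h7 ▸ hj)
  rw [h6]
  exact homogeneousComponent_isHomogeneous _ _

section

variable {k K : Type} [Field k] [IsAlgClosed k] [Field K] [Algebra k K]

/-- Binary forms. -/
theorem binary_hom {ξ : Fin 2 → K}
    (h : ∀ a b : k, algebraMap k K a * ξ 0 + algebraMap k K b * ξ 1 = 0 → a = 0 ∧ b = 0)
    {g : MvPolynomial (Fin 2) k} {d : ℕ} (hg : g.IsHomogeneous d) (h0 : aeval ξ g = 0) :
    g = 0 := by
  classical
  have hξ1 : ξ 1 ≠ 0 := by
    intro h1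
    have := (h 0 1 (by rw [h1, map_zero, map_one]; ring)).2
    exact one_ne_zero this
  obtain ⟨q, hq⟩ : ∃ q : Polynomial k, q = aeval ![Polynomial.X, 1] g := ⟨_, rfl⟩
  obtain ⟨u, hu⟩ : ∃ u, u = ξ 0 / ξ 1 := ⟨_, rfl⟩
  have h1 : Polynomial.aeval u q = aeval ![u, 1] g := by
    rw [hq]
    have h2 := DFunLike.congr_fun (comp_aeval ![(Polynomial.X : Polynomial k), 1]
      (Polynomial.aeval u)) g
    rw [AlgHom.comp_apply] at h2
    rw [h2]
    congr 1
    congr 1
    funext i
    fin_cases i
    · simp
    · simp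
  have h2 : Polynomial.aeval u q = 0 := by
    rw [h1]
    have h3 : ξ = ξ 1 • ![u, 1] := by
      funext i
      fin_cases i
      · simp [hu, mul_div_cancel₀ _ hξ1]
      · simp
    have h4 : aeval (ξ 1 • ![u, 1]) g = ξ 1 ^ d * aeval ![u, 1] g := by
      rw [aeval_def, aeval_def, eval₂_eq', eval₂_eq', Finset.mul_sum]
      refine Finset.sum_congr rfl fun J hJ => ?_
      have h5 : J.degree = d := Pool.Agent.TH145.GH.deg_of_mem hg hJ
      have h6 : ∏ i, (ξ 1 • ![u, 1]) i ^ J i = ξ 1 ^ d * ∏ i, (![u, 1] i) ^ J i := by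
        rw [← h5, Finsupp.degree_eq_sum, ← Finset.prod_pow_eq_pow_sum, ← Finset.prod_mul_distrib]
        refine Finset.prod_congr rfl fun i _ => ?_
        rw [Pi.smul_apply, smul_eq_mul, mul_pow]
      rw [h6]
      ring
    rw [← h3, h0] at h4
    exact (mul_eq_zero.1 h4.symm).resolve_left (pow_ne_zero _ hξ1)
  have h3 : q = 0 := by
    by_contra hq0
    obtain ⟨c, hc⟩ := Pool.Agent.Y735.S.root_in hq0 h2
    have h4 := (h (-1) c (by
      rw [map_neg, map_one, hc, hu]
      field_simp
      ring)).1
    exact one_ne_zero (neg_eq_zero.1 h4)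
  refine MvPolynomial.ext _ _ fun J => ?_
  rw [coeff_zero]
  by_cases hJ : J ∈ g.support
  · have hJd := Pool.Agent.TH145.GH.deg_of_mem hg hJ
    have h4 : q.coeff (J 0) = g.coeff J := by
      rw [hq, aeval_def, eval₂_eq', Polynomial.finsetSum_coeff, Finset.sum_eq_single J]
      · rw [Fin.prod_univ_two]
        simp only [Matrix.cons_val_zero, Matrix.cons_val_one, one_pow, mul_one]
        rw [← Polynomial.C_eq_algebraMap, Polynomial.coeff_C_mul, Polynomial.coeff_X_pow,
          if_pos rfl, mul_one]
      · intro J' hJ' hne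
        rw [Fin.prod_univ_two]
        simp only [Matrix.cons_val_zero, Matrix.cons_val_one, one_pow, mul_one]
        rw [← Polynomial.C_eq_algebraMap, Polynomial.coeff_C_mul, Polynomial.coeff_X_pow,
          if_neg, mul_zero]
        intro h5
        apply hne
        have hJd' := Pool.Agent.TH145.GH.deg_of_mem hg hJ'
        rw [Finsupp.degree_eq_sum, Fin.sum_univ_two] at hJd hJd'
        ext i
        fin_cases i
        · exact h5.symm
        · change J' 1 = J 1
          omega
      · intro h5
        exact absurd hJ h5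
    rw [← h4, h3, Polynomial.coeff_zero]
  · exact notMem_support_iff.1 hJ

theorem binary {ξ : Fin 2 → K}
    (h : ∀ a b : k, algebraMap k K a * ξ 0 + algebraMap k K b * ξ 1 = 0 → a = 0 ∧ b = 0)
    {g : MvPolynomial (Fin 2) k} (h0 : ev ξ g = 0) : g = 0 := by
  rw [← g.sum_homogeneousComponent]
  refine Finset.sum_eq_zero fun j _ => ?_
  refine binary_hom h (homogeneousComponent_isHomogeneous j g) ?_
  rw [← coeff_ev, h0, Polynomial.coeff_zero]

/-- An irreducible form that vanishes at a point divides the forms that vanish at it. -/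
theorem dvd_of_ev {ξ : Fin 3 → K}
    (h : ∀ a b : k, algebraMap k K a * ξ 1 + algebraMap k K b * ξ 2 = 0 → a = 0 ∧ b = 0)
    {Y G : MvPolynomial (Fin 3) k} (hY : Irreducible Y) (hYe : ev ξ Y = 0) (hG : ev ξ G = 0) :
    Y ∣ G := by
  classical
  let R := MvPolynomial (Fin 2) k
  let Ω := FractionRing (Polynomial K)
  let F := FractionRing R
  obtain ⟨η, hη⟩ : ∃ η : Fin 2 → K, η = fun s => ξ s.succ := ⟨_, rfl⟩
  have hinj : Function.Injective (ev (k := k) η) := by
    rw [injective_iff_map_eq_zero]
    intro g hg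
    exact binary (by rw [hη]; exact h) hg
  let φ : R →+* Ω := (algebraMap (Polynomial K) Ω).comp (ev (k := k) η).toRingHom
  have hφ : Function.Injective φ :=
    (IsFractionRing.injective (Polynomial K) Ω).comp hinj
  let _ : Algebra R Ω := φ.toAlgebra
  have hal : ∀ r : R, algebraMap R Ω r = algebraMap (Polynomial K) Ω (ev η r) := fun _ => rfl
  have hfs : FaithfulSMul R Ω := (faithfulSMul_iff_algebraMap_injective R Ω).2 hφ
  let _ : Algebra F Ω := FractionRing.liftAlgebra R Ω
  have hst : IsScalarTower R F Ω := FractionRing.isScalarTower_liftAlgebra R Ω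
  obtain ⟨ω, hω⟩ : ∃ ω : Ω, ω = algebraMap (Polynomial K) Ω
    (Polynomial.C (ξ 0) * Polynomial.X) := ⟨_, rfl⟩
  -- the evaluation
  have hev : ∀ p : MvPolynomial (Fin 3) k, Polynomial.aeval ω (finSuccEquiv k 2 p) =
      algebraMap (Polynomial K) Ω (ev ξ p) := by
    intro p
    induction p using MvPolynomial.induction_on with
    | C a =>
      rw [finSuccEquiv_apply, eval₂Hom_C, RingHom.comp_apply, Polynomial.aeval_C, hal]
      unfold ev
      rw [← algebraMap_eq, AlgHom.commutes, ← algebraMap_eq, AlgHom.commutes]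
    | add p q hp hq => rw [map_add, map_add, map_add, map_add, hp, hq]
    | mul_X p s hp =>
      rw [map_mul, map_mul, map_mul, map_mul, hp]
      congr 1
      have h1 : ev (k := k) ξ (X s) = Polynomial.C (ξ s) * Polynomial.X := by
        unfold ev
        rw [aeval_X]
      rw [h1]
      refine Fin.cases ?_ (fun s => ?_) s
      · rw [finSuccEquiv_X_zero, Polynomial.aeval_X, hω]
      · rw [finSuccEquiv_X_succ, Polynomial.aeval_C, hal]
        unfold ev
        rw [aeval_X, hη]
  obtain ⟨y, hy⟩ : ∃ y, y = finSuccEquiv k 2 Y := ⟨_, rfl⟩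
  obtain ⟨g, hg⟩ : ∃ g, g = finSuccEquiv k 2 G := ⟨_, rfl⟩
  have hyi : Irreducible y := by
    rw [hy]
    exact (MulEquiv.irreducible_iff (finSuccEquiv k 2)).2 hY
  have hy0 : Polynomial.aeval ω y = 0 := by rw [hy, hev, hYe, map_zero]
  have hg0 : Polynomial.aeval ω g = 0 := by rw [hg, hev, hG, map_zero]
  have hdeg : y.natDegree ≠ 0 := by
    intro h1
    have h2 := Polynomial.eq_C_of_natDegree_eq_zero h1
    rw [h2, Polynomial.aeval_C] at hy0
    have h3 : y.coeff 0 = 0 := hφ (by rw [map_zero]; exact hy0)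
    rw [h3, map_zero] at h2
    exact hyi.ne_zero h2
  have hprim := hyi.isPrimitive hdeg
  have hyF : Irreducible (y.map (algebraMap R F)) :=
    (hprim.irreducible_iff_irreducible_map_fraction_map (K := F)).1 hyi
  have h1 : Polynomial.aeval ω (y.map (algebraMap R F)) = 0 := by
    rw [Polynomial.aeval_map_algebraMap, hy0]
  have h2 : Polynomial.aeval ω (g.map (algebraMap R F)) = 0 := by
    rw [Polynomial.aeval_map_algebraMap, hg0]
  have h3 := minpoly.eq_of_irreducible hyF h1
  have h4 : y.map (algebraMap R F) ∣ g.map (algebraMap R F) := by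
    have h5 := minpoly.dvd F ω h2
    rw [← h3] at h5
    exact (Dvd.intro _ rfl).trans h5
  have h5 : y ∣ g := hprim.dvd_of_fraction_map_dvd_fraction_map h4
  rw [hy, hg] at h5
  exact (map_dvd_iff (finSuccEquiv k 2)).1 h5

end

end Pool.Agent.H435.SC
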