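import Pool.Agent.H435.SC.AlgB

/-!
Generic complete intersections contain no plane curves.
-/

set_option autoImplicit false

open MvPolynomial

namespace Pool.Agent.H435.SC

open Pool.Agent.TH145.GC (Cf finite_cf)

/-- The coefficients are algebraically independent. -/
def GenA {L A : Type} [Field L] {n : ℕ} (dg : A → ℕ) (F : A → MvPolynomial (Fin (n + 1)) L) :
    Prop :=
  AlgebraicIndependent ℤ fun p : Cf n dg => (F p.1).coeff p.2.1

theorem GenA.map {L M A : Type} [Field L] [Field M] (φ : L →+* M) {n : ℕ} {dg : A → ℕ}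
    {F : A → MvPolynomial (Fin (n + 1)) L} (h : GenA dg F) :
    GenA dg fun a => MvPolynomial.map φ (F a) := by
  have h1 := AlgebraicIndependent.map' h (f := φ.toIntAlgHom) φ.injective
  have h2 : (φ.toIntAlgHom ∘ fun p : Cf n dg => (F p.1).coeff p.2.1) =
      fun p : Cf n dg => (MvPolynomial.map φ (F p.1)).coeff p.2.1 := by
    funext I
    rw [coeff_map]
    rfl
  rw [h2] at h1
  exact h1

theorem GenA.of_map {L M A : Type} [Field L] [Field M] (φ : L →+* M) {n : ℕ} {dg : A → ℕ}
    {F : A → MvPolynomial (Fin (n + 1)) L} (h : GenA dg fun a => MvPolynomial.map φ (F a)) :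
    GenA dg F := by
  refine AlgebraicIndependent.of_comp φ.toIntAlgHom ?_
  have h2 : (φ.toIntAlgHom ∘ fun p : Cf n dg => (F p.1).coeff p.2.1) =
      fun p : Cf n dg => (MvPolynomial.map φ (F p.1)).coeff p.2.1 := by
    funext I
    rw [coeff_map]
    rfl
  rw [h2]
  exact h

theorem GenA.of_base {k0 L A : Type} [Field k0] [Field L] [Algebra k0 L] [CharZero L] {n : ℕ}
    {dg : A → ℕ} {F : A → MvPolynomial (Fin (n + 1)) L}
    (h : AlgebraicIndependent k0 fun p : Cf n dg => (F p.1).coeff p.2.1) : GenA dg F := by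
  have hcz : CharZero k0 := by
    constructor
    intro a b hab
    have h1 := congrArg (algebraMap k0 L) hab
    rw [map_natCast, map_natCast] at h1
    exact_mod_cast h1
  exact AlgebraicIndependent.restrictScalars (K := k0)
    (by
      intro a b hab
      rw [eq_intCast, eq_intCast] at hab
      exact_mod_cast hab) h

theorem GenA.rat {L A : Type} [Field L] [CharZero L] {n : ℕ} {dg : A → ℕ}
    {F : A → MvPolynomial (Fin (n + 1)) L} (h : GenA dg F) :
    AlgebraicIndependent ℚ fun p : Cf n dg => (F p.1).coeff p.2.1 := by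
  have : Algebra.IsAlgebraic ℤ ℚ := IsLocalization.isAlgebraic ℚ (nonZeroDivisors ℤ)
  exact AlgebraicIndependent.extendScalars (R := ℤ) (A := L) ℚ h

/-- The numerical condition. -/
def PlaneNum (n : ℕ) {A : Type} [Fintype A] (d : A → ℕ) : Prop :=
  ∀ e, 3 ≤ e → (∃ a, e ≤ d a) → e * e + 3 * e ≤ 14 + ∑ a,
    (if e ≤ d a then (e - 2) * (2 * d a - e + 1) else d a * (d a - 1)) ∨
    (n = 4 ∧ ∃ a, d a = 2)

theorem two_choose (m : ℕ) : 2 * (m + 2).choose 2 = (m + 2) * (m + 1) := by
  have h := Nat.triangle_succ (m + 1)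
  rw [Nat.choose_two_right]
  have h1 : (m + 2) * (m + 2 - 1) = (m + 2) * (m + 1) := by congr 1
  rw [h1]
  exact Nat.mul_div_cancel' (by
    rw [mul_comm]
    exact (Nat.even_mul_succ_self (m + 1)).two_dvd)

/-- The arithmetic. -/
theorem arith_form {d e : ℕ} (hd : 1 ≤ d) (he : 2 ≤ e) {z : ℕ}
    (hz : z = 0 ∨ (e ≤ d ∧ z = (d - e + 2).choose 2)) :
    2 * z + 2 * (2 * d + 1) + (if e ≤ d then (e - 2) * (2 * d - e + 1) else d * (d - 1)) ≤
      2 * (d + 2).choose 2 := by
  rw [two_choose]
  split_ifs with h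
  · obtain ⟨r, rfl⟩ : ∃ r, d = e + r := ⟨d - e, by omega⟩
    obtain ⟨s, rfl⟩ : ∃ s, e = s + 2 := ⟨e - 2, by omega⟩
    have h1 : s + 2 - 2 = s := by omega
    have h2 : 2 * (s + 2 + r) - (s + 2) + 1 = s + 2 * r + 3 := by omega
    rw [h1, h2]
    rcases hz with hz | ⟨-, hz⟩
    · rw [hz]
      nlinarith
    · have h3 : s + 2 + r - (s + 2) + 2 = r + 2 := by omega
      rw [h3] at hz
      rw [hz, two_choose]
      nlinarith
  · rcases hz with hz | ⟨hz, -⟩
    · rw [hz]
      obtain ⟨r, rfl⟩ : ∃ r, d = r + 1 := ⟨d - 1, by omega⟩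
      have h1 : r + 1 - 1 = r := by omega
      rw [h1]
      nlinarith
    · exact absurd hz h

section quadric

variable {L A : Type} [Field L] {n : ℕ} {dg : A → ℕ}
  {F : A → MvPolynomial (Fin (n + 1)) L}

/-- The matrix of the second derivatives. -/
noncomputable def Hs (Q : MvPolynomial (Fin (n + 1)) L) :
    Matrix (Fin (n + 1)) (Fin (n + 1)) L :=
  fun i j => Q.coeff (Finsupp.single i 1 + Finsupp.single j 1) * if i = j then 2 else 1

theorem Hs_symm (Q : MvPolynomial (Fin (n + 1)) L) (i j : Fin (n + 1)) : Hs Q i j = Hs Q j i := by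
  unfold Hs
  rw [add_comm (Finsupp.single i 1)]
  by_cases h : i = j
  · rw [if_pos h, if_pos h.symm]
  · rw [if_neg h, if_neg (Ne.symm h)]

theorem eval_pderiv_two {Q : MvPolynomial (Fin (n + 1)) L} (hQ : Q.IsHomogeneous 2)
    (p : Fin (n + 1) → L) (i : Fin (n + 1)) :
    eval p (pderiv i Q) = ∑ j, Hs Q i j * p j := by
  classical
  have h1 : (pderiv i Q) ∈ Submodule.span L
      (Set.range (X : Fin (n + 1) → MvPolynomial (Fin (n + 1)) L)) := by
    rw [← homogeneousSubmodule_one_eq_span_X]
    exact (mem_homogeneousSubmodule _ _).2 (hQ.pderiv (i := i))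
  rw [Submodule.mem_span_range_iff_exists_fun] at h1
  obtain ⟨ν, hν⟩ := h1
  have h2 : ∀ j, ν j = Hs Q i j := by
    intro j
    have h3 := congrArg (coeff (Finsupp.single j 1)) hν
    rw [coeff_pderiv, coeff_sum, Finset.sum_eq_single j] at h3
    · rw [coeff_smul, coeff_X, if_pos rfl, smul_eq_mul, mul_one] at h3
      rw [h3]
      unfold Hs
      rw [add_comm (Finsupp.single j 1)]
      congr 1
      by_cases h : i = j
      · subst h
        rw [Finsupp.single_eq_same, if_pos rfl]
        norm_num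
      · rw [Finsupp.single_eq_of_ne h, if_neg h]
        norm_num
    · intro l _ hl
      rw [coeff_smul, coeff_X, if_neg, smul_zero]
      intro h
      exact hl (Finsupp.single_left_injective one_ne_zero h)
    · intro h
      exact absurd (Finset.mem_univ j) h
  rw [← hν, map_sum]
  refine Finset.sum_congr rfl fun j _ => ?_
  rw [smul_eval, eval_X, h2]

/-- Generic quadrics are smooth. -/
theorem det_Hs [CharZero L] (hgen : GenA dg F) {a : A} (ha : dg a = 2) : (Hs (F a)).det ≠ 0 := by
  classical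
  have hdeg : ∀ i j : Fin (n + 1),
      (Finsupp.single i 1 + Finsupp.single j 1 : Fin (n + 1) →₀ ℕ).degree = dg a := by
    intro i j
    rw [ha, map_add, Finsupp.degree_single, Finsupp.degree_single]
  obtain ⟨M, hM⟩ : ∃ M : Matrix (Fin (n + 1)) (Fin (n + 1)) (MvPolynomial (Cf n dg) ℤ),
      M = fun i j => X ⟨a, ⟨Finsupp.single i 1 + Finsupp.single j 1, hdeg i j⟩⟩ *
        if i = j then 2 else 1 := ⟨_, rfl⟩
  obtain ⟨f, hf⟩ : ∃ f : MvPolynomial (Cf n dg) ℤ →ₐ[ℤ] L,
    f = aeval fun p : Cf n dg => (F p.1).coeff p.2.1 := ⟨_, rfl⟩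
  have h1 : f.toRingHom.mapMatrix M = Hs (F a) := by
    ext i j
    rw [RingHom.mapMatrix_apply, Matrix.map_apply, hM]
    change f _ = _
    rw [map_mul, hf, aeval_X]
    unfold Hs
    split_ifs
    · rw [map_ofNat]
    · rw [map_one]
  have h2 : (Hs (F a)).det = f M.det := by
    rw [← h1]
    exact (f.toRingHom.map_det M).symm
  rw [h2]
  have h3 : Function.Injective f := by
    rw [hf]
    exact hgen
  intro h4
  have h5 : M.det = 0 := h3 (by rw [h4, map_zero])
  -- the specialisation
  obtain ⟨c, hc⟩ : ∃ c : Cf n dg → ℤ, c = fun q =>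
    if ∃ l : Fin (n + 1), q.2.1 = Finsupp.single l 2 then 1 else 0 := ⟨_, rfl⟩
  have h6 : (eval c).mapMatrix M = (2 : ℤ) • (1 : Matrix (Fin (n + 1)) (Fin (n + 1)) ℤ) := by
    ext i j
    rw [RingHom.mapMatrix_apply, Matrix.map_apply, hM, Matrix.smul_apply, Matrix.one_apply]
    rw [map_mul, eval_X, hc]
    dsimp only
    by_cases hij : i = j
    · subst hij
      rw [if_pos, if_pos rfl, if_pos rfl, one_mul, smul_eq_mul, mul_one, map_ofNat]
      exact ⟨i, by rw [← Finsupp.single_add]⟩
    · rw [if_neg, zero_mul, if_neg hij, smul_zero]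
      rintro ⟨l, hl⟩
      have h7 := DFunLike.congr_fun hl i
      have h8 := DFunLike.congr_fun hl j
      rw [Finsupp.add_apply, Finsupp.single_eq_same, Finsupp.single_eq_of_ne hij] at h7
      rw [Finsupp.add_apply, Finsupp.single_eq_same, Finsupp.single_eq_of_ne (Ne.symm hij)] at h8
      by_cases hl' : i = l
      · subst hl'
        rw [Finsupp.single_eq_same] at h7
        omega
      · rw [Finsupp.single_eq_of_ne hl'] at h7
        omega
  have h7 := (eval c).map_det M
  rw [h5, map_zero, h6, Matrix.det_smul, Matrix.det_one, mul_one] at h7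
  exact pow_ne_zero _ two_ne_zero h7.symm

/-- Generic quadrics of dimension three contain no planes. -/
theorem no_plane_quadric [CharZero L] (hF : ∀ a, (F a).IsHomogeneous (dg a))
    (hgen : GenA dg F) {a : A} (ha : dg a = 2) (hn : n = 4) {i : Fin 3 → Fin (n + 1)}
    {ψ : Fin (n + 1) → Fin 3 → L} (hψ : ∀ s t, ψ (i s) t = if s = t then 1 else 0) :
    rs ψ (F a) ≠ 0 := by
  classical
  intro h0
  have hdet := det_Hs hgen ha
  have hQ : (F a).IsHomogeneous 2 := by rw [← ha]; exact hF a
  have hi := inj_of_delta hψ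
  obtain ⟨v, hv⟩ : ∃ v : (Fin 3 → L) →ₗ[L] (Fin (n + 1) → L), ∀ c l, v c l = ∑ s, ψ l s * c s := by
    refine ⟨Matrix.mulVecLin ψ, fun c l => ?_⟩
    rfl
  have hvi : ∀ c s, v c (i s) = c s := by
    intro c s
    rw [hv, Finset.sum_eq_single s]
    · rw [hψ, if_pos rfl, one_mul]
    · intro t _ ht
      rw [hψ, if_neg (Ne.symm ht), zero_mul]
    · intro h
      exact absurd (Finset.mem_univ s) h
  obtain ⟨H, hH⟩ : ∃ H : (Fin (n + 1) → L) →ₗ[L] (Fin (n + 1) → L),
      ∀ p l, H p l = ∑ j, Hs (F a) l j * p j := ⟨Matrix.mulVecLin (Hs (F a)), fun _ _ => rfl⟩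
  have hHinj : ∀ p, H p = 0 → p = 0 := by
    intro p hp
    refine Matrix.eq_zero_of_mulVec_eq_zero hdet ?_
    funext l
    have := congrFun hp l
    rw [hH] at this
    exact this
  have hB0 : ∀ c, ∑ l, v c l * H (v c) l = 0 := by
    intro c
    have h1 : eval (v c) (F a) = 0 := by
      have h2 := eval_rs ψ (F a) c
      rw [h0, map_zero] at h2
      have h3 : (fun l => ∑ s, ψ l s * c s) = v c := by
        funext l
        rw [hv]
      rw [← h3]
      exact h2.symm
    have h2 := congrArg (eval (v c)) hQ.sum_X_mul_pderiv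
    rw [map_sum, map_nsmul, h1, smul_zero] at h2
    rw [← h2]
    refine Finset.sum_congr rfl fun l _ => ?_
    rw [map_mul, eval_X, eval_pderiv_two hQ, hH]
  have hsym : ∀ p q : Fin (n + 1) → L, ∑ l, p l * H q l = ∑ l, q l * H p l := by
    intro p q
    simp only [hH, Finset.mul_sum]
    rw [Finset.sum_comm]
    refine Finset.sum_congr rfl fun l _ => Finset.sum_congr rfl fun j _ => ?_
    rw [Hs_symm]
    ring
  have hB : ∀ c c', ∑ l, v c l * H (v c') l = 0 := by
    intro c c'
    have h1 := hB0 (c + c')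
    rw [map_add, map_add] at h1
    simp only [Pi.add_apply, add_mul, mul_add, Finset.sum_add_distrib] at h1
    rw [hB0, hB0, hsym (v c') (v c)] at h1
    have h2 : (2 : L) * ∑ l, v c l * H (v c') l = 0 := by linear_combination h1
    exact (mul_eq_zero.1 h2).resolve_left two_ne_zero
  -- a vector in the kernel
  obtain ⟨π, hπ⟩ : ∃ π : (Fin 3 → L) →ₗ[L] ({l : Fin (n + 1) // l ∉ Finset.univ.image i} → L),
      ∀ c l, π c l = H (v c) l.1 :=
    ⟨LinearMap.pi fun l => LinearMap.proj l.1 ∘ₗ H ∘ₗ v, fun _ _ => rfl⟩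
  have hker : ∃ c, c ≠ 0 ∧ π c = 0 := by
    have h1 : Module.finrank L ({l : Fin (n + 1) // l ∉ Finset.univ.image i} → L) <
        Module.finrank L (Fin 3 → L) := by
      rw [Module.finrank_fintype_fun_eq_card, Module.finrank_fintype_fun_eq_card,
        Fintype.card_fin, Fintype.card_subtype]
      have h2 : (Finset.univ.filter fun l => l ∉ Finset.univ.image i) =
          Finset.univ \ Finset.univ.image i := by
        ext l
        simp
      rw [h2, Finset.card_sdiff_of_subset (Finset.subset_univ _), Finset.card_univ,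
        Fintype.card_fin, Finset.card_image_of_injective _ hi, Finset.card_univ, Fintype.card_fin]
      omega
    have h2 := LinearMap.ker_ne_bot_of_finrank_lt (f := π) h1
    obtain ⟨c, hc, hc0⟩ := Submodule.exists_mem_ne_zero_of_ne_bot h2
    exact ⟨c, hc0, hc⟩
  obtain ⟨c, hc0, hc⟩ := hker
  have h1 : ∀ l, l ∉ Finset.univ.image i → H (v c) l = 0 := by
    intro l hl
    have := congrFun hc ⟨l, hl⟩
    rwa [hπ] at this
  have h2 : H (v c) = 0 := by
    funext l
    by_cases hl : l ∈ Finset.univ.image i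
    · obtain ⟨s, -, rfl⟩ := Finset.mem_image.1 hl
      have h3 := hB (Pi.single s 1) c
      rw [Finset.sum_eq_single (i s)] at h3
      · rw [hvi, Pi.single_eq_same, one_mul] at h3
        exact h3
      · intro l' _ hl'
        by_cases hl2 : l' ∈ Finset.univ.image i
        · obtain ⟨t, -, rfl⟩ := Finset.mem_image.1 hl2
          rw [hvi, Pi.single_eq_of_ne (fun h => hl' (by rw [h])), zero_mul]
        · rw [h1 l' hl2, mul_zero]
      · intro h
        exact absurd (Finset.mem_univ _) h
    · exact h1 l hl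
  have h3 := hHinj _ h2
  apply hc0
  funext s
  rw [← hvi c s, h3]
  rfl

end quadric

section main

variable {L A : Type} [Field L] [CharZero L] {n : ℕ} [Fintype A] [DecidableEq A] {dg : A → ℕ}
  {F : A → MvPolynomial (Fin (n + 1)) L}

/-- Generic complete intersections contain no plane curves of degree at least two. -/
theorem noPC (hn : 2 ≤ n) (hpos : ∀ a, 0 < dg a) (hS : 2 * ∑ a, dg a + Fintype.card A = 3 * n + 2)
    (hnum : PlaneNum n dg) (hF : ∀ a, (F a).IsHomogeneous (dg a)) (hgen : GenA dg F) :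
    NoPC F := by
  classical
  intro i ψ hψ e Y hY he hY0 hdvd a0
  by_contra ha0
  have hdeg : ∀ a, rs ψ (F a) ≠ 0 → e ≤ dg a := by
    intro a ha
    obtain ⟨R, hR⟩ := hdvd a
    exact (factor_hom hY (rs_hom ψ (hF a)) hR ha).1
  have h1 := plane_count (k := ℚ) hn hF hgen.rat (inj_of_delta hψ) hψ hY hY0 hdvd
  have h2 : ∀ a, 2 * (if rs ψ (F a) = 0 then 0 else (dg a - e + 2).choose 2) +
      2 * (2 * dg a + 1) +
        (if e ≤ dg a then (e - 2) * (2 * dg a - e + 1) else dg a * (dg a - 1)) ≤
      2 * (dg a + 2).choose 2 := by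
    intro a
    refine arith_form (hpos a) he ?_
    by_cases h : rs ψ (F a) = 0
    · left
      rw [if_pos h]
    · right
      rw [if_neg h]
      exact ⟨hdeg a h, rfl⟩
  have h3 := Finset.sum_le_sum (s := Finset.univ) fun a _ => h2 a
  rw [Finset.sum_add_distrib, Finset.sum_add_distrib, ← Finset.mul_sum, ← Finset.mul_sum,
    ← Finset.mul_sum, Finset.sum_add_distrib, ← Finset.mul_sum, Finset.sum_const,
    Finset.card_univ, smul_eq_mul, mul_one] at h3
  have h4 := two_choose e
  have h5 : (e + 2) * (e + 1) = e * e + 3 * e + 2 := by ring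
  rw [h5] at h4
  by_cases he3 : 3 ≤ e
  · rcases hnum e he3 ⟨a0, hdeg a0 ha0⟩ with h6 | ⟨h6, a, ha⟩
    · omega
    · have h7 := no_plane_quadric hF hgen ha h6 hψ
      have h8 := hdeg a h7
      omega
  · have he2 : e = 2 := by omega
    subst he2
    omega

end main

end Pool.Agent.H435.SC
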