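import Pool.Agent.H435.SC.Rat

/-!
The combination of the cases.
-/

set_option autoImplicit false

open MvPolynomial FF Pool.Agent.W603.LV Pool.Agent.W603.PV Pool.Agent.TH145.GH
open Pool.Agent.Y735 (pl pm fht fht_nonneg Good exists_pl exists_pairs pmx span_pmx mem_Mx vol
  vol_apply)

namespace Pool.Agent.H435.SC

open Pool.Agent.Y741

variable {k K : Type} [Field k] [Field K] [Algebra k K] {n : ℕ} {A : Type}
  [CharZero k] [IsFF k K] [IsAlgClosed k] [DecidableEq A] [Fintype A] {F : Fam K n A}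
  {dg : A → ℕ} {D : A → (Fin (n + 1) →₀ ℕ) → Derivation ℤ K K} {e g : Place k K → ℤ}

/-- The remaining case. -/
theorem case_rest [Infinite K] (hdat : DataL k F dg D e g) {x : Fin (n + 1) → K}
    (hxF : ∀ a, eval x (F a) = 0) {l0 : Fin (n + 1)} (hl0 : x l0 = 1)
    (hG : Good (Bset D x dg) (TC F Finset.univ x) (Wsp F D x)) {p : ℕ} (hp0 : 0 < p)
    (hw : Module.finrank K (Wsp F D x) = 1) (hp : Fintype.card A + 1 + 2 * p = n + 1)
    (hS : ∑ a, dg a = n + 1 + p) : Rest k (CL n A e g) x := by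
  classical
  have hx0 : x ≠ 0 := by
    intro h0
    rw [h0] at hl0
    exact zero_ne_one hl0
  have hl0' : x l0 ≠ 0 := by
    rw [hl0]
    exact one_ne_zero
  have hxC : ∀ c ∈ (Finset.univ : Finset A), eval x (F c) = 0 := fun c _ => hxF c
  have hxb : ∀ b, b ∉ (Finset.univ : Finset A) → eval x (F b) ≠ 0 := fun b hb =>
    absurd (Finset.mem_univ b) hb
  have hker := TC_finrank hdat.hom hdat.dual hxC hx0
  rw [Finset.card_univ] at hker
  have hWx : Wsp F D x = Submodule.span K {x} := by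
    symm
    refine Submodule.eq_of_le_of_finrank_eq le_sup_left ?_
    rw [hw, finrank_span_singleton hx0]
  obtain ⟨b, i, j, hb, hfin⟩ := exists_pairs (pmx x l0) (span_pmx hl0') (Bset D x dg)
    (TC F Finset.univ x) p (Wsp F D x) (im_top hdat.pos hdat.hom hdat.dual hxC hxb hx0) hG
    (by omega)
  choose Q hQ hbQ using fun a => mem_Bset.1 (hb a)
  have hcardI : Fintype.card (Ix A (Fin p)) = Fintype.card (Fin (n + 1)) := by
    simp only [Fintype.card_option, Fintype.card_sum, Fintype.card_fin]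
    omega
  obtain ⟨E⟩ : Nonempty (Ix A (Fin p) ≃ Fin (n + 1)) := Fintype.card_eq.1 hcardI
  obtain ⟨R, hR⟩ : ∃ R, R = rws dg D x l0 Q (fun _ => l0) i j := ⟨_, rfl⟩
  have htan : TC F Finset.univ x ≤ Submodule.span K (Set.range R) := by
    have h2 : Wsp F D x ⊔ Submodule.span K (Set.range (fun a => b a (pmx x l0 (i a))) ∪
        Set.range (fun a => b a (pmx x l0 (j a)))) = TC F Finset.univ x := by
      refine Submodule.eq_of_le_of_finrank_eq ?_ (by rw [hfin]; omega)
      refine sup_le (Wsp_le hdat.pos hdat.hom hdat.dual hxC) ?_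
      rw [Submodule.span_le]
      rintro _ (⟨a, rfl⟩ | ⟨a, rfl⟩)
      · dsimp only
        rw [hbQ a]
        exact vq_mem_TC hdat.pos hdat.hom hdat.dual hxC (hQ a).1 (mem_Mx.1 (pmx x l0 (i a)).2)
      · dsimp only
        rw [hbQ a]
        exact vq_mem_TC hdat.pos hdat.hom hdat.dual hxC (hQ a).1 (mem_Mx.1 (pmx x l0 (j a)).2)
    rw [← h2, hWx]
    refine sup_le ?_ ?_
    · rw [Submodule.span_le, Set.singleton_subset_iff]
      exact Submodule.subset_span ⟨Sum.inr none, by rw [hR]; rfl⟩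
    · rw [Submodule.span_le]
      rintro _ (⟨a, rfl⟩ | ⟨a, rfl⟩)
      · dsimp only
        rw [hbQ a]
        exact Submodule.subset_span ⟨Sum.inr (some (Sum.inl a)), by rw [hR]; rfl⟩
      · dsimp only
        rw [hbQ a]
        exact Submodule.subset_span ⟨Sum.inr (some (Sum.inr a)), by rw [hR]; rfl⟩
  have htop : Submodule.span K (Set.range R) = ⊤ := by
    rw [eq_top_iff]
    intro z _
    have h1 := exists_dec hdat.hom hdat.dual hxC hl0' z
    have h4 : ∑ c : (Finset.univ : Finset A), (-(dF (F c) x z / x l0 ^ dg c.1)) •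
        vA D x (Pi.single c.1 (X l0 ^ dg c.1)) ∈ Submodule.span K (Set.range R) :=
      sum_mem fun c _ => Submodule.smul_mem _ _
        (Submodule.subset_span ⟨Sum.inl c.1, by rw [hR]; rfl⟩)
    have h5 := add_mem (htan h1) h4
    rwa [sub_add_cancel] at h5
  have hind : LinearIndependent K R :=
    linearIndependent_of_top_le_span_of_card_eq_finrank htop.ge (by
      rw [hcardI, Fintype.card_fin, Module.finrank_fin_fun])
  have hdet : vol E R ≠ 0 := by
    rw [vol_apply]
    have h4 := Matrix.linearIndependent_rows_iff_isUnit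
      (A := Matrix.of fun i => R (E.symm i))
    rw [Matrix.isUnit_iff_isUnit_det, isUnit_iff_ne_zero] at h4
    refine h4.1 ?_
    exact (linearIndependent_equiv E.symm).2 hind
  obtain ⟨b0, hb0⟩ : ∃ b0 : Fin p, b0 = ⟨0, hp0⟩ := ⟨_, rfl⟩
  have hXi : Xi dg D x l0 Q i j E b0 l0 (i b0) (j b0) ≠ 0 := by
    intro h0
    have h1 := vol_eq_Xi (dg := dg) (D := D) (x := x) (l0 := l0) (Q := Q) (jb := i) (lb := j)
      (E := E) (b0 := b0) l0 (i b0) (j b0)
    rw [h0, mul_zero, Function.update_eq_self, Function.update_eq_self,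
      Function.update_eq_self_iff.2 rfl, ← hR] at h1
    exact hdet h1
  exact rest_of_Xi hdat hxF hl0 (fun b => (hQ b).1) (fun b => (hQ b).2)
    (by rw [Fintype.card_fin]; omega) (by rw [Fintype.card_fin]; exact hS) hXi

/-- The height of the points that are neither on lines nor in planes of bounded height. -/
theorem combineP [CharZero K] (hdat : DataL k F dg D e g) (hcm : Comm D)
    (hA : Fintype.card A < n)
    (hd : 2 * ∑ a, dg a + Fintype.card A = 3 * n + 2)
    {x : Fin (n + 1) → K} (hxC : ∀ a, eval x (F a) = 0) {l0 : Fin (n + 1)} (hl0 : x l0 = 1) :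
    (∃ (y : Fin (n + 1) → K) (ik : Fin (n + 1) × Fin (n + 1)), pl x y ik ≠ 0 ∧
      OnL F Finset.univ x y) ∨
    pht k x ≤ ((∑ a, dg a : ℕ) + 1) * (CL n A e g + ∑ᶠ P, g P) ∨
    Rest k (CL n A e g) x := by
  classical
  have hx0 : x ≠ 0 := by
    intro h0
    rw [h0] at hl0
    exact zero_ne_one hl0
  have hn : 1 ≤ n := by omega
  have hxC' : ∀ c ∈ (Finset.univ : Finset A), eval x (F c) = 0 := fun c _ => hxC c
  have hxb : ∀ b, b ∉ (Finset.univ : Finset A) → eval x (F b) ≠ 0 := fun b hb =>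
    absurd (Finset.mem_univ b) hb
  have hP : PlOK dg D e F Finset.univ x := fun P => Or.inl fun b hb =>
    absurd (Finset.mem_univ b) hb
  have hCn := hdat.CL_nonneg
  have hg : 0 ≤ ∑ᶠ P, g P := finsum_nonneg fun P => hdat.g_nonneg P
  have hh := pht_nonneg (k := k) hx0
  have hker := TC_finrank hdat.hom hdat.dual hxC' hx0
  have hWle := Wsp_le hdat.pos hdat.hom hdat.dual hxC'
  have hwn := Submodule.finrank_mono hWle
  have hw1 : 1 ≤ Module.finrank K (Wsp F D x) :=
    (finrank_span_singleton (K := K) hx0).symm.le.trans (Submodule.finrank_mono le_sup_left)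
  have hcu : (Finset.univ : Finset A).card = Fintype.card A := Finset.card_univ
  obtain ⟨S, hS⟩ : ∃ S, S = ∑ a, dg a := ⟨_, rfl⟩
  obtain ⟨H, hH⟩ : ∃ H, H = CL n A e g := ⟨_, rfl⟩
  obtain ⟨G, hGG⟩ : ∃ G, G = ∑ᶠ P, g P := ⟨_, rfl⟩
  obtain ⟨h, hhh⟩ : ∃ h, h = pht k x := ⟨_, rfl⟩
  obtain ⟨N, hN⟩ : ∃ N, N = Module.finrank K (TC F Finset.univ x) := ⟨_, rfl⟩
  obtain ⟨w, hw⟩ : ∃ w, w = Module.finrank K (Wsp F D x) := ⟨_, rfl⟩
  rw [← hS, ← hH, ← hGG, ← hhh]
  rw [← hH] at hCn
  rw [← hGG] at hg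
  rw [← hhh] at hh
  rw [← hS] at hd
  rw [← hN, hcu] at hker
  rw [← hw, ← hN] at hwn
  rw [← hw] at hw1
  have hSC : 0 ≤ (S : ℤ) * H := mul_nonneg (by positivity) hCn
  have hSG : 0 ≤ (S : ℤ) * G := mul_nonneg (by positivity) hg
  have hfin : h ≤ S * H + H + G → h ≤ ((S : ℤ) + 1) * (H + G) := fun h1 => by nlinarith
  -- points on lines of bounded height
  have hline : ∀ (y : Fin (n + 1) → K) (ik : Fin (n + 1) × Fin (n + 1)), pl x y ik ≠ 0 →
      fht k (pl x y) ≤ H → ((∃ (y : Fin (n + 1) → K) (ik : Fin (n + 1) × Fin (n + 1)),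
        pl x y ik ≠ 0 ∧ OnL F Finset.univ x y) ∨ h ≤ ((S : ℤ) + 1) * (H + G) ∨
        Rest k H x) := by
    intro y ik hik hl
    by_cases hz : OnL F Finset.univ x y
    · exact Or.inl ⟨y, ik, hik, hz⟩
    · unfold OnL at hz
      push Not at hz
      obtain ⟨c, hc, a, b, hab⟩ := hz
      have h1 := hdat.line_ht (hxC c) hik hab
      right
      left
      apply hfin
      rw [← hhh, ← hGG] at h1
      have h2 : (dg c : ℤ) * fht k (pl x y) ≤ dg c * H :=
        mul_le_mul_of_nonneg_left hl (by positivity)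
      have h3 : (dg c : ℤ) ≤ S := by
        rw [hS]
        exact_mod_cast Finset.single_le_sum (f := dg) (fun _ _ => Nat.zero_le _)
          (Finset.mem_univ c)
      have h4 : (dg c : ℤ) * H ≤ S * H := mul_le_mul_of_nonneg_right h3 hCn
      linarith
  by_cases hG : Good (Bset D x dg) (TC F Finset.univ x) (Wsp F D x)
  · rcases Nat.even_or_odd' (N - w) with ⟨p, hp | hp⟩
    · by_cases hw2 : w = 1
      · -- the remaining case
        right
        right
        rw [hH]
        exact case_rest hdat hxC hl0 hG (p := p) (by omega) (by rw [← hw, hw2]) (by omega)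
          (by omega)
      · right
        left
        have h1 := case_even hdat hn hxC' hxb hx0 hP hG (p := p) (by rw [← hw, hcu]; omega)
        rw [← hH, ← hhh, ← hS] at h1
        have h2 : (1 : ℤ) ≤ (S : ℤ) - ((n + 1 + p : ℕ) : ℤ) := by omega
        have h3 : h ≤ H := by nlinarith
        apply hfin
        linarith
    · obtain ⟨y, ik, hik, h1⟩ := case_odd hdat hxC' hxb hx0 hP hG (p := p) (by
        rw [← hw, hcu]; omega)
      rw [← hH, ← hhh, ← hS] at h1
      have h2 : (0 : ℤ) ≤ (S : ℤ) - ((n + 1 + p + 1 : ℕ) : ℤ) := by omega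
      exact hline y ik hik (by nlinarith)
  · unfold Good at hG
    push Not at hG
    obtain ⟨φ, hφ0, hφ⟩ := hG
    obtain ⟨y, hy, ik, hik⟩ := exists_pl hx0 hφ0
    rw [← Vl_eq F dg D hy, ← hN, ← hw] at hφ
    have hWV : w ≤ Module.finrank K (Vl F dg D x y) := by
      rw [hw]
      exact Submodule.finrank_mono le_sup_left
    have hL := fun h1 h2 => on_lineK hdat.pos hdat.hom hdat.dual hcm hxC hik h1 h2
    obtain ⟨v, hv⟩ : ∃ v, v = Module.finrank K (Vl F dg D x y) := ⟨_, rfl⟩
    have hcl := case_line hdat hxC' hxb hP hik (j := v - w) (r := N - v)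
      (by rw [← hw, ← hv]; rw [← hv] at hWV; omega)
      (by rw [← hv, hcu]; rw [← hv] at hφ; omega)
    rw [← hv] at hφ hWV
    rw [← hv, ← hw] at hL
    have hl0 : 0 ≤ fht k (pl x y) := fht_nonneg fun h0 => hik (by rw [h0]; rfl)
    rw [← hH, ← hhh, ← hS] at hcl
    rw [← hS] at hL
    obtain ⟨l, hll⟩ : ∃ l, l = fht k (pl x y) := ⟨_, rfl⟩
    rw [← hll] at hcl hl0
    by_cases h1 : S + Fintype.card A + v ≤ 2 * n + 1
    · rcases hL (by omega) h1 with h2 | ⟨c, h2, a, b, hab⟩
      · exact Or.inl ⟨y, ik, hik, h2⟩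
      · right
        left
        have h3 := hdat.line_ht_d h2 hik hab
        rw [← hhh, ← hGG, ← hll] at h3
        have hd1 : (1 : ℤ) ≤ dg c := by
          have := hdat.pos c
          omega
        have h4 : h ≤ l + G := by
          by_contra hcon
          push Not at hcon
          have h7 : (dg c : ℤ) * (l + G + 1) ≤ dg c * h :=
            mul_le_mul_of_nonneg_left (by omega) (by omega)
          have h8 : G ≤ dg c * G := le_mul_of_one_le_left hg hd1
          have h9 : (dg c : ℤ) * (l + G + 1) = dg c * l + dg c * G + dg c := by ring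
          linarith
        obtain ⟨c1, hc1⟩ : ∃ c1 : ℤ, c1 = ((n + 1 + (N - v) : ℕ) : ℤ) - S := ⟨_, rfl⟩
        obtain ⟨s, hs⟩ : ∃ s : ℤ, s = ((N - v : ℕ) : ℤ) - ((v - w : ℕ) : ℤ) := ⟨_, rfl⟩
        have hc11 : 1 ≤ c1 := by omega
        have hsc : c1 + 1 ≤ s := by omega
        have hcS : c1 ≤ S := by omega
        rw [← hs] at hcl
        have h5 : (S : ℤ) - ((n + 1 + (N - v) : ℕ) : ℤ) = -c1 := by rw [hc1]; ring
        rw [h5] at hcl
        have h6 : c1 * h ≤ c1 * (l + G) := mul_le_mul_of_nonneg_left h4 (by omega)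
        have h7 : (c1 + 1) * l ≤ s * l := mul_le_mul_of_nonneg_right hsc hl0
        have h8 : c1 * G ≤ S * G := mul_le_mul_of_nonneg_right hcS hg
        nlinarith
    obtain ⟨s, hs⟩ : ∃ s : ℤ, s = ((N - v : ℕ) : ℤ) - ((v - w : ℕ) : ℤ) := ⟨_, rfl⟩
    have hs2 : 2 ≤ s := by omega
    rw [← hs] at hcl
    by_cases h2 : S + Fintype.card A + v = 2 * n + 2
    · have h5 : (S : ℤ) - ((n + 1 + (N - v) : ℕ) : ℤ) = 0 := by omega
      rw [h5] at hcl
      exact hline y ik hik (by rw [← hll]; nlinarith)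
    · right
      left
      have h5 : 1 ≤ (S : ℤ) - ((n + 1 + (N - v) : ℕ) : ℤ) := by omega
      have h6 : h ≤ H := by nlinarith
      apply hfin
      linarith

end Pool.Agent.H435.SC
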