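import Pool.Agent.H435.SC.Ult
import Pool.Agent.H435.SC.NoPC

/-!
Finiteness of the rational points that do not lie on lines.
-/

set_option autoImplicit false

open MvPolynomial FF Pool.Agent.W603.LV Pool.Agent.W603.PV Pool.Agent.W602.RG Pool.Agent.TH145.GH
open Pool.Agent.TH145.GC (Gen Cf finite_cf)
open Pool.Agent.Y735 (rho eval_rho rho_X pl fht rho_deg fht_nonneg hat_comm)

namespace Pool.Agent.H435.SC

open Pool.Agent.Y741

section

variable {k0 K ι : Type} [Field k0] [Field K] [Algebra k0 K] [IsAlgClosed K] [CharZero K]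
  {y : ι → K} (E : IntermediateField (IntermediateField.adjoin k0 (Set.range y)) K)

/-- The heights of the points are bounded. -/
theorem heights_P {n : ℕ} {A : Type} [Fintype A] [DecidableEq A] {dg : A → ℕ}
    (hpos : ∀ a, 0 < dg a) (hy : AlgebraicIndependent k0 y)
    [FiniteDimensional (IntermediateField.adjoin k0 (Set.range y)) E]
    {F : A → MvPolynomial (Fin (n + 1)) E.toSubfield}
    {DE : A → (Fin (n + 1) →₀ ℕ) → E.toSubfield → E.toSubfield}
    (hG : Gen F dg DE)
    (hno : ∀ (M : Type) [Field M] [CharZero M] (φ : E.toSubfield →+* M),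
      NoPC fun a => map φ (F a))
    (D : A → (Fin (n + 1) →₀ ℕ) → Derivation ℤ K K)
    (hDE : ∀ a I (x : E.toSubfield), D a I x = (DE a I x : K))
    (hDk : ∀ a I (r : k0), D a I (algebraMap k0 K r) = 0)
    (hDy : ∀ a I j, ∃ r : k0, D a I (y j) = algebraMap k0 K r) (hcm : Comm D)
    (hA : Fintype.card A < n) (hd : 2 * ∑ a, dg a + Fintype.card A = 3 * n + 2)
    (l0 : Fin (n + 1)) (i : ι) :
    ∃ B : ℤ, ∀ x : Fin (n + 1) → E, x l0 = 1 →
      (∀ a, eval (fun j => (x j : K)) (map E.toSubfield.subtype (F a)) = 0) →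
      ¬ Exc 1 (fun a => map E.toSubfield.subtype (F a)) Finset.univ (fun j => (x j : K)) →
      ∀ j, hgt (kap k0 y i) (⟨(x j : K), subset_LL y _ i (x j).2⟩ :
        LL k0 y (E : Set K) i) ≤ B := by
  classical
  have hFF : IsFF (kap k0 y i) (LL k0 y (E : Set K) i) := LL_ff E hy i
  have hac : IsAlgClosed (kap k0 y i) := acl_isAlgClosed _
  have hcz : CharZero (kap k0 y i) := charZero_of_injective_algebraMap
    (algebraMap ℚ (kap k0 y i)).injective
  have hczL : CharZero (LL k0 y (E : Set K) i) := charZero_of_injective_algebraMap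
    (algebraMap ℚ (LL k0 y (E : Set K) i)).injective
  obtain ⟨φ, D', e, g, hφ, hcm', hdat, hgT, hge⟩ :=
    exists_data_V E hpos hy hG D hDE hDk hDy hcm ∅ (by simp) i
  obtain ⟨B, hB⟩ := boundedP (κ := kap k0 y i) (L := LL k0 y (E : Set K) i) (Ω := K)
    E.toSubfield hG.hom hno φ hφ (CL n A e g) l0
  refine ⟨max (max (((∑ a, dg a : ℕ) + 1) * (CL n A e g + ∑ᶠ P, g P)) 0) B,
    fun x hx hxC hxE j => ?_⟩
  obtain ⟨x', hx'⟩ : ∃ x' : Fin (n + 1) → LL k0 y (E : Set K) i,
    ∀ j, x' j = ⟨(x j : K), subset_LL y _ i (x j).2⟩ := ⟨_, fun _ => rfl⟩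
  have hxl0 : x' l0 = 1 := by
    rw [hx']
    apply Subtype.ext
    change (x l0 : K) = 1
    rw [hx]; rfl
  have hx0 : x' ≠ 0 := by
    intro h0
    rw [h0] at hxl0
    exact zero_ne_one hxl0
  have hxx : (fun j => algebraMap (LL k0 y (E : Set K) i) K (x' j)) = fun j => (x j : K) := by
    funext j
    rw [hx']
    rfl
  have hxC' : ∀ a, eval x' (map φ (F a)) = 0 := by
    intro a
    apply (algebraMap (LL k0 y (E : Set K) i) K).injective
    rw [map_zero, eval_incl φ hφ (F a) x', hxx, hxC a]
  have hmF : mapF (algebraMap (LL k0 y (E : Set K) i) K) (fun a => map φ (F a)) =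
      fun a => map E.toSubfield.subtype (F a) := by
    funext a
    unfold mapF
    rw [map_map]
    have h3 : (algebraMap (LL k0 y (E : Set K) i) K).comp φ = E.toSubfield.subtype := by
      ext a
      exact hφ a
    exact congrArg (fun f => map f (F a)) h3
  rcases combineP hdat hcm' hA hd hxC' hxl0 with ⟨y', ik, hik, h1⟩ | h1 | h1
  · exfalso
    apply hxE
    have h2 := exc_map (algebraMap (LL k0 y (E : Set K) i) K) hdat.hom
      (fun c _ => hxC' c) (exc_univ dg hik h1)
    rw [hmF, hxx] at h2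
    exact h2
  · rw [← hx']
    by_cases hj : x' j = 0
    · rw [hj]
      have := Pool.Agent.TH145.MG.hgt_const (k := kap k0 y i) (L := LL k0 y (E : Set K) i) 0
      rw [map_zero] at this
      rw [this]
      exact (le_max_right _ _).trans (le_max_left _ _)
    · have h2 := Pool.Agent.W603.CX.hgt_le_pht (k := kap k0 y i) x' hj (l := l0)
        (by rw [hxl0]; exact one_ne_zero)
      rw [hxl0, div_one] at h2
      exact ((h2.trans h1).trans (le_max_left _ _)).trans (le_max_left _ _)
  · rw [← hx']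
    exact (hB x' hxl0 hxC' h1 (by rw [hxx]; exact hxE) j).trans (le_max_right _ _)

end

section

variable {k0 K : Type} [Field k0] [Field K] [Algebra k0 K] [IsAlgClosed k0] [IsAlgClosed K]
  [CharZero K]

/-- Limit points that do not lie on lines are constant. -/
theorem limit_P {n : ℕ} {A : Type} [Fintype A] [DecidableEq A] {dg : A → ℕ} (E : Subfield K)
    (hE : ∀ r : k0, algebraMap k0 K r ∈ E)
    {F : A → MvPolynomial (Fin (n + 1)) E} {DE : A → (Fin (n + 1) →₀ ℕ) → E → E}
    (hG : Gen F dg DE) (hpos : ∀ a, 0 < dg a)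
    (hno : ∀ (M : Type) [Field M] [CharZero M] (φ : E →+* M), NoPC fun a => map φ (F a))
    (D : A → (Fin (n + 1) →₀ ℕ) → Derivation ℤ K K)
    (hDE : ∀ a I (x : E), D a I x = (DE a I x : K))
    (hDk : ∀ a I (r : k0), D a I (algebraMap k0 K r) = 0) (hcm : Comm D)
    (hA : Fintype.card A < n) (hd : 2 * ∑ a, dg a + Fintype.card A = 3 * n + 2)
    (z : Fin (n + 1) → Om K) (hz : ∀ j, z j ∈ OE k0 (E : Set K)) {l0 : Fin (n + 1)}
    (hl0 : z l0 = 1) (hzF : ∀ a, eval z (FOm F a) = 0)
    (hzL : ¬ ∃ (y : Fin (n + 1) → Om K) (ik : Fin (n + 1) × Fin (n + 1)), pl z y ik ≠ 0 ∧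
      OnL (FOm F) Finset.univ z y) (j : Fin (n + 1)) :
    z j ∈ acl (cst K '' (E : Set K)) := by
  classical
  by_contra hj1
  obtain ⟨κ, Λ, M, φ, D', hac, hFF, hzΛ, hzκ, -, hEκ, hφ, hD', hdat, -⟩ :=
    exists_rig_V E hE hG hpos D hDE hDk z hz ∅ (by simp) j hj1
  have hczOm : CharZero (Om K) :=
    charZero_of_injective_algebraMap (algebraMap K (Om K)).injective
  have hcz : CharZero κ := charZero_of_injective_algebraMap (algebraMap ℚ κ).injective
  have hczΛ : CharZero Λ := charZero_of_injective_algebraMap (algebraMap ℚ Λ).injective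
  have hcm' : Comm D' := by
    intro a b I J w
    apply Subtype.ext
    rw [hD', hD', hD', hD']
    exact hat_comm (fun w => hcm a b I J w) _
  obtain ⟨x, hx⟩ : ∃ x : Fin (n + 1) → Λ, ∀ j, x j = ⟨z j, hzΛ j⟩ := ⟨_, fun _ => rfl⟩
  have hxz : (fun j => ((x j : Λ) : Om K)) = z := by
    funext j
    rw [hx]
  have hxl0 : x l0 = 1 := by
    rw [hx]
    exact Subtype.ext hl0
  have hx0 : x ≠ 0 := by
    intro h0
    rw [h0] at hxl0
    exact zero_ne_one hxl0
  have hxF : ∀ a, eval x (map φ (F a)) = 0 := by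
    intro a
    apply Subtype.ext
    rw [eval_lift φ hφ (F a) x, hxz]
    exact hzF a
  have hline : ∀ (y : Fin (n + 1) → Λ) (ik : Fin (n + 1) × Fin (n + 1)), pl x y ik ≠ 0 →
      OnL (fun a => map φ (F a)) Finset.univ x y → False := by
    intro y ik hik h1
    apply hzL
    refine ⟨fun j => algebraMap Λ (Om K) (y j), ik, ?_, ?_⟩
    · have h2 := congrFun (pl_map (algebraMap Λ (Om K)) x y) ik
      have h4 : (fun j => algebraMap Λ (Om K) (x j)) = z := hxz
      rw [h4] at h2
      rw [h2]
      rwa [Ne, map_eq_zero]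
    · have h2 := (onL_mapF (algebraMap Λ (Om K)) hdat.hom (fun c _ => hxF c)).2 h1
      have h4 : (fun j => algebraMap Λ (Om K) (x j)) = z := hxz
      rw [h4] at h2
      have h5 : mapF (algebraMap Λ (Om K)) (fun a => map φ (F a)) = FOm F := by
        funext a
        unfold mapF FOm
        rw [map_map]
        have h3 : (algebraMap Λ (Om K)).comp φ = (cst K).comp E.subtype := by
          ext a
          exact hφ a
        exact congrArg (fun f => map f (F a)) h3
      rwa [h5] at h2
  have hconst : (∃ c : κ, x j = algebraMap κ Λ c) → False := by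
    rintro ⟨c, hc⟩
    apply hzκ
    have h2 := congrArg (fun w : Λ => (w : Om K)) hc
    rw [hx] at h2
    change z j = (c : Om K) at h2
    rw [h2]
    exact c.2
  have hCL : CL n A (fun _ : Place κ Λ => (0 : ℤ)) (fun _ => 0) = 0 := by
    unfold CL
    simp
  rcases combineP hdat hcm' hA hd hxF hxl0 with ⟨y, ik, hik, h1⟩ | h1 | h1
  · exact hline y ik hik h1
  · rw [hCL, finsum_zero, add_zero, mul_zero] at h1
    exact hconst (const_of_pht h1 hxl0 j)
  · -- the forms over the constants
    rw [hCL] at h1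
    obtain ⟨i, ψ, hψ, hxψ, hψH⟩ := h1
    choose ψ0 hψ0 using fun l s => Pool.Agent.W603.LV.const_of_hgt (hψH l s)
    let φ0 : E →+* κ :=
      { toFun := fun a => ⟨cst K a, hEκ a a.2⟩
        map_one' := Subtype.ext (map_one (cst K))
        map_mul' := fun a b => Subtype.ext (map_mul (cst K) (a : K) b)
        map_zero' := Subtype.ext (map_zero (cst K))
        map_add' := fun a b => Subtype.ext (map_add (cst K) (a : K) b) }
    have hφ0 : ∀ a, map (algebraMap κ Λ) (map φ0 (F a)) = map φ (F a) := by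
      intro a
      rw [map_map]
      have h2 : φ = (algebraMap κ Λ).comp φ0 := by
        refine RingHom.ext fun a => Subtype.ext ?_
        rw [hφ]
        rfl
      rw [← h2]
    rcases alg_main (k := κ) (K := Λ) (fun a => (hG.hom a).map φ0) (hno κ φ0) hxl0
      (fun a => by rw [hφ0]; exact hxF a) (i := i) (ψ := ψ0) (fun s t => by
        apply (algebraMap κ Λ).injective
        rw [← hψ0, hψ]
        split_ifs
        · rw [map_one]
        · rw [map_zero]) (fun l => by
        rw [hxψ l]
        exact Finset.sum_congr rfl fun s _ => by rw [hψ0]) with ⟨y, ik, hik, h2⟩ | h2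
    · refine hline y ik hik fun c _ s t => ?_
      have h3 := h2 c s t
      rw [hφ0] at h3
      exact h3
    · obtain ⟨c, hc⟩ := h2 j
      exact hconst ⟨c, hc.symm⟩

variable {ι : Type} {y : ι → K}
  (E : IntermediateField (IntermediateField.adjoin k0 (Set.range y)) K)

/-- Finiteness of the rational points that do not lie on lines. -/
theorem fin_P {n : ℕ} {A : Type} [Fintype A] [DecidableEq A] {dg : A → ℕ}
    [Finite ι] (hpos : ∀ a, 0 < dg a)
    (hy : IsTranscendenceBasis k0 y)
    [FiniteDimensional (IntermediateField.adjoin k0 (Set.range y)) E]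
    [IsGalois (IntermediateField.adjoin k0 (Set.range y)) E]
    {F : A → MvPolynomial (Fin (n + 1)) E.toSubfield}
    {DE : A → (Fin (n + 1) →₀ ℕ) → E.toSubfield → E.toSubfield}
    (hG : Gen F dg DE)
    (hno : ∀ (M : Type) [Field M] [CharZero M] (φ : E.toSubfield →+* M),
      NoPC fun a => map φ (F a))
    (D : A → (Fin (n + 1) →₀ ℕ) → Derivation ℤ K K)
    (hDE : ∀ a I (x : E.toSubfield), D a I x = (DE a I x : K))
    (hDk : ∀ a I (r : k0), D a I (algebraMap k0 K r) = 0)
    (hDy : ∀ a I j, ∃ r : k0, D a I (y j) = algebraMap k0 K r) (hcm : Comm D)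
    (hA : Fintype.card A < n) (hd : 2 * ∑ a, dg a + Fintype.card A = 3 * n + 2)
    (l0 : Fin (n + 1)) :
    {x : Fin (n + 1) → K | (∀ j, x j ∈ E) ∧ x l0 = 1 ∧
      (∀ a, eval x (map E.toSubfield.subtype (F a)) = 0) ∧
      ¬ Exc 1 (fun a => map E.toSubfield.subtype (F a)) Finset.univ x}.Finite := by
  classical
  by_contra hinf
  let f := Set.Infinite.natEmbedding _ hinf
  obtain ⟨x, hx⟩ : ∃ x : ℕ → Fin (n + 1) → K, ∀ n, x n = (f n).1 := ⟨_, fun _ => rfl⟩
  have hxinj : Function.Injective x := by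
    intro a b hab
    rw [hx, hx] at hab
    exact f.injective (Subtype.ext hab)
  have hxE : ∀ n j, x n j ∈ E := fun n j => by rw [hx]; exact (f n).2.1 j
  have hxl : ∀ n, x n l0 = 1 := fun n => by rw [hx]; exact (f n).2.2.1
  have hxF : ∀ n a, eval (x n) (map E.toSubfield.subtype (F a)) = 0 := fun n => by
    rw [hx]; exact (f n).2.2.2.1
  have hxX : ∀ n, ¬ Exc 1 (fun a => map E.toSubfield.subtype (F a)) Finset.univ (x n) :=
    fun n => by rw [hx]; exact (f n).2.2.2.2
  choose B hB using fun i => heights_P E hpos hy.1 hG hno D hDE hDk hDy hcm hA hd l0 i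
  have hz : ∀ j, Om.mk (fun n => x n j) ∈ OE k0 ((E.toSubfield : Subfield K) : Set K) := fun j =>
    lim_mem E hy (fun n => ⟨x n j, hxE n j⟩) B fun n i =>
      hB i (fun j => ⟨x n j, hxE n j⟩) (Subtype.ext (hxl n)) (hxF n) (hxX n) j
  have hev : ∀ a, eval (fun j => Om.mk fun n => x n j) (FOm F a) =
      Om.mk fun n => eval (x n) (map E.toSubfield.subtype (F a)) := fun a => eval_mk (F a) x
  have hacl := limit_P E.toSubfield (fun r => k0_mem E r) hG hpos hno D hDE hDk hcm hA hd
    (fun j => Om.mk fun n => x n j) hz (l0 := l0) (by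
      have h1 : (fun n => x n l0) = fun _ => 1 := funext hxl
      rw [h1]; rfl) (fun a => by
      rw [hev]
      have h1 : (fun n => eval (x n) (map E.toSubfield.subtype (F a))) = fun _ => 0 :=
        funext fun n => hxF n a
      rw [h1]; rfl) (fun ⟨y', ik, hik, h1⟩ => by
      obtain ⟨m, hm⟩ := exc_mk (r := 1) (C := Finset.univ) le_rfl hG.hom x (fun m c _ => hxF m c)
        hik h1 ⟨0, fun b hb => absurd (Finset.mem_univ b) hb⟩
      exact hxX m hm)
  choose a ha using fun j => eventually_const (hacl j)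
  exact not_all_const hxinj a ha

end

/-- Finiteness over a field generated by a finite set over `k0`. -/
theorem fin_points_P {k0 K : Type} [Field k0] [Field K] [Algebra k0 K] [IsAlgClosed K]
    [CharZero K] [IsAlgClosed k0] {n : ℕ} {A : Type} [Fintype A] [DecidableEq A] {dg : A → ℕ}
    (hpos : ∀ a, 0 < dg a) (hA : Fintype.card A < n)
    (hd : 2 * ∑ a, dg a + Fintype.card A = 3 * n + 2) (hnum : PlaneNum n dg)
    {F : A → MvPolynomial (Fin (n + 1)) K} (hF : ∀ a, (F a).IsHomogeneous (dg a))
    (hind : AlgebraicIndependent k0 fun p : Cf n dg => (F p.1).coeff p.2.1)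
    (T : Finset K) (l0 : Fin (n + 1)) :
    {x : Fin (n + 1) → K | (∀ j, x j ∈ IntermediateField.adjoin k0 (T : Set K)) ∧ x l0 = 1 ∧
      (∀ a, eval x (F a) = 0) ∧ ¬ Exc 1 F Finset.univ x}.Finite := by
  classical
  obtain ⟨B, hB, K1, y, E, F1, DE, D, hK1, hc, hy, h1, h2, h3, h4, h5, h6, h7, h8⟩ :=
    TH145.GC.exists_all hF hind T
  have : Finite B := hB
  have hgen : GenA dg F1 := by
    refine GenA.of_map ((algebraMap K1 K).comp E.toSubfield.subtype) ?_
    have h9 : (fun a => map ((algebraMap K1 K).comp E.toSubfield.subtype) (F1 a)) = F := by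
      funext a
      exact h7 a
    rw [h9]
    exact GenA.of_base hind
  have hn2 : 2 ≤ n := by
    by_contra hcon
    have h9 : n = 1 := by omega
    subst h9
    omega
  have hno : ∀ (M : Type) [Field M] [CharZero M] (φ : E.toSubfield →+* M),
      NoPC fun a => map φ (F1 a) := by
    intro M _ _ φ
    exact noPC hn2 hpos hd hnum (fun a => (h3.hom a).map φ) (hgen.map φ)
  have h9 := fin_P E hpos hy h3 hno D h4 h5 h6 (comm_of hy h5 h6) hA hd l0
  refine (h9.image fun x j => algebraMap K1 K (x j)).subset ?_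
  rintro x ⟨hx, hxl, hxF, hxX⟩
  choose e he hex using fun j => h8 (x j) (hx j)
  have hex' : (fun j => algebraMap K1 K (e j)) = x := funext hex
  have hev : ∀ a, algebraMap K1 K (eval e (map E.toSubfield.subtype (F1 a))) =
      eval x (F a) := by
    intro a
    rw [← h7, eval_map, eval_map]
    have h10 := hom_eval₂ (F1 a) E.toSubfield.subtype (algebraMap K1 K) e
    rw [h10, hex']
  have heC : ∀ a, eval e (map E.toSubfield.subtype (F1 a)) = 0 := fun a => by
    apply (algebraMap K1 K).injective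
    rw [hev, hxF a, map_zero]
  refine ⟨e, ⟨he, ?_, heC, fun hX => hxX ?_⟩, hex'⟩
  · apply Subtype.ext
    rw [hex, hxl]
    rfl
  · have h10 := exc_map (algebraMap K1 K) (F := fun a => map E.toSubfield.subtype (F1 a))
      (fun a => (h3.hom a).map _) (fun c _ => heC c) hX
    have h11 : mapF (algebraMap K1 K) (fun a => map E.toSubfield.subtype (F1 a)) = F := by
      funext a
      unfold mapF
      rw [map_map, h7]
    rwa [h11, hex'] at h10

end Pool.Agent.H435.SC
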