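import Pool.Agent.H435.SC.GDeg

/-!
Subvarieties and curves of generic complete intersections, outside of the zero locus of a form
that vanishes on the lines.
-/

set_option autoImplicit false

open MvPolynomial FF Pool.Agent.W603.LV Pool.Agent.W603.PV Pool.Agent.TH145.GH
open Pool.Agent.Y735 (pl rho eval_rho)
open Pool.Agent.TH145.GC (Cf)
open Pool.Agent.W602.GT Pool.Agent.TH145.MG Pool.Agent.TH145.GF
open LinearAlgebra.Projectivization

namespace Pool.Agent.H435.SC

open Pool.Agent.Y741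

section

variable {k0 k : Type} [Field k0] [Field k] [Algebra k0 k] [IsAlgClosed k] [CharZero k] {n : ℕ}
  {A : Type} [Fintype A] [DecidableEq A] {d : A → ℕ} {G : A → MvPolynomial (Fin (n + 1)) k}

/-- Points outside of the zero locus of a form that vanishes on the lines. -/
theorem no_lineK (hG : ∀ a, (G a).IsHomogeneous (d a)) {H : MvPolynomial (Fin (n + 1)) k}
    (hH : ∀ W, LineX G W → ∀ v ∈ W, eval v H = 0) {K : Type} [Field K] [Algebra k K]
    {y : Fin (n + 1) → K} (hne : aeval y H ≠ 0)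
    (h : LineK (fun a => map (algebraMap k K) (G a)) y) : False := by
  obtain ⟨z, hzb, hz1, hz2⟩ := exc_transfer hG (fun b hb => absurd (Finset.mem_univ b) hb)
    (exc_of_lineK h) hne
  obtain ⟨W, h2, h3, h4⟩ := exc_line hG hzb hz1
  exact hz2 (hH W ⟨h2.1, fun a v hv => h2.2 a (Finset.mem_univ a) v hv⟩ z h4)

/-- Subvarieties. -/
theorem gt_of_form (hn : 1 ≤ n) (hd0 : ∀ a, 0 < d a) (hG : ∀ a, (G a).IsHomogeneous (d a))
    (hind : AlgebraicIndependent k0 fun p : Cf n d => (G p.1).coeff p.2.1)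
    (hd : 3 * n + 2 ≤ 2 * ∑ a, d a + Fintype.card A) {H : MvPolynomial (Fin (n + 1)) k}
    (hH : ∀ W, LineX G W → ∀ v ∈ W, eval v H = 0) {K : Type} [Field K] [Algebra k K] {w : ℕ}
    {y : Fin (n + 1) → K} (hw : 0 < w) (hy : SubX G w y) (hne : aeval y H ≠ 0) :
    GeneralType k K w := by
  classical
  obtain ⟨⟨hy0, hyC⟩, htr, hgen⟩ := hy
  have hK : CharZero K := charZero_of_injective_algebraMap (algebraMap k K).injective
  obtain ⟨ψ, hψ⟩ : ∃ ψ : K →ₐ[k] AlgebraicClosure K,
    ψ = IsScalarTower.toAlgHom k K (AlgebraicClosure K) := ⟨_, rfl⟩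
  rcases gt_or_lineB (k0 := k0) hn hd0 hG hind hd hw htr hy0 hgen hyC (ψ : K →+* AlgebraicClosure K)
    with h | h
  · exact h
  · exfalso
    have h2 : mapF (ψ : K →+* AlgebraicClosure K) (fun a => map (algebraMap k K) (G a)) =
        fun a => map (algebraMap k (AlgebraicClosure K)) (G a) := by
      funext a
      unfold mapF
      rw [map_map, ψ.comp_algebraMap]
    rw [h2] at h
    refine no_lineK hG hH (K := AlgebraicClosure K) (y := fun j => ψ (y j)) ?_ h
    have h3 : aeval (fun j => ψ (y j)) H = ψ (aeval y H) := by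
      rw [comp_aeval_apply]
    rw [h3]
    exact (_root_.map_ne_zero ψ).2 hne

/-- Curves. -/
theorem deg_of_form (hn : 1 ≤ n) (hd0 : ∀ a, 0 < d a) (hG : ∀ a, (G a).IsHomogeneous (d a))
    (hind : AlgebraicIndependent k0 fun p : Cf n d => (G p.1).coeff p.2.1)
    (hd : 3 * n + 2 ≤ 2 * ∑ a, d a + Fintype.card A) {H : MvPolynomial (Fin (n + 1)) k}
    {m : ℕ} (hHm : H.IsHomogeneous m)
    (hH : ∀ W, LineX G W → ∀ v ∈ W, eval v H = 0) {L : Type} [Field L] [Algebra k L] [IsFF k L]
    {f : Fin (n + 1) → L} (hf0 : f ≠ 0) (hf : ∀ a, aeval f (G a) = 0) (hne : aeval f H ≠ 0)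
    {e : ℕ} (he : ∀ a, d a ≤ e) : pht k f ≤ e * max (canDeg k L) 0 := by
  classical
  have hmax : 0 ≤ max (canDeg k L) 0 := le_max_right _ _
  rcases le_or_gt (pht k f) 0 with hp | hp
  · exact hp.trans (by positivity)
  have hgen := alg_of_pht hf0 hp
  obtain ⟨j0, hj0⟩ := Function.ne_iff.1 hf0
  have hj0' : f j0 ≠ 0 := hj0
  obtain ⟨x, hx⟩ : ∃ x : Fin (n + 1) → L, x = (f j0)⁻¹ • f := ⟨_, rfl⟩
  have hfx : f = f j0 • x := by
    rw [hx, smul_smul, mul_inv_cancel₀ hj0', one_smul]
  have hx1 : x j0 = 1 := by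
    rw [hx]
    exact inv_mul_cancel₀ hj0'
  have hev : ∀ (p : MvPolynomial (Fin (n + 1)) k) (r : ℕ), p.IsHomogeneous r →
      aeval f p = f j0 ^ r * aeval x p := by
    intro p r hp
    have h1 : ∀ z : Fin (n + 1) → L, aeval z p = eval z (map (algebraMap k L) p) := by
      intro z
      rw [eval_map]
      rfl
    rw [h1, h1]
    conv_lhs => rw [hfx]
    rw [eval_smul_hom (hp.map _)]
  have hgen' : Algebra.IsAlgebraic (coords k x) L := by
    refine alg_of_coords hgen ?_
    unfold coords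
    rw [IntermediateField.adjoin_le_iff]
    rintro z ⟨i, j, hj, rfl⟩
    refine IntermediateField.subset_adjoin _ _ ⟨i, j, ?_, ?_⟩
    · rw [hx]
      exact mul_ne_zero (inv_ne_zero hj0') hj
    · rw [hx, Pi.smul_apply, Pi.smul_apply, smul_eq_mul, smul_eq_mul,
        mul_div_mul_left _ _ (inv_ne_zero hj0')]
  have hxC : ∀ c, aeval x (G c) = 0 := fun c => by
    have := hf c
    rw [hev _ _ (hG c)] at this
    exact (mul_eq_zero.1 this).resolve_left (pow_ne_zero _ hj0')
  have hxH : aeval x H ≠ 0 := by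
    intro h0
    apply hne
    rw [hev _ _ hHm, h0, mul_zero]
  have hpx : pht k x = pht k f := by
    have h1 := pht_scale (k := k) (f := f) ⟨j0, hj0'⟩ (inv_ne_zero hj0')
    rw [← h1, hx]
    rfl
  rcases deg_or_line1 (k0 := k0) hn hd0 hG hind hd hx1 hgen' hxC he with h | h
  · rw [hpx] at h
    exact h.trans (mul_le_mul_of_nonneg_left (le_max_left _ _) (by positivity))
  · exact (no_lineK hG hH hxH h).elim

end

end Pool.Agent.H435.SC
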