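import Pool.Graph.R_seed8.Y741.KLines

/-!
Plane curves on a generic complete intersection: the count of the parameters.
-/

set_option autoImplicit false

open MvPolynomial

namespace Pool.Agent.H435.SC

open Pool.Agent.TH145.GC (Cf finite_cf)
open Pool.Agent.Y735 (card_le_adjoin)

/-- The number of the monomials of degree `d` in three variables. -/
theorem card_three (d : ℕ) :
    Nat.card {J : Fin 3 →₀ ℕ // J.degree = d} = (d + 2).choose 2 := by
  have e1 : {J : Fin 3 →₀ ℕ // J.degree = d} ≃ Sym (Fin 3) d := by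
    refine (Equiv.subtypeEquivRight fun J => ?_).trans (Sym.equivNatSum (Fin 3) d).symm
    rfl
  rw [Nat.card_congr e1, Nat.card_eq_fintype_card, Sym.card_sym_eq_choose, Fintype.card_fin]
  have h : 3 + d - 1 = d + 2 := by omega
  rw [h, ← Nat.choose_symm_add]

instance finite_three (d : ℕ) : Finite {J : Fin 3 →₀ ℕ // J.degree = d} := by
  apply Nat.finite_of_card_ne_zero
  rw [card_three]
  exact (Nat.choose_pos (by omega)).ne'

section

variable {k Ω : Type} [Field k] [Field Ω] [Algebra k Ω] {n : ℕ}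

/-- The restriction of the forms to the plane given by `ψ`. -/
noncomputable def rs (ψ : Fin (n + 1) → Fin 3 → Ω) :
    MvPolynomial (Fin (n + 1)) Ω →ₐ[Ω] MvPolynomial (Fin 3) Ω :=
  aeval fun l => ∑ s, C (ψ l s) * X s

theorem rs_X (ψ : Fin (n + 1) → Fin 3 → Ω) (l : Fin (n + 1)) :
    rs ψ (X l) = ∑ s, C (ψ l s) * X s := by
  unfold rs
  rw [aeval_X]

theorem rs_hom (ψ : Fin (n + 1) → Fin 3 → Ω) {p : MvPolynomial (Fin (n + 1)) Ω} {d : ℕ}
    (hp : p.IsHomogeneous d) : (rs ψ p).IsHomogeneous d := by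
  have h1 := hp.aeval (fun l => ∑ s, C (ψ l s) * X s) (n := 1) (fun l =>
    IsHomogeneous.sum _ _ _ fun s _ => by
      have := (isHomogeneous_C (Fin 3) (ψ l s)).mul (isHomogeneous_X Ω s)
      rwa [zero_add] at this)
  rwa [one_mul] at h1

theorem eval_rs (ψ : Fin (n + 1) → Fin 3 → Ω) (p : MvPolynomial (Fin (n + 1)) Ω)
    (ξ : Fin 3 → Ω) : eval ξ (rs ψ p) = eval (fun l => ∑ s, ψ l s * ξ s) p := by
  unfold rs
  rw [aeval_def, eval_eval₂, eval₂_eq', eval_eq']
  refine Finset.sum_congr rfl fun J _ => ?_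
  congr 1
  · simp
  · refine Finset.prod_congr rfl fun l _ => ?_
    congr 1
    simp

/-- The polynomials with coefficients in a subfield. -/
def LC (L : IntermediateField k Ω) (p : MvPolynomial (Fin 3) Ω) : Prop := ∀ J, p.coeff J ∈ L

variable {L : IntermediateField k Ω}

theorem LC.add {p q : MvPolynomial (Fin 3) Ω} (hp : LC L p) (hq : LC L q) : LC L (p + q) :=
  fun J => by rw [coeff_add]; exact add_mem (hp J) (hq J)

theorem LC.sub {p q : MvPolynomial (Fin 3) Ω} (hp : LC L p) (hq : LC L q) : LC L (p - q) :=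
  fun J => by rw [coeff_sub]; exact sub_mem (hp J) (hq J)

theorem LC.mul {p q : MvPolynomial (Fin 3) Ω} (hp : LC L p) (hq : LC L q) : LC L (p * q) :=
  fun J => by
    classical
    rw [coeff_mul]
    exact sum_mem fun x _ => mul_mem (hp _) (hq _)

theorem LC.C {a : Ω} (ha : a ∈ L) : LC L (MvPolynomial.C a) := fun J => by
  classical
  rw [coeff_C]
  split_ifs
  · exact ha
  · exact zero_mem _

theorem LC.X (s : Fin 3) : LC L (MvPolynomial.X s) := fun J => by
  classical
  rw [coeff_X']
  split_ifs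
  · exact one_mem _
  · exact zero_mem _

theorem LC.sum {ι : Type*} (t : Finset ι) {f : ι → MvPolynomial (Fin 3) Ω}
    (h : ∀ i ∈ t, LC L (f i)) : LC L (∑ i ∈ t, f i) := fun J => by
  rw [coeff_sum]
  exact sum_mem fun i hi => h i hi J

theorem LC.one : LC L (1 : MvPolynomial (Fin 3) Ω) := by
  rw [← MvPolynomial.C_1]
  exact LC.C (one_mem _)

theorem LC.pow {p : MvPolynomial (Fin 3) Ω} (hp : LC L p) (m : ℕ) : LC L (p ^ m) := by
  induction m with
  | zero => rw [pow_zero]; exact LC.one
  | succ m ih => rw [pow_succ]; exact ih.mul hp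

theorem LC.prod {ι : Type*} (t : Finset ι) {f : ι → MvPolynomial (Fin 3) Ω}
    (h : ∀ i ∈ t, LC L (f i)) : LC L (∏ i ∈ t, f i) := by
  classical
  induction t using Finset.induction_on with
  | empty => rw [Finset.prod_empty]; exact LC.one
  | insert a t ha ih =>
    rw [Finset.prod_insert ha]
    exact (h a (Finset.mem_insert_self _ _)).mul (ih fun i hi => h i (Finset.mem_insert_of_mem hi))

theorem LC.rs_monomial {ψ : Fin (n + 1) → Fin 3 → Ω} (hψ : ∀ l s, ψ l s ∈ L)
    (J : Fin (n + 1) →₀ ℕ) {c : Ω} (hc : c ∈ L) : LC L (rs ψ (monomial J c)) := by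
  rw [monomial_eq, map_mul, ← algebraMap_eq, AlgHom.commutes, algebraMap_eq, Finsupp.prod, map_prod]
  refine (LC.C hc).mul (LC.prod _ fun l _ => ?_)
  rw [map_pow, rs_X]
  exact LC.pow (LC.sum _ fun s _ => (LC.C (hψ l s)).mul (LC.X s)) _

end

section

variable {k Ω : Type} [Field k] [Field Ω] [Algebra k Ω] {n : ℕ}

theorem rs_rename {ψ : Fin (n + 1) → Fin 3 → Ω} {i : Fin 3 → Fin (n + 1)}
    (hψ : ∀ s t, ψ (i s) t = if s = t then 1 else 0) (p : MvPolynomial (Fin 3) Ω) :
    rs ψ (rename i p) = p := by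
  have h1 : (rs ψ).comp (rename i) = AlgHom.id Ω _ := by
    refine algHom_ext fun s => ?_
    rw [AlgHom.comp_apply, rename_X, rs_X, AlgHom.id_apply]
    rw [Finset.sum_eq_single s]
    · rw [hψ, if_pos rfl, C_1, one_mul]
    · intro t _ ht
      rw [hψ, if_neg (Ne.symm ht), C_0, zero_mul]
    · intro h
      exact absurd (Finset.mem_univ s) h
  exact AlgHom.congr_fun h1 p

/-- The part of a polynomial in three of the variables. -/
theorem exists_pure (i : Fin 3 → Fin (n + 1)) (hi : Function.Injective i)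
    (p : MvPolynomial (Fin (n + 1)) Ω) : ∃ P : MvPolynomial (Fin 3) Ω,
      ∀ J, P.coeff J = p.coeff (J.mapDomain i) := by
  classical
  have hinj := Finsupp.mapDomain_injective (M := ℕ) hi
  refine ⟨∑ J ∈ p.support.preimage (Finsupp.mapDomain i) hinj.injOn,
    monomial J (p.coeff (J.mapDomain i)), fun J => ?_⟩
  rw [coeff_sum]
  simp only [coeff_monomial]
  rw [Finset.sum_ite_eq']
  split_ifs with h
  · rfl
  · rw [Finset.mem_preimage, notMem_support_iff] at h
    exact h.symm

/-- The coefficients of the monomials in three of the variables. -/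
theorem pure_mem {L : IntermediateField k Ω} {i : Fin 3 → Fin (n + 1)}
    (hi : Function.Injective i) {ψ : Fin (n + 1) → Fin 3 → Ω}
    (hψ : ∀ s t, ψ (i s) t = if s = t then 1 else 0) (hL : ∀ l s, ψ l s ∈ L)
    {p : MvPolynomial (Fin (n + 1)) Ω} (hp : LC L (rs ψ p))
    (hn : ∀ J, (∀ J', J ≠ Finsupp.mapDomain i J') → p.coeff J ∈ L) (J : Fin (n + 1) →₀ ℕ) :
    p.coeff J ∈ L := by
  classical
  have hinj := Finsupp.mapDomain_injective (M := ℕ) hi
  obtain ⟨P, hP⟩ := exists_pure i hi p
  obtain ⟨N, hN⟩ : ∃ N, N = p - rename i P := ⟨_, rfl⟩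
  have hNc : ∀ J, N.coeff J ∈ L := by
    intro J
    rw [hN, coeff_sub]
    by_cases h : ∃ J', J = Finsupp.mapDomain i J'
    · obtain ⟨J', rfl⟩ := h
      rw [coeff_rename_mapDomain i hi, hP, sub_self]
      exact zero_mem _
    · push Not at h
      rw [coeff_rename_eq_zero i P J (fun u hu => absurd hu.symm (h u)), sub_zero]
      exact hn J h
  have hNr : LC L (rs ψ N) := by
    rw [N.as_sum, map_sum]
    exact LC.sum _ fun J _ => LC.rs_monomial hL J (hNc J)
  have hPL : LC L P := by
    have h1 : P = rs ψ p - rs ψ N := by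
      rw [hN, map_sub, rs_rename hψ]
      abel
    rw [h1]
    exact hp.sub hNr
  by_cases h : ∃ J', J = Finsupp.mapDomain i J'
  · obtain ⟨J', rfl⟩ := h
    rw [← hP]
    exact hPL J'
  · push Not at h
    exact hn J h

/-- The factor of a form. -/
theorem factor_hom {Y R p : MvPolynomial (Fin 3) Ω} {e d : ℕ} (hY : Y.IsHomogeneous e)
    (hp : p.IsHomogeneous d) (h : p = Y * R) (hp0 : p ≠ 0) : e ≤ d ∧
      ∃ R' : MvPolynomial (Fin 3) Ω, R'.IsHomogeneous (d - e) ∧ p = Y * R' := by
  classical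
  have h1 : p = ∑ j ∈ Finset.range (R.totalDegree + 1),
      if d = e + j then Y * homogeneousComponent j R else 0 := by
    have h2 : homogeneousComponent d p = p := by
      rw [homogeneousComponent_of_mem ((mem_homogeneousSubmodule _ _).2 hp), if_pos rfl]
    conv_lhs => rw [← h2, h, ← R.sum_homogeneousComponent, Finset.mul_sum, map_sum]
    refine Finset.sum_congr rfl fun j _ => ?_
    exact homogeneousComponent_of_mem ((mem_homogeneousSubmodule _ _).2
      (hY.mul (homogeneousComponent_isHomogeneous j R)))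
  have hed : e ≤ d := by
    by_contra hcon
    apply hp0
    rw [h1]
    exact Finset.sum_eq_zero fun j _ => if_neg (by omega)
  refine ⟨hed, homogeneousComponent (d - e) R, homogeneousComponent_isHomogeneous _ _, ?_⟩
  by_cases hm : d - e ∈ Finset.range (R.totalDegree + 1)
  · rw [h1, Finset.sum_eq_single (d - e)]
    · rw [if_pos (by omega)]
    · intro j _ hj
      exact if_neg (by omega)
    · intro h3
      exact absurd hm h3
  · have h3 : homogeneousComponent (d - e) R = 0 := by
      apply homogeneousComponent_eq_zero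
      rw [Finset.mem_range] at hm
      omega
    exfalso
    apply hp0
    rw [h1]
    refine Finset.sum_eq_zero fun j hj => ?_
    rw [Finset.mem_range] at hj hm
    exact if_neg (by omega)

end

section

variable {k Ω : Type} [Field k] [Field Ω] [Algebra k Ω] {n : ℕ} {A : Type} [Fintype A]
  [DecidableEq A] {dg : A → ℕ}

open Classical in
/-- The number of the parameters of the plane curves of degree `e` on a generic complete
intersection. -/
theorem plane_count (hn : 2 ≤ n) {F : A → MvPolynomial (Fin (n + 1)) Ω}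
    (hF : ∀ a, (F a).IsHomogeneous (dg a))
    (hind : AlgebraicIndependent k fun p : Cf n dg => (F p.1).coeff p.2.1)
    {i : Fin 3 → Fin (n + 1)} (hi : Function.Injective i) {ψ : Fin (n + 1) → Fin 3 → Ω}
    (hψ : ∀ s t, ψ (i s) t = if s = t then 1 else 0)
    {e : ℕ} {Y : MvPolynomial (Fin 3) Ω} (hY : Y.IsHomogeneous e) (hY0 : Y ≠ 0)
    (hdvd : ∀ a, Y ∣ rs ψ (F a)) :
    ∑ a, (dg a + 2).choose 2 + 1 ≤ 3 * (n - 2) + (e + 2).choose 2 +
      ∑ a, if rs ψ (F a) = 0 then 0 else (dg a - e + 2).choose 2 := by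
  classical
  have hcf := finite_cf n dg
  have : Fintype (Cf n dg) := Fintype.ofFinite _
  have hf3 : ∀ d, Fintype {J : Fin 3 →₀ ℕ // J.degree = d} := fun d => Fintype.ofFinite _
  have hc3 : ∀ d, Fintype.card {J : Fin 3 →₀ ℕ // J.degree = d} = (d + 2).choose 2 := by
    intro d
    rw [← Nat.card_eq_fintype_card, card_three]
  have hinj := Finsupp.mapDomain_injective (M := ℕ) hi
  -- the normalised equation of the curve
  obtain ⟨J0, hJ0⟩ : ∃ J0, Y.coeff J0 ≠ 0 := by
    by_contra hcon
    push Not at hcon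
    exact hY0 (MvPolynomial.ext _ _ fun J => by rw [hcon, coeff_zero])
  have hJ0d : J0.degree = e := Pool.Agent.TH145.GH.deg_of_mem hY (mem_support_iff.2 hJ0)
  obtain ⟨Y1, hY1⟩ : ∃ Y1, Y1 = C (Y.coeff J0)⁻¹ * Y := ⟨_, rfl⟩
  have hY1h : Y1.IsHomogeneous e := by
    rw [hY1]
    have := (isHomogeneous_C (Fin 3) (Y.coeff J0)⁻¹).mul hY
    rwa [zero_add] at this
  have hY1c : Y1.coeff J0 = 1 := by rw [hY1, coeff_C_mul, inv_mul_cancel₀ hJ0]
  have hYY : Y = C (Y.coeff J0) * Y1 := by
    rw [hY1, ← mul_assoc, ← C_mul, mul_inv_cancel₀ hJ0, C_1, one_mul]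
  -- the factors
  have hR : ∀ a, ∃ R : MvPolynomial (Fin 3) Ω, R.IsHomogeneous (dg a - e) ∧
      rs ψ (F a) = Y1 * R ∧ (rs ψ (F a) = 0 → R = 0) := by
    intro a
    by_cases h : rs ψ (F a) = 0
    · exact ⟨0, isHomogeneous_zero _ _ _, by rw [h, mul_zero], fun _ => rfl⟩
    · obtain ⟨R, hR⟩ := hdvd a
      obtain ⟨-, R', h1, h2⟩ := factor_hom (R := C (Y.coeff J0) * R) hY1h (rs_hom ψ (hF a)) (by
        rw [hR]
        conv_lhs => rw [hYY]
        ring) h
      exact ⟨R', h1, h2, fun h3 => absurd h3 h⟩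
  choose R hRh hRe hR0 using hR
  -- the generators
  obtain ⟨T1, hT1⟩ : ∃ T1 : Finset (Fin (n + 1)), T1 = Finset.univ \ Finset.univ.image i :=
    ⟨_, rfl⟩
  obtain ⟨S1, hS1⟩ : ∃ S1 : Finset Ω, S1 = (T1 ×ˢ (Finset.univ : Finset (Fin 3))).image
    fun q => ψ q.1 q.2 := ⟨_, rfl⟩
  obtain ⟨S2, hS2⟩ : ∃ S2 : Finset Ω, S2 = ((Finset.univ : Finset {J : Fin 3 →₀ ℕ //
    J.degree = e}).erase ⟨J0, hJ0d⟩).image fun J => Y1.coeff J.1 := ⟨_, rfl⟩
  obtain ⟨S3, hS3⟩ : ∃ S3 : A → Finset Ω, ∀ a, S3 a = if rs ψ (F a) = 0 then ∅ else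
    (Finset.univ : Finset {J : Fin 3 →₀ ℕ // J.degree = dg a - e}).image
      fun J => (R a).coeff J.1 := ⟨_, fun _ => rfl⟩
  obtain ⟨NT, hNT⟩ : ∃ NT : Finset (Cf n dg), NT = Finset.univ.filter
    fun p : Cf n dg => ∀ J', p.2.1 ≠ Finsupp.mapDomain i J' := ⟨_, rfl⟩
  obtain ⟨S4, hS4⟩ : ∃ S4 : Finset Ω, S4 = NT.image (fun p => (F p.1).coeff p.2.1) := ⟨_, rfl⟩
  obtain ⟨S0, hS0⟩ : ∃ S0 : Finset Ω, S0 = (S1 ∪ S2) ∪ (Finset.univ.biUnion S3 ∪ S4) := ⟨_, rfl⟩
  have hc1 : S1.card ≤ 3 * (n - 2) := by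
    rw [hS1]
    refine Finset.card_image_le.trans ?_
    rw [Finset.card_product, Finset.card_univ, Fintype.card_fin, hT1,
      Finset.card_sdiff_of_subset (Finset.subset_univ _), Finset.card_univ, Fintype.card_fin,
      Finset.card_image_of_injective _ hi, Finset.card_univ, Fintype.card_fin]
    omega
  have hc2 : S2.card + 1 ≤ (e + 2).choose 2 := by
    have h1 : S2.card ≤ ((Finset.univ : Finset {J : Fin 3 →₀ ℕ //
        J.degree = e}).erase ⟨J0, hJ0d⟩).card := by
      rw [hS2]
      exact Finset.card_image_le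
    rw [Finset.card_erase_of_mem (Finset.mem_univ _), Finset.card_univ, hc3] at h1
    have h2 : 0 < (e + 2).choose 2 := Nat.choose_pos (by omega)
    omega
  have hc4 : (Finset.univ.biUnion S3).card ≤
      ∑ a, if rs ψ (F a) = 0 then 0 else (dg a - e + 2).choose 2 := by
    refine Finset.card_biUnion_le.trans (Finset.sum_le_sum fun a _ => ?_)
    rw [hS3]
    split_ifs
    · simp
    · refine Finset.card_image_le.trans ?_
      rw [Finset.card_univ, hc3]
  have hNTc : NT.card + ∑ a, (dg a + 2).choose 2 ≤ Fintype.card (Cf n dg) := by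
    have h1 : ∑ a, (dg a + 2).choose 2 ≤ (Finset.univ.filter fun p : Cf n dg =>
        ¬ ∀ J', p.2.1 ≠ Finsupp.mapDomain i J').card := by
      obtain ⟨f, hf⟩ : ∃ f : (Σ a : A, {J : Fin 3 →₀ ℕ // J.degree = dg a}) → Cf n dg,
          ∀ q, (f q).1 = q.1 ∧ (f q).2.1 = Finsupp.mapDomain i q.2.1 :=
        ⟨fun q => ⟨q.1, Finsupp.mapDomain i q.2.1, by
          rw [Finsupp.degree_mapDomain]
          exact q.2.2⟩, fun _ => ⟨rfl, rfl⟩⟩
      have hfi : Function.Injective f := by
        intro q q' hq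
        have h1 : q.1 = q'.1 := by rw [← (hf q).1, ← (hf q').1, hq]
        have h2 : (f q).2.1 = (f q').2.1 := by rw [hq]
        rw [(hf q).2, (hf q').2] at h2
        have h3 := hinj h2
        obtain ⟨a1, a2⟩ := q
        obtain ⟨b1, b2⟩ := q'
        dsimp only at h1 h3
        subst h1
        rw [Subtype.ext h3]
      have h2 := Finset.card_le_card (s := Finset.univ.image f) (t := Finset.univ.filter
        fun p : Cf n dg => ¬ ∀ J', p.2.1 ≠ Finsupp.mapDomain i J') (by
          intro I hI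
          rw [Finset.mem_image] at hI
          obtain ⟨q, -, rfl⟩ := hI
          rw [Finset.mem_filter]
          refine ⟨Finset.mem_univ _, fun h => h q.2.1 (hf q).2⟩)
      rw [Finset.card_image_of_injective _ hfi, Finset.card_univ, Fintype.card_sigma] at h2
      simp only [hc3] at h2
      exact h2
    have h2 := Finset.card_filter_add_card_filter_not (s := (Finset.univ :
      Finset (Cf n dg))) (fun p => ∀ J', p.2.1 ≠ Finsupp.mapDomain i J')
    rw [Finset.card_univ] at h2
    rw [hNT]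
    omega
  have hcard : S0.card ≤ 3 * (n - 2) + S2.card +
      ((∑ a, if rs ψ (F a) = 0 then 0 else (dg a - e + 2).choose 2) + NT.card) := by
    rw [hS0]
    refine (Finset.card_union_le _ _).trans (add_le_add ((Finset.card_union_le _ _).trans
      (add_le_add hc1 le_rfl)) ((Finset.card_union_le _ _).trans (add_le_add hc4 ?_)))
    rw [hS4]
    exact Finset.card_image_le
  obtain ⟨L, hL⟩ : ∃ L, L = IntermediateField.adjoin k (S0 : Set Ω) := ⟨_, rfl⟩
  have hSL : ∀ s ∈ S0, s ∈ L := fun s hs => by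
    rw [hL]
    exact IntermediateField.subset_adjoin _ _ hs
  have hψL : ∀ l s, ψ l s ∈ L := by
    intro l s
    by_cases hl : l ∈ Finset.univ.image i
    · obtain ⟨t, -, rfl⟩ := Finset.mem_image.1 hl
      rw [hψ]
      split_ifs
      · exact one_mem _
      · exact zero_mem _
    · apply hSL
      have hlT : l ∈ T1 := by
        rw [hT1]
        exact Finset.mem_sdiff.2 ⟨Finset.mem_univ _, hl⟩
      rw [hS0, hS1]
      exact Finset.mem_union_left _ (Finset.mem_union_left _ (Finset.mem_image.2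
        ⟨(l, s), Finset.mem_product.2 ⟨hlT, Finset.mem_univ _⟩, rfl⟩))
  have hYL : LC L Y1 := by
    intro J
    by_cases hJ : J.degree = e
    · by_cases hJJ : J = J0
      · rw [hJJ, hY1c]
        exact one_mem _
      · apply hSL
        rw [hS0, hS2]
        exact Finset.mem_union_left _ (Finset.mem_union_right _ (Finset.mem_image.2
          ⟨⟨J, hJ⟩, Finset.mem_erase.2 ⟨fun h => hJJ (congrArg Subtype.val h),
            Finset.mem_univ _⟩, rfl⟩))
    · have : Y1.coeff J = 0 := by
        by_contra hcon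
        exact hJ (Pool.Agent.TH145.GH.deg_of_mem hY1h (mem_support_iff.2 hcon))
      rw [this]
      exact zero_mem _
  have hRL : ∀ a, LC L (R a) := by
    intro a J
    by_cases h0 : rs ψ (F a) = 0
    · rw [hR0 a h0, coeff_zero]
      exact zero_mem _
    by_cases hJ : J.degree = dg a - e
    · apply hSL
      rw [hS0]
      refine Finset.mem_union_right _ (Finset.mem_union_left _ (Finset.mem_biUnion.2
        ⟨a, Finset.mem_univ _, ?_⟩))
      rw [hS3, if_neg h0]
      exact Finset.mem_image.2 ⟨⟨J, hJ⟩, Finset.mem_univ _, rfl⟩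
    · have : (R a).coeff J = 0 := by
        by_contra hcon
        exact hJ (Pool.Agent.TH145.GH.deg_of_mem (hRh a) (mem_support_iff.2 hcon))
      rw [this]
      exact zero_mem _
  have h3 : ∀ p : Cf n dg, (F p.1).coeff p.2.1 ∈ IntermediateField.adjoin k (S0 : Set Ω) := by
    intro p
    rw [← hL]
    refine pure_mem hi hψ hψL ?_ (fun J hJ => ?_) p.2.1
    · rw [hRe]
      exact hYL.mul (hRL _)
    · by_cases hd : J.degree = dg p.1
      · have hm : (⟨p.1, ⟨J, hd⟩⟩ : Cf n dg) ∈ NT := by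
          rw [hNT, Finset.mem_filter]
          exact ⟨Finset.mem_univ _, hJ⟩
        apply hSL
        rw [hS0, hS4]
        exact Finset.mem_union_right _ (Finset.mem_union_right _ (Finset.mem_image.2
          ⟨⟨p.1, ⟨J, hd⟩⟩, hm, rfl⟩))
      · have : (F p.1).coeff J = 0 := by
          by_contra hcon
          exact hd (Pool.Agent.TH145.GH.deg_of_mem (hF p.1) (mem_support_iff.2 hcon))
        rw [this]
        exact zero_mem _
  have h4 := card_le_adjoin hind S0 h3
  rw [Nat.card_eq_fintype_card (α := Cf n dg)] at h4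
  omega

end

end Pool.Agent.H435.SC
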