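import Pool.Graph.R_seed8.Y741.KComb
import Pool.Graph.R_seed8.Y735.S.Cases5

/-!
The local inequality for pairs with different base indices.
-/

set_option autoImplicit false

open MvPolynomial FF Pool.Agent.W603.LV Pool.Agent.W603.PV Pool.Agent.TH145.GH
open Pool.Agent.Y735 (lf pm lf_hom eval_pm eval_lf vol vol_apply alt_tri alt_pair ge_vol)

namespace Pool.Agent.H435.SC

open Pool.Agent.Y741

/-- The order of the value of an alternating map at rows that come in pairs. -/
theorem ge_pairs {k K J ι : Type*} [Field k] [Field K] [Algebra k K] [DecidableEq ι]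
    (P : Place k K) {N : ℤ} (Pr : (J → K) → Prop) (f : (J → K) [⋀^ι]→ₗ[K] K)
    (hf : ∀ R : ι → J → K, (∀ k, Pr (R k)) → Ge P N (f R)) {B : Type*} [DecidableEq B]
    (α β : B → ι) (hα : Function.Injective α) (hβ : Function.Injective β)
    (hαβ : ∀ b b', α b ≠ β b') (x0 x1 x2 : B → K) {m : ℤ} (hm0 : ∀ b, Ge P m (x0 b))
    (hm1 : ∀ b, Ge P m (x1 b)) (hm2 : ∀ b, Ge P m (x2 b)) (e1 e2 e3 : B → J → K)
    (he1 : ∀ b, Pr (e1 b)) (he2 : ∀ b, Pr (e2 b)) (he3 : ∀ b, Pr (e3 b))
    (t : Finset B) : ∀ R : ι → J → K,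
      (∀ b ∈ t, R (α b) = x0 b • e2 b - x1 b • e1 b ∧ R (β b) = x0 b • e3 b - x2 b • e1 b) →
      (∀ k, (∀ b ∈ t, k ≠ α b ∧ k ≠ β b) → Pr (R k)) →
      Ge P (∑ b ∈ t, (P.ord (x0 b) + m) + N) (f R) := by
  classical
  induction t using Finset.induction_on with
  | empty =>
    intro R _ h2
    rw [Finset.sum_empty, zero_add]
    exact hf R fun k => h2 k (by simp)
  | insert b t hb ih =>
    intro R h1 h2
    obtain ⟨hRα, hRβ⟩ := h1 b (Finset.mem_insert_self _ _)
    have hR : R = Function.update (Function.update R (α b) (x0 b • e2 b - x1 b • e1 b)) (β b)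
        (x0 b • e3 b - x2 b • e1 b) := by
      rw [← hRα, ← hRβ, Function.update_eq_self, Function.update_eq_self]
    have key : ∀ v w : J → K, Pr v → Pr w →
        Ge P (∑ b ∈ t, (P.ord (x0 b) + m) + N)
          (f (Function.update (Function.update R (α b) v) (β b) w)) := by
      intro v w hv hw
      refine ih _ ?_ ?_
      · intro b' hb'
        have hne : b' ≠ b := fun h => hb (h ▸ hb')
        rw [Function.update_of_ne (hαβ b' b), Function.update_of_ne (fun h => hne (hα h)),
          Function.update_of_ne (fun h => hne (hβ h)), Function.update_of_ne (hαβ b b').symm]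
        exact h1 b' (Finset.mem_insert_of_mem hb')
      · intro k hk
        by_cases hkβ : k = β b
        · rw [hkβ, Function.update_self]; exact hw
        rw [Function.update_of_ne hkβ]
        by_cases hkα : k = α b
        · rw [hkα, Function.update_self]; exact hv
        rw [Function.update_of_ne hkα]
        refine h2 k (fun b' hb' => ?_)
        rcases Finset.mem_insert.1 hb' with rfl | hb'
        · exact ⟨hkα, hkβ⟩
        · exact hk b' hb'
    rw [hR, alt_pair f R (hαβ b b)]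
    have h3 : Ge P (P.ord (x0 b)) (x0 b) := Or.inr le_rfl
    have h4 := h3.mul ((((hm0 b).mul (key _ _ (he2 b) (he3 b))).sub
      ((hm1 b).mul (key _ _ (he1 b) (he3 b)))).add ((hm2 b).mul (key _ _ (he1 b) (he2 b))))
    refine h4.mono ?_
    rw [Finset.sum_insert hb]
    linarith

/-- The indices of the rows. -/
abbrev Ix (A B : Type) := A ⊕ Option (B ⊕ B)

section rows

variable {K : Type} [Field K] {n : ℕ} {A B : Type} [DecidableEq A] [Fintype A]

/-- The rows. -/
noncomputable def rws (dg : A → ℕ) (D : A → (Fin (n + 1) →₀ ℕ) → Derivation ℤ K K)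
    (x : Fin (n + 1) → K) (i0 : Fin (n + 1)) (Q : B → Fam K n A) (ib jb lb : B → Fin (n + 1)) :
    Ix A B → Fin (n + 1) → K
  | Sum.inl c => vA D x (Pi.single c (X i0 ^ dg c))
  | Sum.inr none => x
  | Sum.inr (some (Sum.inl b)) => vq D x (Q b) (pm x (ib b) (jb b))
  | Sum.inr (some (Sum.inr b)) => vq D x (Q b) (pm x (ib b) (lb b))

/-- The rows at a place. -/
noncomputable def lrws (dg : A → ℕ) (D : A → (Fin (n + 1) →₀ ℕ) → Derivation ℤ K K)
    (x x' : Fin (n + 1) → K) (i1 : Fin (n + 1)) (Q : B → Fam K n A)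
    (ib jb lb : B → Fin (n + 1)) : Ix A B → Fin (n + 1) → K
  | Sum.inl c => vA D x' (Pi.single c (X i1 ^ dg c))
  | Sum.inr none => x'
  | Sum.inr (some (Sum.inl b)) => x (ib b) • vq D x' (Q b) (pm x' i1 (jb b)) -
      x (jb b) • vq D x' (Q b) (pm x' i1 (ib b))
  | Sum.inr (some (Sum.inr b)) => x (ib b) • vq D x' (Q b) (pm x' i1 (lb b)) -
      x (lb b) • vq D x' (Q b) (pm x' i1 (ib b))

/-- The factors. -/
def fcs (dg : A → ℕ) (x0 lam : K) : Ix A B → K
  | Sum.inl c => (x0 / lam) ^ dg c * lam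
  | Sum.inr _ => lam

/-- The order of the rows. -/
def rks {A B : Type} : Ix A B → ℕ
  | Sum.inl _ => 2
  | Sum.inr none => 0
  | Sum.inr (some _) => 1

variable {F : Fam K n A} {dg : A → ℕ} {D : A → (Fin (n + 1) →₀ ℕ) → Derivation ℤ K K}

theorem rws_repl [Fintype B] (hF : ∀ a, (F a).IsHomogeneous (dg a))
    (hD : TH145.GC.Dual F dg D) {x : Fin (n + 1) → K} (hxF : ∀ a, eval x (F a) = 0)
    (i0 : Fin (n + 1)) (Q : B → Fam K n A) (ib jb lb : B → Fin (n + 1))
    (hTC : TC F Finset.univ x ≤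
      Submodule.span K (rws dg D x i0 Q ib jb lb '' {l | rks l < 2}))
    {x' : Fin (n + 1) → K} {lam : K} (hlam : lam ≠ 0) (hx : x = lam • x')
    {i1 : Fin (n + 1)} (hi1 : x' i1 = 1)
    (f : (Fin (n + 1) → K) [⋀^Ix A B]→ₗ[K] K) :
    f (rws dg D x i0 Q ib jb lb) = (∏ k : Ix A B, fcs dg (x i0) lam k) *
      f (lrws dg D x x' i1 Q ib jb lb) := by
  classical
  obtain ⟨R, hR⟩ : ∃ R, R = rws dg D x i0 Q ib jb lb := ⟨_, rfl⟩
  rw [← hR] at hTC ⊢
  have hxR : R (Sum.inr none) = x := by rw [hR]; rfl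
  have hx1 : x' ∈ Submodule.span K (R '' {l | rks l < 1}) := by
    have h1 : x' = lam⁻¹ • R (Sum.inr none) := by
      rw [hxR, hx, smul_smul, inv_mul_cancel₀ hlam, one_smul]
    rw [h1]
    exact Submodule.smul_mem _ _ (Submodule.subset_span ⟨Sum.inr none, by simp [rks], rfl⟩)
  have hx2 : x' ∈ Submodule.span K (R '' {l | rks l < 2}) := by
    refine Submodule.span_mono ?_ hx1
    exact Set.image_mono fun l (hl : rks l < 1) => (lt_of_lt_of_le hl one_le_two : rks l < 2)
  have hv : ∀ Q m, vq D x Q m - lam • vq D x' Q m = DA D (ql Q m) lam • x' := by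
    intro Q m
    rw [hx, vq_scale, add_sub_cancel_left]
  refine alt_tri f R _ _ rks fun k => ?_
  rcases k with c | _ | (b | b)
  · -- the equations
    change R (Sum.inl c) - ((x i0 / lam) ^ dg c * lam) •
      vA D x' (Pi.single c (X i1 ^ dg c)) ∈ Submodule.span K (R '' {l | rks l < 2})
    have hxi : x i1 = lam := by
      rw [hx, Pi.smul_apply, hi1, smul_eq_mul, mul_one]
    obtain ⟨G, hG⟩ : ∃ G : Fam K n A, G = (Pi.single c (X i0 ^ dg c) : Fam K n A) -
        (x i0 / lam) ^ dg c • (Pi.single c (X i1 ^ dg c) : Fam K n A) := ⟨_, rfl⟩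
    have hXh : ∀ i : Fin (n + 1), ∀ a, ((Pi.single c (X i ^ dg c) : Fam K n A) a).IsHomogeneous
        (dg a) := fun i a => single_hom (isHomogeneous_X_pow i (dg c)) a
    have hGT : vA D x G ∈ TC F Finset.univ x := by
      refine vA_mem_TC hF hD (fun c _ => hxF c) (fun a => ?_) fun b _ => ?_
      · rw [hG, Pi.sub_apply, Pi.smul_apply]
        refine (hXh i0 a).sub ?_
        rw [smul_eq_C_mul]
        have := (isHomogeneous_C (Fin (n + 1)) ((x i0 / lam) ^ dg c)).mul (hXh i1 a)
        rwa [zero_add] at this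
      · rw [hG, Pi.sub_apply, Pi.smul_apply, map_sub, smul_eval]
        by_cases hb : b = c
        · subst hb
          rw [Pi.single_eq_same, Pi.single_eq_same, map_pow, map_pow, eval_X, eval_X, hxi,
            div_pow, div_mul_cancel₀ _ (pow_ne_zero _ hlam), sub_self]
        · rw [Pi.single_eq_of_ne hb, Pi.single_eq_of_ne hb, map_zero, mul_zero, sub_self]
    have h1 : R (Sum.inl c) - ((x i0 / lam) ^ dg c * lam) •
        vA D x' (Pi.single c (X i1 ^ dg c)) = vA D x G +
          ((x i0 / lam) ^ dg c * DA D (Pi.single c (X i1 ^ dg c)) lam) • x' := by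
      have h2 : R (Sum.inl c) = vA D x (Pi.single c (X i0 ^ dg c)) := by rw [hR]; rfl
      have h3 : vA D x (Pi.single c (X i1 ^ dg c)) =
          lam • vA D x' (Pi.single c (X i1 ^ dg c)) +
            DA D (Pi.single c (X i1 ^ dg c)) lam • x' := by
        conv_lhs => rw [hx]
        exact vA_scale D x' lam _
      rw [h2, hG, map_sub, map_smul, h3, smul_add, smul_smul, smul_smul]
      abel
    rw [h1]
    exact add_mem (hTC hGT) (Submodule.smul_mem _ _ hx2)
  · change R (Sum.inr none) - lam • x' ∈ _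
    rw [hxR, ← hx, sub_self]
    exact zero_mem _
  · change R (Sum.inr (some (Sum.inl b))) -
      lam • (x (ib b) • vq D x' (Q b) (pm x' i1 (jb b)) -
        x (jb b) • vq D x' (Q b) (pm x' i1 (ib b))) ∈ _
    have h1 : R (Sum.inr (some (Sum.inl b))) = vq D x (Q b) (pm x (ib b) (jb b)) := by
      rw [hR]; rfl
    rw [h1, ← map_smul (vq D x' (Q b)), ← map_smul (vq D x' (Q b)),
      ← map_sub (vq D x' (Q b)), ← pm_scaled hx hi1, hv]
    exact Submodule.smul_mem _ _ hx1
  · change R (Sum.inr (some (Sum.inr b))) -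
      lam • (x (ib b) • vq D x' (Q b) (pm x' i1 (lb b)) -
        x (lb b) • vq D x' (Q b) (pm x' i1 (ib b))) ∈ _
    have h1 : R (Sum.inr (some (Sum.inr b))) = vq D x (Q b) (pm x (ib b) (lb b)) := by
      rw [hR]; rfl
    rw [h1, ← map_smul (vq D x' (Q b)), ← map_smul (vq D x' (Q b)),
      ← map_sub (vq D x' (Q b)), ← pm_scaled hx hi1, hv]
    exact Submodule.smul_mem _ _ hx1

end rows

section local_ineq

variable {k K : Type} [Field k] [Field K] [Algebra k K] {n : ℕ} {A B : Type}
  [DecidableEq A] [Fintype A] [Fintype B] {F : Fam K n A} {dg : A → ℕ}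
  {D : A → (Fin (n + 1) →₀ ℕ) → Derivation ℤ K K} {e g : Place k K → ℤ}

omit [DecidableEq A] in
theorem ord_fcs (P : Place k K) (dg : A → ℕ) {x0 lam : K} (hx0 : x0 ≠ 0) (hlam : lam ≠ 0) :
    (∏ k : Ix A B, fcs dg x0 lam k) ≠ 0 ∧
      P.ord (∏ k : Ix A B, fcs dg x0 lam k) =
        ((∑ c, dg c : ℕ) : ℤ) * (P.ord x0 - P.ord lam) +
        ((Fintype.card A + 1 + 2 * Fintype.card B : ℕ) : ℤ) * P.ord lam := by
  classical
  have h1 : (∏ k : Ix A B, fcs dg x0 lam k) =
      (x0 / lam) ^ (∑ c, dg c) * (lam ^ Fintype.card A *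
        (lam * (lam ^ Fintype.card B * lam ^ Fintype.card B))) := by
    rw [Fintype.prod_sum_type, Fintype.prod_option, Fintype.prod_sum_type]
    simp only [fcs, Finset.prod_const, Finset.card_univ]
    rw [Finset.prod_mul_distrib, Finset.prod_const, Finset.card_univ,
      Finset.prod_pow_eq_pow_sum]
    ring
  have hr := pow_ne_zero (∑ c, dg c) (div_ne_zero hx0 hlam)
  have ha := pow_ne_zero (Fintype.card A) hlam
  have hb := pow_ne_zero (Fintype.card B) hlam
  have h2 := mul_ne_zero hlam (mul_ne_zero hb hb)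
  have h3 := mul_ne_zero ha h2
  refine ⟨?_, ?_⟩
  · rw [h1]
    exact mul_ne_zero hr h3
  · rw [h1, P.ord_mul hr h3, P.ord_mul ha h2, P.ord_mul hlam (mul_ne_zero hb hb),
      P.ord_mul hb hb, P.ord_pow, P.ord_pow, P.ord_pow, P.ord_div hx0 hlam]
    push_cast
    ring

/-- The local inequality for pairs with different base indices. -/
theorem loc_pairs (hdat : DataL k F dg D e g) {x : Fin (n + 1) → K}
    (hxF : ∀ a, eval x (F a) = 0) {i0 : Fin (n + 1)} (hi0 : x i0 ≠ 0) (Q : B → Fam K n A)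
    (hQ : ∀ b a, (Q b a).IsHomogeneous (dg a - 1)) (ib jb lb : B → Fin (n + 1))
    (P : Place k K) (hc : ∀ b a u, Ge P 0 ((Q b a).coeff u))
    (hcard : Fintype.card A + 1 + 2 * Fintype.card B = n + 1)
    (hS : ∑ a, dg a = n + 1 + Fintype.card B) (E : Ix A B ≃ Fin (n + 1)) :
    Ge P (((∑ a, dg a : ℕ) : ℤ) * P.ord (x i0) + ∑ b, P.ord (x (ib b)) -
      (n + 1 + Fintype.card A) * (e P + g P)) (vol E (rws dg D x i0 Q ib jb lb)) := by
  classical
  by_cases hdet : vol E (rws dg D x i0 Q ib jb lb) = 0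
  · exact Or.inl hdet
  have hx0 : x ≠ 0 := by
    rintro rfl
    exact hi0 rfl
  obtain ⟨lam, x', hlam, hlamP, hxx, hx', i1, hi1⟩ := exists_scaled P hx0
  have he := hdat.e_nonneg P
  have hg := hdat.g_nonneg P
  -- the rows span
  have hTC : TC F Finset.univ x ≤
      Submodule.span K (rws dg D x i0 Q ib jb lb '' {l | rks l < 2}) := by
    obtain ⟨R, hR⟩ : ∃ R, R = rws dg D x i0 Q ib jb lb := ⟨_, rfl⟩
    rw [← hR] at hdet ⊢
    have hind : LinearIndependent K R := by
      rw [vol_apply] at hdet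
      have h4 := Matrix.linearIndependent_rows_iff_isUnit
        (A := Matrix.of fun i => R (E.symm i))
      rw [Matrix.isUnit_iff_isUnit_det, isUnit_iff_ne_zero] at h4
      exact (linearIndependent_equiv E.symm).1 (h4.2 hdet)
    have hind1 : LinearIndependent K fun κ : Option (B ⊕ B) => R (Sum.inr κ) :=
      hind.comp _ Sum.inr_injective
    have hle : Submodule.span K (Set.range fun κ : Option (B ⊕ B) => R (Sum.inr κ)) ≤
        TC F Finset.univ x := by
      rw [Submodule.span_le]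
      rintro _ ⟨κ, rfl⟩
      rcases κ with _ | (b | b)
      · rw [hR]
        exact x_mem_TC hdat.hom fun c _ => hxF c
      · rw [hR]
        exact vq_mem_TC hdat.pos hdat.hom hdat.dual (fun c _ => hxF c) (hQ b)
          (by rw [← eval_lf]; exact eval_pm x _ _)
      · rw [hR]
        exact vq_mem_TC hdat.pos hdat.hom hdat.dual (fun c _ => hxF c) (hQ b)
          (by rw [← eval_lf]; exact eval_pm x _ _)
    have hfr := TC_finrank hdat.hom hdat.dual (C := Finset.univ) (fun c _ => hxF c) hx0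
    have h5 : Submodule.span K (Set.range fun κ : Option (B ⊕ B) => R (Sum.inr κ)) =
        TC F Finset.univ x := by
      refine Submodule.eq_of_le_of_finrank_eq hle ?_
      rw [finrank_span_eq_card hind1, Fintype.card_option, Fintype.card_sum]
      rw [Finset.card_univ] at hfr
      omega
    rw [← h5, Submodule.span_le]
    rintro _ ⟨κ, rfl⟩
    refine Submodule.subset_span ⟨Sum.inr κ, ?_, rfl⟩
    rcases κ with _ | κ <;> simp [rks]
  have h1 := rws_repl hdat.hom hdat.dual hxF i0 Q ib jb lb hTC hlam hxx hi1 (vol E)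
  obtain ⟨hf0, hford⟩ := ord_fcs (B := B) P dg hi0 hlam
  -- the order of the determinant of the rows at the place
  have hlog : ∀ b ∈ (∅ : Finset A), ∀ a, ∀ I : Fin (n + 1) →₀ ℕ, I.degree = dg a →
      Ge P (P.ord (eval x' (F b)) - e P) (D a I (eval x' (F b))) := fun b hb =>
    absurd hb (Finset.notMem_empty b)
  have hpm1 : ∀ j, (∀ l, Ge P 0 (pm x' i1 j l)) ∧ ∑ l, pm x' i1 j l * x' l = 0 := by
    intro j
    refine ⟨fun l => ?_, by rw [← eval_lf]; exact eval_pm x' i1 j⟩
    unfold pm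
    refine Ge.sub ?_ ?_
    · split_ifs
      · exact hx' _
      · exact Ge.zero
    · split_ifs
      · exact hx' _
      · exact Ge.zero
  have hm : ∀ j, Ge P (P.ord lam) (x j) := by
    intro j
    rw [hlamP]
    exact ge_pord P x j
  have h3 : Ge P (∑ b : B, (P.ord (x (ib b)) + P.ord lam) + (-((n + 1) * (e P + g P))))
      (vol E (lrws dg D x x' i1 Q ib jb lb)) := by
    refine ge_pairs P (RowOK P F x' (e P + g P) ∅) (vol E)
      (fun R hR => ?_)
      (fun b : B => Sum.inr (some (Sum.inl b)))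
      (fun b : B => Sum.inr (some (Sum.inr b)))
      (fun a b hab => by simpa using hab) (fun a b hab => by simpa using hab)
      (fun a b hab => by simp at hab)
      (fun b => x (ib b)) (fun b => x (jb b)) (fun b => x (lb b)) (fun b => hm _)
      (fun b => hm _) (fun b => hm _) (fun b => vq D x' (Q b) (pm x' i1 (ib b)))
      (fun b => vq D x' (Q b) (pm x' i1 (jb b)))
      (fun b => vq D x' (Q b) (pm x' i1 (lb b)))
      (fun b => hdat.ok_vq P hx' hlog (hQ b) (hc b) (hpm1 _).1 (hpm1 _).2)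
      (fun b => hdat.ok_vq P hx' hlog (hQ b) (hc b) (hpm1 _).1 (hpm1 _).2)
      (fun b => hdat.ok_vq P hx' hlog (hQ b) (hc b) (hpm1 _).1 (hpm1 _).2)
      Finset.univ _ (fun b _ => ⟨rfl, rfl⟩) (fun κ hκ => ?_)
    · have h4 := hdat.ge_vol P hx' hi1 hlog (fun b hb => absurd hb (Finset.notMem_empty b)) E R hR
      rw [Finset.sum_empty, zero_sub] at h4
      exact h4
    · rcases κ with c | _ | (b | b)
      · exact hdat.ok_vA P hx' hlog (fun a => single_hom (isHomogeneous_X_pow i1 (dg c)) a)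
          (fun a u => ge_single P i1 c a u) fun b hb => absurd hb (Finset.notMem_empty b)
      · exact hdat.ok_x P hx'
      · exact absurd rfl (hκ b (Finset.mem_univ b)).1
      · exact absurd rfl (hκ b (Finset.mem_univ b)).2
  have hv0 : vol E (lrws dg D x x' i1 Q ib jb lb) ≠ 0 := by
    intro h0
    rw [h0, mul_zero] at h1
    exact hdet h1
  right
  rw [h1, P.ord_mul hf0 hv0, hford]
  have h4 := h3.resolve_left hv0
  rw [Finset.sum_add_distrib, Finset.sum_const, Finset.card_univ, nsmul_eq_mul] at h4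
  have h5 : ((∑ a, dg a : ℕ) : ℤ) = n + 1 + Fintype.card B := by rw [hS]; push_cast; ring
  have h6 : ((Fintype.card A + 1 + 2 * Fintype.card B : ℕ) : ℤ) = n + 1 := by
    rw [hcard]; push_cast; ring
  rw [h6, h5]
  have h7 : 0 ≤ (Fintype.card A : ℤ) * (e P + g P) := by positivity
  linarith

end local_ineq

end Pool.Agent.H435.SC
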