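import Pool.Agent.H435.SC.Fin
import Pool.Graph.R_seed8.Y741.KTop

/-!
Rational points on borderline generic complete intersections: assembly.
-/

set_option autoImplicit false

open MvPolynomial FF Pool.Agent.W603.PV Pool.Agent.W602.GT Pool.Agent.TH145.MG
open Pool.Agent.TH145.GH
open Pool.Agent.TH145.GC (Gen Cf finite_cf Rt exists_big indep_scale)
open Pool.Agent.Y735 (rho eval_rho rho_X pl fht rho_deg fht_nonneg)
open Pool.Agent.Y741
open LinearAlgebra.Projectivization

namespace Pool.Agent.H435.SC

/-- Finiteness of the rational points that do not lie on lines. -/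
theorem fin_scaled_P {k0 K : Type} [Field k0] [Field K] [Algebra k0 K] [IsAlgClosed K]
    [CharZero K] [IsAlgClosed k0] {n : ℕ} {A : Type} [Fintype A] [DecidableEq A] {dg : A → ℕ}
    (hpos : ∀ a, 0 < dg a) (hA : Fintype.card A < n)
    (hd : 2 * ∑ a, dg a + Fintype.card A = 3 * n + 2) (hnum : PlaneNum n dg)
    (F : A → MvPolynomial (Fin (n + 1)) K) (hF : ∀ a, (F a).IsHomogeneous (dg a))
    (I0 : A → Fin (n + 1) →₀ ℕ) (h0 : ∀ a, (F a).coeff (I0 a) ≠ 0)
    (hind : AlgebraicIndependent k0 fun p : Rt dg I0 =>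
      (F p.1).coeff p.2.1 / (F p.1).coeff (I0 p.1))
    (T : Finset K) (l0 : Fin (n + 1)) :
    {x : Fin (n + 1) → K | (∀ j, x j ∈ IntermediateField.adjoin k0 (T : Set K)) ∧ x l0 = 1 ∧
      (∀ a, eval x (F a) = 0) ∧ ¬ Exc 1 F Finset.univ x}.Finite := by
  classical
  obtain ⟨K', _, _, hK', hc, t, ht⟩ := exists_big K A
  let _ : Algebra k0 K' := ((algebraMap K K').comp (algebraMap k0 K)).toAlgebra
  have hst : IsScalarTower k0 K K' := IsScalarTower.of_algebraMap_eq fun _ => rfl
  have hI0 : ∀ a, (I0 a).degree = dg a := fun a =>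
    deg_of_mem (hF a) (mem_support_iff.2 (h0 a))
  have h1 := indep_scale (k0 := k0) (K' := K') F I0 hI0 h0 hind ht
  obtain ⟨G, hG⟩ : ∃ G : A → MvPolynomial (Fin (n + 1)) K', ∀ a, G a =
    MvPolynomial.C (t a / algebraMap K K' ((F a).coeff (I0 a))) * map (algebraMap K K') (F a) :=
    ⟨_, fun _ => rfl⟩
  have h2 : ∀ a, (G a).IsHomogeneous (dg a) := fun a => by
    have := (isHomogeneous_C (Fin (n + 1)) (t a / algebraMap K K' ((F a).coeff (I0 a)))).mul
      ((hF a).map (algebraMap K K'))
    rwa [zero_add, ← hG] at this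
  have h4 : (fun p : Cf n dg => (G p.1).coeff p.2.1) =
      fun p => t p.1 / algebraMap K K' ((F p.1).coeff (I0 p.1)) *
        algebraMap K K' ((F p.1).coeff p.2.1) := by
    funext p
    rw [hG, coeff_C_mul, coeff_map]
  have h5 : AlgebraicIndependent k0 (fun p : Cf n dg => (G p.1).coeff p.2.1) := by
    rw [h4]
    exact h1
  have ha0 : ∀ a, algebraMap K K' ((F a).coeff (I0 a)) ≠ 0 := fun a => by
    rw [Ne, map_eq_zero]; exact h0 a
  have ht0 : ∀ a, t a ≠ 0 := fun a => by
    intro h5
    have h6 : Transcendental K (t a) := ht.transcendental a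
    rw [h5] at h6
    exact h6 (by
      have := isAlgebraic_algebraMap (R := K) (A := K') 0
      rwa [map_zero] at this)
  have h3 := fin_points_P (k0 := k0) hpos hA hd hnum h2 h5 (T.image (algebraMap K K')) l0
  have hev : ∀ (a : A) (x : Fin (n + 1) → K), eval (fun j => algebraMap K K' (x j)) (G a) =
      t a / algebraMap K K' ((F a).coeff (I0 a)) * algebraMap K K' (eval x (F a)) := by
    intro a x
    rw [hG, map_mul, eval_map, eval_C]
    have h5 := eval₂_comp_left (algebraMap K K') (RingHom.id K) x (F a)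
    rw [RingHom.comp_id] at h5
    congr 1
    exact h5.symm
  have hinj : Function.Injective fun (x : Fin (n + 1) → K) j => algebraMap K K' (x j) := by
    intro x x' h
    funext j
    exact (algebraMap K K').injective (congrFun h j)
  refine Set.Finite.of_finite_image (h3.subset ?_) (f := fun x j => algebraMap K K' (x j))
    hinj.injOn
  rintro _ ⟨x, ⟨hx, hxl, hxC, hxX⟩, rfl⟩
  refine ⟨fun j => ?_, ?_, fun a => ?_, fun hX => hxX ?_⟩
  · have h4 : (IntermediateField.adjoin k0 (T : Set K)).map (IsScalarTower.toAlgHom k0 K K') =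
        IntermediateField.adjoin k0 ((T.image (algebraMap K K') : Finset K') : Set K') := by
      rw [IntermediateField.adjoin_map, Finset.coe_image]
      rfl
    rw [← h4]
    exact ⟨x j, hx j, rfl⟩
  · dsimp only
    rw [hxl, map_one]
  · rw [hev, hxC a, map_zero, mul_zero]
  · exact exc_descend hF (fun c _ => hxC c)
      (exc_scale (fun a => div_ne_zero (ht0 a) (ha0 a)) hG hX)

end Pool.Agent.H435.SC
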