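import Pool.Agent.H435.SC.NoPC

/-!
The numerical condition, for surfaces.
-/

set_option autoImplicit false

namespace Pool.Agent.H435.SC

theorem planeNum_surface {n : ℕ} {A : Type} [Fintype A] [DecidableEq A] {d : A → ℕ}
    (hn : n = Fintype.card A + 2) (hd2 : ∀ a, 2 ≤ d a) (hS : ∑ a, d a = n + 2)
    (hA : 2 ≤ Fintype.card A) : PlaneNum n d := by
  have h1 : ∑ a, (d a - 1) = 4 := by
    have h2 : ∑ a, d a = ∑ a, (d a - 1) + Fintype.card A := by
      rw [← Finset.card_univ, Finset.card_eq_sum_ones, ← Finset.sum_add_distrib]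
      exact Finset.sum_congr rfl fun a _ => by have := hd2 a; omega
    omega
  have hpair : ∀ a b, a ≠ b → (d a - 1) + (d b - 1) ≤ 4 := by
    intro a b hab
    rw [← h1, ← Finset.sum_pair (f := fun a => d a - 1) hab]
    exact Finset.sum_le_sum_of_subset (Finset.subset_univ _)
  have hex : ∀ a : A, ∃ b : A, b ≠ a := by
    intro a
    by_contra hcon
    push Not at hcon
    have : Fintype.card A = 1 := Fintype.card_eq_one_iff.2 ⟨a, hcon⟩
    omega
  intro e he ⟨a, ha⟩
  obtain ⟨b, hb⟩ := hex a
  have h2 := hpair a b hb.symm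
  have h3 := hd2 b
  have h4 : e = 3 ∨ e = 4 := by omega
  rcases h4 with rfl | rfl
  · left
    have h5 : ∑ a, 2 * (d a - 1) ≤ ∑ a,
        (if 3 ≤ d a then (3 - 2) * (2 * d a - 3 + 1) else d a * (d a - 1)) := by
      refine Finset.sum_le_sum fun c _ => ?_
      split_ifs with h
      · omega
      · have h6 : d c = 2 := by have := hd2 c; omega
        rw [h6]
    rw [← Finset.mul_sum, h1] at h5
    omega
  · right
    refine ⟨?_, b, by omega⟩
    have h5 : (d a - 1) + ∑ c ∈ Finset.univ.erase a, (d c - 1) = 4 := by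
      rw [← h1]
      exact Finset.add_sum_erase _ (fun c => d c - 1) (Finset.mem_univ a)
    have h6 : (Finset.univ.erase a).card • 1 ≤ ∑ c ∈ Finset.univ.erase a, (d c - 1) :=
      Finset.card_nsmul_le_sum _ _ _ fun c _ => by have := hd2 c; omega
    rw [Finset.card_erase_of_mem (Finset.mem_univ a), Finset.card_univ, smul_eq_mul, mul_one] at h6
    omega

end Pool.Agent.H435.SC
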