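import Pool.Agent.H435.SC.Main
import Pool.Agent.H435.SC.Num
import Pool.Agent.H435.SC.GFin
import Pool.Graph.R_seed8.Y735.EL.Top
import Pool.Graph.R_seed8.Y735.S.Fin5

/-!
Points of generic complete intersections over finitely generated fields.
-/

set_option autoImplicit false

open MvPolynomial FF Pool.Agent.W603.LV Pool.Agent.W603.PV Pool.Agent.TH145.GH
open Pool.Agent.Y735 (pl rho eval_rho)
open Pool.Agent.TH145.GC (Cf Rt)
open Pool.Agent.W602.GT Pool.Agent.TH145.MG Pool.Agent.TH145.GF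
open LinearAlgebra.Projectivization

namespace Pool.Agent.H435.SC

open Pool.Agent.Y741

variable {k K : Type} [Field k] [Field K] [IsAlgClosed K] [CharZero K] [Algebra k K] {n : ℕ}
  {A : Type} [Fintype A] [DecidableEq A] {d : A → ℕ}

omit [IsAlgClosed K] [CharZero K] [Fintype A] [DecidableEq A] in
/-- From normalised points to points of projective space. -/
theorem pts_of_norm {E : Subfield K} {F : A → MvPolynomial (Fin (n + 1)) K}
    (hF : ∀ a, (F a).IsHomogeneous (d a))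
    (h : ∀ l0, {x : Fin (n + 1) → K | (∀ j, x j ∈ E) ∧ x l0 = 1 ∧
      ((∀ a, eval x (F a) = 0) ∧ ¬ ∃ W, LineIn F W ∧ x ∈ W)}.Finite) :
    {p | p ∈ EPts F E ∧ ¬ ∃ W, LineIn F W ∧ p.rep ∈ W}.Finite := by
  have h1 := proj_finite E
    {x : Fin (n + 1) → K | (∀ a, eval x (F a) = 0) ∧ ¬ ∃ W, LineIn F W ∧ x ∈ W} (by
      rintro x ⟨hx, hxL⟩ a ha
      refine ⟨fun b => ?_, fun ⟨W, hW, hxW⟩ => hxL ⟨W, hW, ?_⟩⟩
      · rw [eval_smul_hom (hF b), hx b, mul_zero]
      · have h2 := W.smul_mem a⁻¹ hxW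
        rwa [smul_smul, inv_mul_cancel₀ ha, one_smul] at h2) h
  refine h1.subset ?_
  rintro p ⟨⟨hp, x, hx, hx0, hpx⟩, hpW⟩
  obtain ⟨u, hu⟩ := Projectivization.exists_smul_eq_mk_rep K x hx0
  rw [← hpx] at hu
  have hu' : x = (u⁻¹ : Kˣ) • p.rep := by rw [← hu, smul_smul, inv_mul_cancel, one_smul]
  have hu'' : x = ((u⁻¹ : Kˣ) : K) • p.rep := hu'
  refine ⟨x, ⟨fun a => ?_, fun ⟨W, hW, hxW⟩ => hpW ⟨W, hW, ?_⟩⟩, hx, hx0, hpx⟩
  · rw [hu'', eval_smul_hom (hF a), hp a, mul_zero]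
  · have h7 : p.rep = (u : K) • x := hu.symm
    rw [h7]
    exact W.smul_mem _ hxW

/-- The borderline case. -/
theorem pts_P (hA : Fintype.card A < n) (hd0 : ∀ a, 0 < d a)
    (hd : 2 * ∑ a, d a + Fintype.card A = 3 * n + 2) (hnum : PlaneNum n d)
    (F : A → MvPolynomial (Fin (n + 1)) K) (hF : ∀ a, (F a).IsHomogeneous (d a))
    (hgen : AlgebraicIndependent k fun p : Cf n d => (F p.1).coeff p.2.1) (T : Finset K) :
    {p | p ∈ EPts F (IntermediateField.adjoin (algebraicClosure k K)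
      (T : Set K)).toSubfield ∧ ¬ ∃ W, LineIn F W ∧ p.rep ∈ W}.Finite := by
  have hac : IsAlgClosed (algebraicClosure k K) := (algebraicClosure.isAlgClosure k K).isAlgClosed
  refine pts_of_norm hF fun l0 => ?_
  refine (fin_points_P (k0 := algebraicClosure k K) hd0 hA hd hnum hF hgen.algebraicClosure T
    l0).subset ?_
  rintro x ⟨hx, hxl, hxF, hxL⟩
  exact ⟨hx, hxl, hxF, fun h => hxL (lineIn_of_exc h)⟩

/-- The other cases. -/
theorem pts_K (hn : 1 ≤ n) (hd0 : ∀ a, 0 < d a)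
    (hd : 3 * n + 3 ≤ 2 * ∑ a, d a + Fintype.card A)
    (F : A → MvPolynomial (Fin (n + 1)) K) (hF : ∀ a, (F a).IsHomogeneous (d a))
    (hgen : AlgebraicIndependent k fun p : Cf n d => (F p.1).coeff p.2.1) (T : Finset K) :
    {p | p ∈ EPts F (IntermediateField.adjoin (algebraicClosure k K)
      (T : Set K)).toSubfield ∧ ¬ ∃ W, LineIn F W ∧ p.rep ∈ W}.Finite := by
  obtain ⟨I0, hI0⟩ : ∃ I0 : A → Fin (n + 1) →₀ ℕ, ∀ a, (I0 a).degree = d a :=
    ⟨fun a => Finsupp.single 0 (d a), fun a => Finsupp.degree_single _ _⟩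
  have h0 : ∀ a, (F a).coeff (I0 a) ≠ 0 := fun a => hgen.ne_zero ⟨a, ⟨I0 a, hI0 a⟩⟩
  have hind := ratio_indep_fam hgen I0 hI0
  have hgen2 := Pool.Agent.Y735.EL.ind_unflat (I0 := fun a => ⟨I0 a, hI0 a⟩) hind
  exact (generic_intersections hn hd0 hd F hF (fun a => ⟨I0 a, hI0 a⟩) h0 hgen2).1 T

/-- Quintic surfaces. -/
theorem pts_5 {A : Type} [Fintype A] [DecidableEq A] {d : A → ℕ} (a0 : A) (ha0 : ∀ a, a = a0)
    (hd5 : d a0 = 5)
    (F : A → MvPolynomial (Fin (3 + 1)) K) (hF : ∀ a, (F a).IsHomogeneous (d a))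
    (hgen : AlgebraicIndependent k fun p : Cf 3 d => (F p.1).coeff p.2.1) (T : Finset K) :
    {p | p ∈ EPts F (IntermediateField.adjoin (algebraicClosure k K)
      (T : Set K)).toSubfield ∧ ¬ ∃ W, LineIn F W ∧ p.rep ∈ W}.Finite := by
  have hac : IsAlgClosed (algebraicClosure k K) := (algebraicClosure.isAlgClosure k K).isAlgClosed
  obtain ⟨I0, hI0⟩ : ∃ I0 : A → Fin (3 + 1) →₀ ℕ, ∀ a, (I0 a).degree = d a :=
    ⟨fun a => Finsupp.single 0 (d a), fun a => Finsupp.degree_single _ _⟩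
  have h0 : ∀ a, (F a).coeff (I0 a) ≠ 0 := fun a => hgen.ne_zero ⟨a, ⟨I0 a, hI0 a⟩⟩
  have hind := ratio_indep_fam hgen.algebraicClosure I0 hI0
  refine pts_of_norm hF fun l0 => ?_
  refine (Pool.Agent.Y735.S.fin_scaled_5 (k := algebraicClosure k K) (F := F a0)
    (by rw [← hd5]; exact hF a0) ⟨I0 a0, by rw [hI0, hd5]⟩ (h0 a0) ?_ T l0).subset ?_
  · refine hind.comp (fun I : {I : {I : Fin (3 + 1) →₀ ℕ // I.degree = 5} //
      I ≠ ⟨I0 a0, by rw [hI0, hd5]⟩} => (⟨a0, ⟨I.1.1, by rw [I.1.2, hd5],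
        fun h => I.2 (Subtype.ext h)⟩⟩ : Rt d I0)) ?_
    intro I J h
    have e2 := eq_of_heq (Sigma.mk.inj_iff.1 h).2
    exact Subtype.ext (Subtype.ext (congrArg (fun z => z.1) e2))
  · rintro x ⟨hx, hxl, hxF, -⟩
    exact ⟨hx, hxl, hxF a0⟩

/-- The points that do not lie on lines. -/
theorem pts_all (hA : Fintype.card A < n) (hd0 : ∀ a, 0 < d a)
    (hd : 3 * n + 2 ≤ 2 * ∑ a, d a + Fintype.card A)
    (hc : 3 * n + 3 ≤ 2 * ∑ a, d a + Fintype.card A ∨ (n = Fintype.card A + 2 ∧ ∀ a, 2 ≤ d a) ∨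
      PlaneNum n d)
    (F : A → MvPolynomial (Fin (n + 1)) K) (hF : ∀ a, (F a).IsHomogeneous (d a))
    (hgen : AlgebraicIndependent k fun p : Cf n d => (F p.1).coeff p.2.1) (T : Finset K) :
    {p | p ∈ EPts F (IntermediateField.adjoin (algebraicClosure k K)
      (T : Set K)).toSubfield ∧ ¬ ∃ W, LineIn F W ∧ p.rep ∈ W}.Finite := by
  by_cases h3 : 3 * n + 3 ≤ 2 * ∑ a, d a + Fintype.card A
  · exact pts_K (by omega) hd0 h3 F hF hgen T
  have hd' : 2 * ∑ a, d a + Fintype.card A = 3 * n + 2 := by omega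
  rcases hc with hc | ⟨hc, hc2⟩ | hc
  · exact absurd hc h3
  · have hS : ∑ a, d a = n + 2 := by omega
    rcases Nat.lt_or_ge (Fintype.card A) 2 with h2 | h2
    · rcases Nat.lt_or_ge (Fintype.card A) 1 with h1 | h1
      · exfalso
        have h4 : IsEmpty A := Fintype.card_eq_zero_iff.1 (by omega)
        rw [Finset.univ_eq_empty, Finset.sum_empty] at hS
        omega
      · obtain ⟨a0, ha0⟩ := Fintype.card_eq_one_iff.1 (by omega : Fintype.card A = 1)
        obtain rfl : n = 3 := by omega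
        have hsum : ∑ b, d b = d a0 := by
          rw [Finset.sum_eq_single a0 (fun b _ hb => absurd (ha0 b) hb)
            (fun h => absurd (Finset.mem_univ a0) h)]
        exact pts_5 a0 ha0 (by omega) F hF hgen T
    · exact pts_P hA hd0 hd' (planeNum_surface hc hc2 hS h2) F hF hgen T
  · exact pts_P hA hd0 hd' hc F hF hgen T

end Pool.Agent.H435.SC
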