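import Pool.Agent.H435.SC.Loc

/-!
The plane of bounded height.
-/

set_option autoImplicit false

open MvPolynomial FF Pool.Agent.W603.LV Pool.Agent.W603.PV Pool.Agent.TH145.GH
open Pool.Agent.Y735 (lf pm lf_hom eval_pm eval_lf vol vol_apply alt_tri alt_pair ge_vol)

namespace Pool.Agent.H435.SC

open Pool.Agent.Y741

variable {k K : Type} [Field k] [Field K] [Algebra k K] {n : ℕ} {A B : Type}
  [DecidableEq A] [Fintype A] [Fintype B] [DecidableEq B]

/-- The point lies in a plane of bounded height. -/
def Rest (k : Type) {K : Type} [Field k] [Field K] [Algebra k K] {n : ℕ} (H : ℤ)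
    (x : Fin (n + 1) → K) : Prop :=
  ∃ (i : Fin 3 → Fin (n + 1)) (ψ : Fin (n + 1) → Fin 3 → K),
    (∀ s t, ψ (i s) t = if s = t then 1 else 0) ∧ (∀ l, x l = ∑ s, ψ l s * x (i s)) ∧
    ∀ l s, hgt k (ψ l s) ≤ H

/-- The alternating matrix. -/
noncomputable def Am (dg : A → ℕ) (D : A → (Fin (n + 1) →₀ ℕ) → Derivation ℤ K K)
    (x : Fin (n + 1) → K) (l0 : Fin (n + 1)) (Q : B → Fam K n A) (jb lb : B → Fin (n + 1))
    (E : Ix A B ≃ Fin (n + 1)) (b0 : B) (b c : Fin (n + 1)) : K :=
  vol E (Function.update (Function.update (rws dg D x l0 Q (fun _ => l0) jb lb)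
    (Sum.inr (some (Sum.inl b0))) (vq D x (Q b0) (Pi.single b 1)))
    (Sum.inr (some (Sum.inr b0))) (vq D x (Q b0) (Pi.single c 1)))

variable {dg : A → ℕ} {D : A → (Fin (n + 1) →₀ ℕ) → Derivation ℤ K K}
  {x : Fin (n + 1) → K} {l0 : Fin (n + 1)} {Q : B → Fam K n A} {jb lb : B → Fin (n + 1)}
  {E : Ix A B ≃ Fin (n + 1)} {b0 : B}

omit [Fintype B] in
theorem Am_self (b : Fin (n + 1)) : Am dg D x l0 Q jb lb E b0 b b = 0 := by
  unfold Am
  have hne : (Sum.inr (some (Sum.inl b0)) : Ix A B) ≠ Sum.inr (some (Sum.inr b0)) := by simp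
  refine (vol E).map_eq_zero_of_eq _ (i := Sum.inr (some (Sum.inl b0)))
    (j := Sum.inr (some (Sum.inr b0))) ?_ hne
  rw [Function.update_self, Function.update_of_ne hne, Function.update_self]

omit [Fintype B] in
theorem Am_swap (b c : Fin (n + 1)) :
    Am dg D x l0 Q jb lb E b0 b c = -Am dg D x l0 Q jb lb E b0 c b := by
  have hne : (Sum.inr (some (Sum.inl b0)) : Ix A B) ≠ Sum.inr (some (Sum.inr b0)) := by simp
  obtain ⟨g, hg⟩ : ∃ g : (Fin (n + 1) → K) → (Fin (n + 1) → K) → K, g = fun u v =>
    vol E (Function.update (Function.update (rws dg D x l0 Q (fun _ => l0) jb lb)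
    (Sum.inr (some (Sum.inl b0))) u) (Sum.inr (some (Sum.inr b0))) v) := ⟨_, rfl⟩
  have h1 : ∀ u v w, g (u + v) w = g u w + g v w := by
    intro u v w
    rw [hg]
    dsimp only
    rw [Function.update_comm hne, Function.update_comm hne, Function.update_comm hne,
      AlternatingMap.map_update_add]
  have h2 : ∀ u v w, g w (u + v) = g w u + g w v := by
    intro u v w
    rw [hg]
    dsimp only
    rw [AlternatingMap.map_update_add]
  have h3 : ∀ u, g u u = 0 := by
    intro u
    rw [hg]
    dsimp only
    refine (vol E).map_eq_zero_of_eq _ (i := Sum.inr (some (Sum.inl b0)))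
      (j := Sum.inr (some (Sum.inr b0))) ?_ hne
    rw [Function.update_self, Function.update_of_ne hne, Function.update_self]
  have h4 := h3 (vq D x (Q b0) (Pi.single b 1) + vq D x (Q b0) (Pi.single c 1))
  rw [h1, h2, h2, h3, h3] at h4
  have h5 : Am dg D x l0 Q jb lb E b0 b c = g (vq D x (Q b0) (Pi.single b 1))
    (vq D x (Q b0) (Pi.single c 1)) := by rw [hg]; rfl
  have h6 : Am dg D x l0 Q jb lb E b0 c b = g (vq D x (Q b0) (Pi.single c 1))
    (vq D x (Q b0) (Pi.single b 1)) := by rw [hg]; rfl
  rw [h5, h6]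
  linear_combination h4

/-- The minors. -/
noncomputable def Xi (dg : A → ℕ) (D : A → (Fin (n + 1) →₀ ℕ) → Derivation ℤ K K)
    (x : Fin (n + 1) → K) (l0 : Fin (n + 1)) (Q : B → Fam K n A) (jb lb : B → Fin (n + 1))
    (E : Ix A B ≃ Fin (n + 1)) (b0 : B) (a b c : Fin (n + 1)) : K :=
  x a * Am dg D x l0 Q jb lb E b0 b c - x b * Am dg D x l0 Q jb lb E b0 a c +
    x c * Am dg D x l0 Q jb lb E b0 a b

omit [Fintype B] in
theorem Xi_swap (a b c : Fin (n + 1)) :
    Xi dg D x l0 Q jb lb E b0 b a c = -Xi dg D x l0 Q jb lb E b0 a b c := by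
  unfold Xi
  rw [Am_swap b a]
  ring

omit [Fintype B] in
theorem Xi_swap' (a b c : Fin (n + 1)) :
    Xi dg D x l0 Q jb lb E b0 a c b = -Xi dg D x l0 Q jb lb E b0 a b c := by
  unfold Xi
  rw [Am_swap c b]
  ring

omit [Fintype B] in
theorem vol_eq_Xi (a b c : Fin (n + 1)) :
    vol E (rws dg D x l0 Q (Function.update (fun _ => l0) b0 a) (Function.update jb b0 b)
      (Function.update lb b0 c)) = x a * Xi dg D x l0 Q jb lb E b0 a b c := by
  have hne : (Sum.inr (some (Sum.inl b0)) : Ix A B) ≠ Sum.inr (some (Sum.inr b0)) := by simp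
  have hpm : ∀ i j, pm x i j = x i • (Pi.single j 1 : Fin (n + 1) → K) -
      x j • (Pi.single i 1 : Fin (n + 1) → K) := by
    intro i j
    funext l
    unfold pm
    simp only [Pi.sub_apply, Pi.smul_apply, smul_eq_mul]
    congr 1
    · by_cases h : l = j
      · rw [if_pos h, h, Pi.single_eq_same, mul_one]
      · rw [if_neg h, Pi.single_eq_of_ne h, mul_zero]
    · by_cases h : l = i
      · rw [if_pos h, h, Pi.single_eq_same, mul_one]
      · rw [if_neg h, Pi.single_eq_of_ne h, mul_zero]
  have h1 := alt_pair (vol E) (rws dg D x l0 Q (fun _ => l0) jb lb) hne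
    (vq D x (Q b0) (Pi.single a 1)) (vq D x (Q b0) (Pi.single b 1))
    (vq D x (Q b0) (Pi.single c 1)) (x a) (x b) (x c)
  have h2 : rws dg D x l0 Q (Function.update (fun _ => l0) b0 a) (Function.update jb b0 b)
      (Function.update lb b0 c) =
      Function.update (Function.update (rws dg D x l0 Q (fun _ => l0) jb lb)
        (Sum.inr (some (Sum.inl b0)))
        (x a • vq D x (Q b0) (Pi.single b 1) - x b • vq D x (Q b0) (Pi.single a 1)))
        (Sum.inr (some (Sum.inr b0)))
        (x a • vq D x (Q b0) (Pi.single c 1) - x c • vq D x (Q b0) (Pi.single a 1)) := by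
    funext κ
    rcases κ with c' | _ | (b' | b')
    · rw [Function.update_of_ne (by simp), Function.update_of_ne (by simp)]
      rfl
    · rw [Function.update_of_ne (by simp), Function.update_of_ne (by simp)]
      rfl
    · rw [Function.update_of_ne (by simp)]
      by_cases hb : b' = b0
      · subst hb
        rw [Function.update_self]
        change vq D x (Q b') (pm x (Function.update (fun _ => l0) b' a b')
          (Function.update jb b' b b')) = _
        rw [Function.update_self, Function.update_self, hpm, map_sub, map_smul, map_smul]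
      · rw [Function.update_of_ne (by simpa using hb)]
        change vq D x (Q b') (pm x (Function.update (fun _ => l0) b0 a b')
          (Function.update jb b0 b b')) = vq D x (Q b') (pm x l0 (jb b'))
        rw [Function.update_of_ne hb, Function.update_of_ne hb]
    · by_cases hb : b' = b0
      · subst hb
        rw [Function.update_self]
        change vq D x (Q b') (pm x (Function.update (fun _ => l0) b' a b')
          (Function.update lb b' c b')) = _
        rw [Function.update_self, Function.update_self, hpm, map_sub, map_smul, map_smul]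
      · rw [Function.update_of_ne (by simpa using hb), Function.update_of_ne (by simp)]
        change vq D x (Q b') (pm x (Function.update (fun _ => l0) b0 a b')
          (Function.update lb b0 c b')) = vq D x (Q b') (pm x l0 (lb b'))
        rw [Function.update_of_ne hb, Function.update_of_ne hb]
  rw [h2, h1]
  rfl

variable {F : Fam K n A} {e g : Place k K → ℤ}

theorem Xi_ge (hdat : DataL k F dg D e g) (hxF : ∀ a, eval x (F a) = 0) (hl0 : x l0 = 1)
    (hQ : ∀ b a, (Q b a).IsHomogeneous (dg a - 1)) (hc : ∀ b a, Nc (Q b a))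
    (hcard : Fintype.card A + 1 + 2 * Fintype.card B = n + 1)
    (hS : ∑ a, dg a = n + 1 + Fintype.card B) (P : Place k K) (a b c : Fin (n + 1)) :
    Ge P (-((n + 1 + Fintype.card A) * (e P + g P))) (Xi dg D x l0 Q jb lb E b0 a b c) := by
  have key : ∀ a b c, x a ≠ 0 → Ge P (-((n + 1 + Fintype.card A) * (e P + g P)))
      (Xi dg D x l0 Q jb lb E b0 a b c) := by
    intro a b c ha
    have h1 := loc_pairs hdat hxF (i0 := l0) (by rw [hl0]; exact one_ne_zero) Q hQ
      (Function.update (fun _ => l0) b0 a) (Function.update jb b0 b)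
      (Function.update lb b0 c) P (fun b a u => (hc b a).ge P u) hcard hS E
    rw [vol_eq_Xi] at h1
    have ho : P.ord (x l0) = 0 := by
      rw [hl0]
      exact P.ord_one
    have h2 : ∑ b, P.ord (x (Function.update (fun _ => l0) b0 a b)) = P.ord (x a) := by
      rw [Finset.sum_eq_single b0]
      · rw [Function.update_self]
      · intro b' _ hb'
        rw [Function.update_of_ne hb', ho]
      · intro h
        exact absurd (Finset.mem_univ _) h
    rw [h2, ho, mul_zero, zero_add] at h1
    rcases h1 with h1 | h1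
    · left
      exact (mul_eq_zero.1 h1).resolve_left ha
    · by_cases h0 : Xi dg D x l0 Q jb lb E b0 a b c = 0
      · exact Or.inl h0
      · right
        rw [P.ord_mul ha h0] at h1
        linarith
  by_cases ha : x a = 0
  · by_cases hb : x b = 0
    · by_cases hc' : x c = 0
      · left
        unfold Xi
        rw [ha, hb, hc']
        ring
      · have h1 := key c a b hc'
        rw [Xi_swap, Xi_swap', neg_neg] at h1
        exact h1
    · have h1 := key b a c hb
      rw [Xi_swap] at h1
      have := h1.neg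
      rwa [neg_neg] at this
  · exact key a b c ha

variable [CharZero k] [IsFF k K] [IsAlgClosed k]

/-- The plane of bounded height. -/
theorem rest_of_Xi (hdat : DataL k F dg D e g) (hxF : ∀ a, eval x (F a) = 0) (hl0 : x l0 = 1)
    (hQ : ∀ b a, (Q b a).IsHomogeneous (dg a - 1)) (hc : ∀ b a, Nc (Q b a))
    (hcard : Fintype.card A + 1 + 2 * Fintype.card B = n + 1)
    (hS : ∑ a, dg a = n + 1 + Fintype.card B) {a b c : Fin (n + 1)}
    (hne : Xi dg D x l0 Q jb lb E b0 a b c ≠ 0) : Rest k (CL n A e g) x := by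
  classical
  obtain ⟨ξ, hξ⟩ : ∃ ξ, ξ = Xi dg D x l0 Q jb lb E b0 := ⟨_, rfl⟩
  have hge : ∀ P a b c, Ge P (-((n + 1 + Fintype.card A) * (e P + g P))) (ξ a b c) := by
    intro P a b c
    rw [hξ]
    exact Xi_ge hdat hxF hl0 hQ hc hcard hS P a b c
  have hfin : {P : Place k K | ((n : ℤ) + 1 + Fintype.card A) * (e P + g P) ≠ 0}.Finite := by
    refine hdat.fin.subset fun P hP => ?_
    by_contra hcon
    simp only [Set.mem_ofPred_eq, not_or, not_not] at hcon
    apply hP
    rw [hcon.1, hcon.2]
    ring
  have hnn : ∀ P : Place k K, 0 ≤ ((n : ℤ) + 1 + Fintype.card A) * (e P + g P) := by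
    intro P
    have h1 := hdat.e_nonneg P
    have h2 := hdat.g_nonneg P
    positivity
  rw [← hξ] at hne
  have hht : ∀ a' b' c', hgt k (ξ a' b' c' / ξ a b c) ≤ CL n A e g := fun a' b' c' =>
    Pool.Agent.Y735.S.ratio_ht hnn hfin (fun P => hge P a' b' c') (fun P => hge P a b c) hne
  have hself1 : ∀ u v, ξ u u v = 0 := by
    intro u v
    rw [hξ]
    unfold Xi
    rw [Am_self]
    ring
  have hself2 : ∀ u v, ξ u v v = 0 := by
    intro u v
    rw [hξ]
    unfold Xi
    rw [Am_self]
    ring
  have hself3 : ∀ u v, ξ u v u = 0 := by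
    intro u v
    rw [hξ]
    unfold Xi
    rw [Am_self, Am_swap v u]
    ring
  refine ⟨![a, b, c], fun l => ![ξ l b c / ξ a b c, ξ a l c / ξ a b c, ξ a b l / ξ a b c],
    fun s t => ?_, fun l => ?_, fun l s => ?_⟩
  · fin_cases s <;> fin_cases t <;>
      simp [hself1, hself2, hself3, div_self hne]
  · rw [Fin.sum_univ_three]
    simp only [Matrix.cons_val]
    have h1 : x l * ξ a b c = x a * ξ l b c + x b * ξ a l c + x c * ξ a b l := by
      rw [hξ]
      unfold Xi
      rw [Am_swap b l]
      ring
    field_simp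
    linear_combination h1
  · fin_cases s
    · exact hht _ _ _
    · exact hht _ _ _
    · exact hht _ _ _

end Pool.Agent.H435.SC
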